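import Pool.Agent.H.MP_21b43d_ag.X.YAlg1

/-!
# M6 / X-part: the algebra lemmas for condition (Y)
-/

set_option autoImplicit false

open Polynomial

namespace M21X

noncomputable section

/-- The trace lemma over `ℂ(u)`. -/
theorem YAlg2_key {F L : Type} [Field F] [Algebra ℂ F] [Field L] [Algebra F L] [Algebra ℂ L]
    [IsScalarTower ℂ F L] [FiniteDimensional F L] (u : F) (hu : Transcendental ℂ u)
    (hgen : ∀ z : F, ∃ a b : ℂ[X], z = aeval u a / aeval u b) (p : ℂ[X]) (hp : Squarefree p)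
    (x w : L) (hx : (aeval (algebraMap F L u) : ℂ[X] →ₐ[ℂ] L).toRingHom.IsIntegralElem x)
    (hw : (aeval (algebraMap F L u) : ℂ[X] →ₐ[ℂ] L).toRingHom.IsIntegralElem w)
    (h : x ^ 3 = aeval (algebraMap F L u) p * w) :
    ∃ q : ℂ[X], Algebra.trace F L x = aeval u (p * q) := by
  let : Algebra ℂ[X] F := (aeval u : ℂ[X] →ₐ[ℂ] F).toRingHom.toAlgebra
  let : Algebra ℂ[X] L := (aeval (algebraMap F L u) : ℂ[X] →ₐ[ℂ] L).toRingHom.toAlgebra
  have : IsScalarTower ℂ[X] F L := IsScalarTower.of_algebraMap_eq fun r => by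
    show aeval (algebraMap F L u) r = algebraMap F L (aeval u r)
    rw [Polynomial.aeval_algebraMap_apply]
  have : FaithfulSMul ℂ[X] F := by
    rw [faithfulSMul_iff_algebraMap_injective]
    exact transcendental_iff_injective.1 hu
  have : IsFractionRing ℂ[X] F := IsFractionRing.of_field _ _ hgen
  have : CharZero F := charZero_of_injective_algebraMap (algebraMap ℂ F).injective
  exact trace_dvd_squarefree (A := ℂ[X]) (F := F) (L := L) p hp x w hx hw h

/-- Integrality over `ℂ[t]` in terms of polynomials. -/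
theorem YAlg2_int {k : Type} [Field k] [Algebra ℂ k] (t g : k)
    (h : IsIntegral (Algebra.adjoin ℂ {t}) g) :
    (aeval t : ℂ[X] →ₐ[ℂ] k).toRingHom.IsIntegralElem g := by
  obtain ⟨p, hp, hpg⟩ := h
  let e : ℂ[X] →ₐ[ℂ] Algebra.adjoin ℂ {t} :=
    (aeval t : ℂ[X] →ₐ[ℂ] k).codRestrict _ fun x => by
      rw [Algebra.adjoin_singleton_eq_range_aeval]; exact ⟨x, rfl⟩
  have he : Function.Surjective e.toRingHom := by
    rintro ⟨y, hy⟩
    have hy' := hy
    rw [Algebra.adjoin_singleton_eq_range_aeval] at hy'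
    obtain ⟨x, hx⟩ := hy'
    exact ⟨x, Subtype.ext hx⟩
  obtain ⟨q, hq, -, hq2⟩ := Polynomial.lifts_and_degree_eq_and_monic
    (f := e.toRingHom) ((Polynomial.mem_lifts p).2 (Polynomial.map_surjective _ he p)) hp
  refine ⟨q, hq2, ?_⟩
  rw [← hq, Polynomial.eval₂_map] at hpg
  exact hpg

theorem YAlg2_descend {F k : Type} [Field F] [Field k] [Algebra ℂ k] [Algebra F k] [Algebra ℂ F]
    [IsScalarTower ℂ F k] (L : IntermediateField F k) (t : F) (g : L)
    (h : (aeval (algebraMap F k t) : ℂ[X] →ₐ[ℂ] k).toRingHom.IsIntegralElem (g : k)) :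
    (aeval (algebraMap F L t) : ℂ[X] →ₐ[ℂ] L).toRingHom.IsIntegralElem g := by
  obtain ⟨p, hp, hpg⟩ := h
  refine ⟨p, hp, ?_⟩
  apply (algebraMap L k).injective
  rw [map_zero, Polynomial.hom_eval₂, ← hpg]
  congr 1
  refine RingHom.ext fun r => ?_
  show algebraMap L k (aeval (algebraMap F L t) r) = aeval (algebraMap F k t) r
  have : IsScalarTower ℂ L k := IsScalarTower.of_algebraMap_eq fun r => rfl
  rw [IsScalarTower.algebraMap_apply F L k, Polynomial.aeval_algebraMap_apply k (algebraMap F L t) r]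

/-- The identity of polynomials. -/
theorem YAlg2_coeff {F : Type} [Field F] [Algebra ℂ F] (t : F) (ht : Transcendental ℂ t)
    (q0 q1 : ℂ[X]) (c : ℂ) (h : aeval t q0 - (t⁻¹) ^ 2 * aeval t⁻¹ q1 = algebraMap ℂ F c * t⁻¹) :
    c = 0 := by
  have ht0 : t ≠ 0 := by
    rintro rfl
    exact ht (isAlgebraic_zero)
  let : Invertible (t⁻¹) := ⟨t, mul_inv_cancel₀ ht0, inv_mul_cancel₀ ht0⟩
  let n := q1.natDegree
  have h1 : aeval t (reflect n q1) = t ^ n * aeval t⁻¹ q1 := by
    have := Polynomial.eval₂_reflect_mul_pow (algebraMap ℂ F) (t⁻¹) n q1 le_rfl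
    have h2 : (⅟(t⁻¹) : F) = t := rfl
    rw [h2] at this
    rw [aeval_def, aeval_def, ← this, mul_comm, mul_assoc, ← mul_pow, inv_mul_cancel₀ ht0, one_pow,
      mul_one]
  have h2 : aeval t (X ^ (n + 2) * q0 - reflect n q1 - C c * X ^ (n + 1)) = 0 := by
    rw [map_sub, map_sub, map_mul, map_pow, aeval_X, h1, map_mul, map_pow, aeval_X, aeval_C]
    have h3 : aeval t q0 = (t⁻¹) ^ 2 * aeval t⁻¹ q1 + algebraMap ℂ F c * t⁻¹ := by
      rw [← h]; ring
    rw [h3]
    field_simp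
    ring
  have h3 : X ^ (n + 2) * q0 - reflect n q1 - C c * X ^ (n + 1) = 0 :=
    (transcendental_iff.1 ht) _ h2
  have h4 := congrArg (fun p : ℂ[X] => p.coeff (n + 1)) h3
  simp only [coeff_sub, coeff_zero] at h4
  rw [Polynomial.coeff_X_pow_mul', if_neg (by omega), Polynomial.coeff_reflect,
    Polynomial.revAt_eq_self_of_lt (Nat.lt_succ_self n),
    Polynomial.coeff_eq_zero_of_natDegree_lt (Nat.lt_succ_self n), coeff_C_mul,
    coeff_X_pow_self] at h4
  simpa using h4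

/-- The argument in `L`. -/
theorem YAlg2_main {F L : Type} [Field F] [Algebra ℂ F] [Field L] [Algebra F L] [Algebra ℂ L]
    [IsScalarTower ℂ F L] [FiniteDimensional F L] (tF : F) (htFt : Transcendental ℂ tF)
    (hgen : ∀ z : F, ∃ a b : ℂ[X], z = aeval tF a / aeval tF b)
    (hgen' : ∀ z : F, ∃ a b : ℂ[X], z = aeval tF⁻¹ a / aeval tF⁻¹ b) (P Q : ℂ[X])
    (hP : Squarefree P) (hQ : Squarefree Q) (hPQF : aeval tF P = tF ^ 3 * aeval tF⁻¹ Q)
    (sL g0L g1L : L) (hsL : sL ^ 3 = aeval (algebraMap F L tF) P)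
    (hj0 : (aeval (algebraMap F L tF) : ℂ[X] →ₐ[ℂ] L).toRingHom.IsIntegralElem g0L)
    (hj1 : (aeval (algebraMap F L tF⁻¹) : ℂ[X] →ₐ[ℂ] L).toRingHom.IsIntegralElem g1L)
    (n : ℕ) (hn : 0 < n) (heqL : g0L - g1L = n * (sL ^ 2 / algebraMap F L tF)) : False := by
  have htF0 : tF ≠ 0 := by
    rintro rfl
    exact htFt isAlgebraic_zero
  have htFi : Transcendental ℂ tF⁻¹ := fun hc => htFt (by
    have := hc.inv
    rwa [inv_inv] at this)
  -- integral elements form a ring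
  have hmul : ∀ (u : F) (x y : L),
      (aeval (algebraMap F L u) : ℂ[X] →ₐ[ℂ] L).toRingHom.IsIntegralElem x →
      (aeval (algebraMap F L u) : ℂ[X] →ₐ[ℂ] L).toRingHom.IsIntegralElem y →
      (aeval (algebraMap F L u) : ℂ[X] →ₐ[ℂ] L).toRingHom.IsIntegralElem (x * y) :=
    fun u x y hx hy => RingHom.IsIntegralElem.mul _ hx hy
  have hcube : ∀ (u : F) (x : L) (p : ℂ[X]), x ^ 3 = aeval (algebraMap F L u) p →
      (aeval (algebraMap F L u) : ℂ[X] →ₐ[ℂ] L).toRingHom.IsIntegralElem x := by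
    intro u x p hx
    refine ⟨X ^ 3 - C p, monic_X_pow_sub_C _ (by norm_num), ?_⟩
    rw [eval₂_sub, eval₂_pow, eval₂_X, eval₂_C, hx]
    exact sub_self _
  have htL : algebraMap F L tF ≠ 0 := by
    rw [Ne, map_eq_zero]; exact htF0
  have hsL' : (sL * algebraMap F L tF⁻¹) ^ 3 = aeval (algebraMap F L tF⁻¹) Q := by
    rw [mul_pow, hsL, Polynomial.aeval_algebraMap_apply, hPQF, Polynomial.aeval_algebraMap_apply,
      map_mul, map_pow, map_inv₀]
    field_simp
  obtain ⟨q0, hq0⟩ := YAlg2_key (L := L) tF htFt hgen P hP (g0L * sL) (g0L ^ 3)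
    (hmul _ _ _ hj0 (hcube _ _ _ hsL)) (by
      rw [pow_succ, pow_two]; exact hmul _ _ _ (hmul _ _ _ hj0 hj0) hj0)
    (by rw [mul_pow, hsL, mul_comm])
  obtain ⟨q1, hq1⟩ := YAlg2_key (L := L) tF⁻¹ htFi hgen' Q hQ
    (g1L * (sL * algebraMap F L tF⁻¹)) (g1L ^ 3)
    (hmul _ _ _ hj1 (hcube _ _ _ hsL')) (by
      rw [pow_succ, pow_two]; exact hmul _ _ _ (hmul _ _ _ hj1 hj1) hj1)
    (by rw [mul_pow g1L, hsL', mul_comm])
  have hPF : aeval tF P ≠ 0 := by
    intro h
    exact hP.ne_zero ((transcendental_iff.1 htFt) _ h)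
  have htr1 : Algebra.trace F L (g1L * sL) = tF * aeval tF⁻¹ (Q * q1) := by
    rw [← hq1, ← smul_eq_mul (a := tF), ← map_smul, Algebra.smul_def]
    congr 1
    rw [map_inv₀]
    field_simp
  have htr2 : Algebra.trace F L (g0L * sL - g1L * sL) =
      Module.finrank F L * (n * (aeval tF P * tF⁻¹)) := by
    have h3 : g0L * sL - g1L * sL = algebraMap F L (n * (aeval tF P * tF⁻¹)) := by
      rw [← sub_mul, heqL, map_mul, map_mul, map_natCast, ← Polynomial.aeval_algebraMap_apply, ← hsL,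
        map_inv₀]
      field_simp
    rw [h3, Algebra.trace_algebraMap, nsmul_eq_mul]
  rw [map_sub, hq0, htr1, map_mul, map_mul, hPQF] at htr2
  have h5 := YAlg2_coeff tF htFt q0 q1 (Module.finrank F L * n : ℂ) (by
    have h6 : aeval tF⁻¹ Q ≠ 0 := by
      intro h; rw [hPQF, h, mul_zero] at hPF; exact hPF rfl
    rw [map_mul, map_natCast, map_natCast]
    apply mul_left_cancel₀ (mul_ne_zero (pow_ne_zero 3 htF0) h6)
    field_simp at htr2 ⊢
    linear_combination htr2)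
  rw [mul_eq_zero, Nat.cast_eq_zero, Nat.cast_eq_zero] at h5
  rcases h5 with h5 | h5
  · exact (Module.finrank_pos (R := F) (M := L)).ne' h5
  · exact hn.ne' h5

/-- **Algebra lemma for condition (Y)**. PROOF. Let `F = ℂ(t) ⊆ k`
(`IntermediateField.adjoin ℂ {t}`), `L = F(s, g0, g1) ⊆ k`, a finite extension of `F`,
`M = [L : F]`, `Tr = Algebra.trace F L`. `A = ℂ[t]` (`Algebra.adjoin ℂ {t}`, isomorphic to `ℂ[X]`
since `t` is transcendental) and `A' = ℂ[1/t]` are principal ideal domains with fraction field `F`.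
`(g0 s)³ = g0³ P(t)`, `s` and `g0` integral over `A`: `Tr (g0 s) = P(t) q0(t)`.
`(g1 s/t)³ = g1³ Q(1/t)`, `s/t` and `g1` integral over `A'`: `Tr (g1 s/t) = Q(1/t) q1(1/t)`, so
`Tr (g1 s) = t Q(1/t) q1(1/t) = P(t) t⁻² q1(1/t)`. If `g0 - g1 = n s²/t` then, multiplying by `s` and
taking traces, `P(t) q0(t) - P(t) t⁻² q1(1/t) = n M P(t)/t`, so `q0(t) - t⁻² q1(1/t) = n M t⁻¹`
(`P ≠ 0` as it is squarefree). The coefficient of `t⁻¹` on the left is `0` (multiply by a power of `t`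
to get an identity of polynomials in the transcendental element `t`), and `n M ≠ 0`:
contradiction. -/
theorem y_alg {k : Type} [Field k] [Algebra ℂ k] (t s : k) (ht : Transcendental ℂ t) (P Q : ℂ[X])
    (hP : Squarefree P) (hQ : Squarefree Q) (hPQ : aeval t P = t ^ 3 * aeval t⁻¹ Q)
    (hs : s ^ 3 = aeval t P) (g0 g1 : k) (h0 : IsIntegral (Algebra.adjoin ℂ {t}) g0)
    (h1 : IsIntegral (Algebra.adjoin ℂ {t⁻¹}) g1) (n : ℕ) (hn : 0 < n) :
    g0 - g1 ≠ n * (s ^ 2 / t) := by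
  intro heq
  have ht0 : t ≠ 0 := by
    rintro rfl
    exact ht (isAlgebraic_zero)
  let F : IntermediateField ℂ k := IntermediateField.adjoin ℂ {t}
  let tF : F := ⟨t, IntermediateField.mem_adjoin_simple_self ℂ t⟩
  have htF : algebraMap F k tF = t := rfl
  have htiF : algebraMap F k tF⁻¹ = t⁻¹ := by rw [map_inv₀, htF]
  have hai : ∀ p : ℂ[X], algebraMap F k (aeval tF p) = aeval t p := fun p => by
    rw [← htF, Polynomial.aeval_algebraMap_apply]
  have haii : ∀ p : ℂ[X], algebraMap F k (aeval tF⁻¹ p) = aeval t⁻¹ p := fun p => by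
    rw [← htiF, Polynomial.aeval_algebraMap_apply]
  have htFt : Transcendental ℂ tF := fun hc => ht (by
    rw [← htF]; exact hc.algebraMap)
  have htFi : Transcendental ℂ tF⁻¹ := fun hc => htFt (by
    have := hc.inv
    rwa [inv_inv] at this)
  have htF0 : tF ≠ 0 := fun h => ht0 (congrArg (fun z : F => (z : k)) h)
  -- algebraicity
  have hsF : IsIntegral F s := by
    refine ⟨X ^ 3 - C (aeval tF P), monic_X_pow_sub_C _ (by norm_num), ?_⟩
    rw [eval₂_sub, eval₂_pow, eval₂_X, eval₂_C, hai, hs, sub_self]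
  have hi0 := YAlg2_int t g0 h0
  have hi1 := YAlg2_int t⁻¹ g1 h1
  have hint : ∀ (u : F) (g : k),
      (aeval (algebraMap F k u) : ℂ[X] →ₐ[ℂ] k).toRingHom.IsIntegralElem g → IsIntegral F g := by
    rintro u g ⟨p, hp, hpg⟩
    refine ⟨p.map (aeval u : ℂ[X] →ₐ[ℂ] F).toRingHom, hp.map _, ?_⟩
    rw [Polynomial.eval₂_map, ← hpg]
    congr 1
    refine RingHom.ext fun r => ?_
    show algebraMap F k (aeval u r) = aeval (algebraMap F k u) r
    rw [Polynomial.aeval_algebraMap_apply]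
  have hg0F : IsIntegral F g0 := hint tF g0 hi0
  have hg1F : IsIntegral F g1 := hint tF⁻¹ g1 (by rw [htiF]; exact hi1)
  let L : IntermediateField F k := IntermediateField.adjoin F ({s, g0, g1} : Set k)
  have : FiniteDimensional F L := by
    apply IntermediateField.finiteDimensional_adjoin
    intro x hx
    simp only [Set.mem_insert_iff, Set.mem_singleton_iff] at hx
    rcases hx with rfl | rfl | rfl
    · exact hsF
    · exact hg0F
    · exact hg1F
  have hmem : ∀ x ∈ ({s, g0, g1} : Set k), x ∈ L := fun x hx =>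
    IntermediateField.subset_adjoin F _ hx
  let sL : L := ⟨s, hmem s (by simp)⟩
  let g0L : L := ⟨g0, hmem g0 (by simp)⟩
  let g1L : L := ⟨g1, hmem g1 (by simp)⟩
  have hj0 : (aeval (algebraMap F L tF) : ℂ[X] →ₐ[ℂ] L).toRingHom.IsIntegralElem g0L :=
    YAlg2_descend L tF g0L hi0
  have hj1 : (aeval (algebraMap F L tF⁻¹) : ℂ[X] →ₐ[ℂ] L).toRingHom.IsIntegralElem g1L :=
    YAlg2_descend L tF⁻¹ g1L (by rw [htiF]; exact hi1)
  have hgen : ∀ z : F, ∃ a b : ℂ[X], z = aeval tF a / aeval tF b := by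
    intro z
    obtain ⟨a, b, hab⟩ := (IntermediateField.mem_adjoin_simple_iff ℂ (z : k)).1 z.2
    refine ⟨a, b, (algebraMap F k).injective ?_⟩
    rw [map_div₀, hai, hai]
    exact hab
  have hgen' : ∀ z : F, ∃ a b : ℂ[X], z = aeval tF⁻¹ a / aeval tF⁻¹ b := by
    intro z
    have hz : (z : k) ∈ IntermediateField.adjoin ℂ {t⁻¹} := by
      have : IntermediateField.adjoin ℂ {t} ≤ IntermediateField.adjoin ℂ {t⁻¹} := by
        rw [IntermediateField.adjoin_simple_le_iff]
        have h1 := (IntermediateField.adjoin ℂ {t⁻¹}).inv_mem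
          (IntermediateField.mem_adjoin_simple_self ℂ t⁻¹)
        rwa [inv_inv] at h1
      exact this z.2
    obtain ⟨a, b, hab⟩ := (IntermediateField.mem_adjoin_simple_iff ℂ (z : k)).1 hz
    refine ⟨a, b, (algebraMap F k).injective ?_⟩
    rw [map_div₀, haii, haii]
    exact hab
  have haL : ∀ p : ℂ[X], (algebraMap L k) (aeval (algebraMap F L tF) p) = aeval t p := by
    intro p
    have : IsScalarTower ℂ L k := IsScalarTower.of_algebraMap_eq fun r => rfl
    rw [← Polynomial.aeval_algebraMap_apply, ← IsScalarTower.algebraMap_apply F L k]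
    rfl
  have hPQF : aeval tF P = tF ^ 3 * aeval tF⁻¹ Q := by
    apply (algebraMap F k).injective
    rw [map_mul, hai, haii, map_pow, htF, hPQ]
  refine YAlg2_main tF htFt hgen hgen' P Q hP hQ hPQF sL g0L g1L ?_ hj0 hj1 n hn ?_
  · apply (algebraMap L k).injective
    rw [map_pow, haL]
    exact hs
  · apply (algebraMap L k).injective
    rw [map_sub, map_mul, map_natCast, map_div₀, map_pow, ← IsScalarTower.algebraMap_apply F L k]
    exact heq

/-- The two cases that occur. PROOF. `y_alg` with `P = -X (X + 1)`, `Q = -X (X + 1)`. -/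
theorem y_alg_hor {k : Type} [Field k] [Algebra ℂ k] (t s : k) (ht : Transcendental ℂ t)
    (hs : s ^ 3 + t ^ 2 + t = 0) (g0 g1 : k) (h0 : IsIntegral (Algebra.adjoin ℂ {t}) g0)
    (h1 : IsIntegral (Algebra.adjoin ℂ {t⁻¹}) g1) (n : ℕ) (hn : 0 < n) :
    g0 - g1 ≠ n * (s ^ 2 / t) := by
  have ht0 : t ≠ 0 := by
    rintro rfl
    exact ht (isAlgebraic_zero)
  have hsq : Squarefree (-(X ^ 2 + X) : ℂ[X]) := by
    apply Polynomial.Separable.squarefree
    refine ⟨C 4, -(C 2 * X + 1), ?_⟩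
    simp only [derivative_neg, derivative_add, derivative_X_pow, derivative_X, Nat.cast_ofNat,
      map_ofNat]
    ring
  refine y_alg t s ht (-(X ^ 2 + X)) (-(X ^ 2 + X)) hsq hsq ?_ ?_ g0 g1 h0 h1 n hn
  · simp only [map_neg, map_add, map_pow, aeval_X]
    field_simp
    ring
  · simp only [map_neg, map_add, map_pow, aeval_X]
    linear_combination hs

/-- PROOF. Let `β = γ³`, `s' = γ s`; `y_alg` with `P = Q = -(1 + X³)` for `s'`: the equation
`g0 - g1 = n κ s²/t` gives `(γ²/κ) g0 - (γ²/κ) g1 = n s'²/t`. -/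
theorem y_alg_ver {k : Type} [Field k] [Algebra ℂ k] (t s : k) (ht : Transcendental ℂ t) (β κ : ℂ)
    (hβ : β ≠ 0) (hκ : κ ≠ 0) (hs : 1 + algebraMap ℂ k β * s ^ 3 + t ^ 3 = 0) (g0 g1 : k)
    (h0 : IsIntegral (Algebra.adjoin ℂ {t}) g0) (h1 : IsIntegral (Algebra.adjoin ℂ {t⁻¹}) g1)
    (n : ℕ) (hn : 0 < n) :
    g0 - g1 ≠ n * (algebraMap ℂ k κ * (s ^ 2 / t)) := by
  intro heq
  have ht0 : t ≠ 0 := by
    rintro rfl
    exact ht (isAlgebraic_zero)
  obtain ⟨γ, hγ⟩ := IsAlgClosed.exists_pow_nat_eq β (n := 3) (by norm_num)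
  have hsq : Squarefree (-(X ^ 3 + 1) : ℂ[X]) := by
    apply Polynomial.Separable.squarefree
    refine ⟨-1, C (1 / 3) * X, ?_⟩
    have h3 : (C (1 / 3 : ℂ) : ℂ[X]) * 3 = 1 := by
      rw [← map_ofNat (C : ℂ →+* ℂ[X]) 3, ← C_mul]
      norm_num
    simp only [derivative_neg, derivative_add, derivative_X_pow, derivative_one, Nat.cast_ofNat,
      map_ofNat]
    linear_combination (-X ^ 3 : ℂ[X]) * h3
  have hcst : ∀ (u : k) (z : ℂ), IsIntegral (Algebra.adjoin ℂ {u}) (algebraMap ℂ k z) := by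
    intro u z
    exact isIntegral_algebraMap (x := (algebraMap ℂ (Algebra.adjoin ℂ {u}) z))
  refine y_alg t (algebraMap ℂ k γ * s) ht (-(X ^ 3 + 1)) (-(X ^ 3 + 1)) hsq hsq ?_ ?_
    (algebraMap ℂ k (γ ^ 2 / κ) * g0) (algebraMap ℂ k (γ ^ 2 / κ) * g1)
    ((hcst _ _).mul h0) ((hcst _ _).mul h1) n hn ?_
  · simp only [map_neg, map_add, map_pow, aeval_X, map_one]
    field_simp
    ring
  · simp only [map_neg, map_add, map_pow, aeval_X, map_one]
    rw [mul_pow, ← map_pow, hγ]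
    linear_combination hs
  · have hκ' : algebraMap ℂ k κ ≠ 0 := by
      rw [Ne, map_eq_zero]; exact hκ
    rw [← mul_sub, heq, map_div₀, map_pow]
    field_simp

end

end M21X
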