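import Pool.Agent.H.MP_21b43d_ag.X.VX
import Pool.Agent.H.MP_21b43d_ag.X.YAlg2

/-!
# M6 / X-part: horizontal points
-/

set_option autoImplicit false

open CategoryTheory AlgebraicGeometry TopologicalSpace MvPolynomial

namespace M21X

open M21 M21.Z

noncomputable section

/-- the linear form `a T₀ + b T₁` -/
def Lx (a b : ℂ) : MvPolynomial (Fin 9) ℂ := C a * X 0 + C b * X 1

/-- the linear form `a T₃ + b T₄` -/
def Lz (a b : ℂ) : MvPolynomial (Fin 9) ℂ := C a * X 3 + C b * X 4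

theorem C_mul_mem (a : ℂ) {f : MvPolynomial (Fin 9) ℂ} (hf : f ∈ gr 8 1) : C a * f ∈ gr 8 1 := by
  rw [C_mul']
  exact Submodule.smul_mem _ a hf

theorem Lx_mem (a b : ℂ) : Lx a b ∈ gr 8 1 :=
  add_mem (C_mul_mem a (X_mem 8 0)) (C_mul_mem b (X_mem 8 1))

theorem Lz_mem (a b : ℂ) : Lz a b ∈ gr 8 1 :=
  add_mem (C_mul_mem a (X_mem 8 3)) (C_mul_mem b (X_mem 8 4))

variable {K : Type} [Field K] [Algebra ℂ K] {q : Quad K}

theorem aeval_Lx (a b : ℂ) : aeval q.vec (Lx a b) = algebraMap ℂ K a + algebraMap ℂ K b * q.B := by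
  simp [Lx, Quad.vec]

theorem aeval_Lz (a b : ℂ) : aeval q.vec (Lz a b) =
    (algebraMap ℂ K a + algebraMap ℂ K b * q.B) * q.Z := by
  simp [Lz, Quad.vec]
  ring

/-- An algebraic element over the complex numbers is a constant. -/
theorem exists_const_alg {k : Type} [Field k] [Algebra ℂ k] {b : k} (hb : IsAlgebraic ℂ b) :
    ∃ c : ℂ, algebraMap ℂ k c = b := by
  have h1 := IsAlgClosed.degree_eq_one_of_irreducible ℂ (minpoly.irreducible hb.isIntegral)
  exact minpoly.mem_range_of_degree_eq_one ℂ b h1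

namespace Quad

/-- the open set where a form does not vanish -/
abbrev O (q : Quad K) (f : MvPolynomial (Fin 9) ℂ) : q.XX.Opens := UU (N := 8) q.vec q.vec0_ne f

/-- the prime ideal of a point -/
def PI (q : Quad K) (y : q.XX) : Ideal (MvPolynomial (Fin 9) ℂ) :=
  (XX.emb (N := 8) q.vec q.vec0_ne y).asHomogeneousIdeal.toIdeal

instance (y : q.XX) : (q.PI y).IsPrime := (XX.emb (N := 8) q.vec q.vec0_ne y).isPrime

theorem mem_O (y : q.XX) (f : MvPolynomial (Fin 9) ℂ) : y ∈ q.O f ↔ f ∉ q.PI y := Iff.rfl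

theorem notMem_O (y : q.XX) (f : MvPolynomial (Fin 9) ℂ) : y ∉ q.O f ↔ f ∈ q.PI y := by
  rw [mem_O, not_not]

theorem PI_le {z y : q.XX} (hzy : z ⤳ y) {f : MvPolynomial (Fin 9) ℂ} (hf : f ∈ q.PI z) :
    f ∈ q.PI y := by
  rw [← notMem_O] at hf ⊢
  exact fun h => hf (hzy.mem_open (q.O f).2 h)

theorem Good.cover4 (h : q.Good) (y : q.XX) :
    ¬ (X 0 ∈ q.PI y ∧ X 1 ∈ q.PI y ∧ X 3 ∈ q.PI y ∧ X 4 ∈ q.PI y) := by
  rintro ⟨m0, m1, m3, m4⟩
  obtain ⟨s, hs⟩ := h.ch_cover y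
  rw [h.ch_opensRange] at hs
  apply hs
  change pol s ∈ q.PI y
  rcases s with ⟨i, j⟩
  cases j <;> fin_cases i
  · exact Ideal.mul_mem_left _ _ m1
  · exact Ideal.mul_mem_left _ _ (add_mem m0 m1)
  · exact Ideal.mul_mem_left _ _ (add_mem m0 m1)
  · exact Ideal.mul_mem_left _ _ m4
  · exact Ideal.mul_mem_left _ _ (add_mem m3 m4)
  · exact Ideal.mul_mem_left _ _ (add_mem m3 m4)

/-- values -/
abbrev V (q : Quad K) (z : q.XX) (x : K) (a : q.XX.residueField z) : Prop := Val q.pt z x a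

/-- values of fractions of linear forms -/
theorem val2 {f g : MvPolynomial (Fin 9) ℂ} (hf : f ∈ gr 8 1) (hg : g ∈ gr 8 1)
    {z : q.XX} (hz : z ∈ q.O f) {x : K} (hx : x * aeval q.vec f = aeval q.vec g) :
    ∃ a, q.V z x a ∧ (a = 0 ↔ g ∈ q.PI z) := by
  have hf0 := aeval_ne_of_mem (N := 8) q.vec q.vec0_ne hf one_pos hz
  obtain ⟨a, ha, ha'⟩ := val_lin (N := 8) q.vec q.vec0_ne hf hg hz
  refine ⟨a, ?_, ha'.trans (notMem_O z g)⟩
  have : x = aeval q.vec g / aeval q.vec f := by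
    rw [← hx, mul_div_cancel_right₀ _ hf0]
  rw [this]
  exact ha

theorem V.unique {z : q.XX} {x : K} {a a' : q.XX.residueField z} (h : q.V z x a)
    (h' : q.V z x a') : a = a' := Val.unique h h'

/-- The value of a fraction of linear forms is zero where the numerator vanishes. -/
theorem val_zero {f g : MvPolynomial (Fin 9) ℂ} (hf : f ∈ gr 8 1) (hg : g ∈ gr 8 1)
    {z : q.XX} (hz : z ∈ q.O f) (hgz : g ∈ q.PI z) {x : K}
    (hx : x * aeval q.vec f = aeval q.vec g) : q.V z x 0 := by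
  obtain ⟨a, ha, ha'⟩ := val2 hf hg hz hx
  rwa [ha'.2 hgz] at ha

/-- the algebra structure on residue fields -/
instance instAlg (z : q.XX) : Algebra ℂ (q.XX.residueField z) := (ptHom q.str z).toAlgebra

theorem val_const (z : q.XX) (c : ℂ) : q.V z (algebraMap ℂ K c) (algebraMap ℂ _ c) :=
  Val.const (ξ := q.pt) q.str (pt_str (N := 8) q.vec q.vec0_ne) z c

/-- a vertical point -/
def Vert (z : q.XX) : Prop :=
  ∃ a b : ℂ, (a ≠ 0 ∨ b ≠ 0) ∧ Lx a b ∈ q.PI z ∧ Lz a b ∈ q.PI z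

/-- **A point which is not vertical**: the value of `B` is transcendental. -/
theorem Good.hor (h : q.Good) {z : q.XX} (hz : ¬ Vert z) :
    ∃ b, q.V z q.B b ∧ Transcendental ℂ b := by
  have hZ := h.Z_ne
  have hB : ∃ b, q.V z q.B b := by
    by_cases h0 : X 0 ∈ q.PI z
    · by_cases h3 : X 3 ∈ q.PI z
      · exfalso
        refine hz ⟨1, 0, Or.inl one_ne_zero, ?_, ?_⟩
        · simpa [Lx] using h0
        · simpa [Lz] using h3
      · obtain ⟨b, hb, -⟩ := val2 (x := q.B) (X_mem 8 3) (X_mem 8 4) ((mem_O z _).2 h3) (by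
          simp [vec])
        exact ⟨b, hb⟩
    · obtain ⟨b, hb, -⟩ := val2 (x := q.B) (X_mem 8 0) (X_mem 8 1) ((mem_O z _).2 h0) (by
          simp [vec])
      exact ⟨b, hb⟩
  obtain ⟨b, hb⟩ := hB
  refine ⟨b, hb, fun hal => hz ?_⟩
  obtain ⟨c, rfl⟩ := exists_const_alg hal
  have h1 : q.V z (q.B - algebraMap ℂ K c) 0 := by
    have h2 := hb.sub (val_const z c)
    rwa [sub_self] at h2
  have h2 : ∀ x : K, x * (q.B - algebraMap ℂ K c) = 1 → ∀ a, ¬ q.V z x a := by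
    intro x hx a ha
    have h3 := ha.mul h1
    rw [hx, mul_zero] at h3
    exact zero_ne_one (h3.unique Val.one)
  have hne : q.B - algebraMap ℂ K c ≠ 0 := by
    intro h0
    exact ne_of_tr h.trB c (sub_eq_zero.mp h0)
  refine ⟨-c, 1, Or.inr one_ne_zero, ?_, ?_⟩
  · by_contra hcon
    obtain ⟨a, ha, -⟩ := val2 (x := (q.B - algebraMap ℂ K c)⁻¹) (Lx_mem (-c) 1) (X_mem 8 0)
      ((mem_O z _).2 hcon) (by
        rw [aeval_Lx, map_neg, map_one, one_mul, neg_add_eq_sub, inv_mul_cancel₀ hne]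
        simp [vec])
    exact h2 _ (inv_mul_cancel₀ hne) a ha
  · by_contra hcon
    obtain ⟨a, ha, -⟩ := val2 (x := (q.B - algebraMap ℂ K c)⁻¹) (Lz_mem (-c) 1) (X_mem 8 3)
      ((mem_O z _).2 hcon) (by
        rw [aeval_Lz, map_neg, map_one, one_mul, neg_add_eq_sub, inv_mul_cancel_left₀ hne]
        simp [vec])
    exact h2 _ (inv_mul_cancel₀ hne) a ha

/-- **A cocycle which does not die at a point which is not vertical.** -/
theorem Good.exists_hor (h : q.Good) {z : q.XX} (hz : ¬ Vert z) :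
    ∃ c : Cocycle (fun b : Bool => bif b then q.O (X 1) ⊔ q.O (X 4) else q.O (X 0) ⊔ q.O (X 3)),
      ¬ Dies c z := by
  have hB := h.B_ne
  have hZ := h.Z_ne
  obtain ⟨b, hb, hbt⟩ := h.hor hz
  have hb0 : b ≠ 0 := by
    rintro rfl
    exact hbt isAlgebraic_zero
  have m0 : z ∈ q.O (X 0) ⊔ q.O (X 3) := by
    by_contra hcon
    refine hz ⟨1, 0, Or.inl one_ne_zero, ?_, ?_⟩
    · have : z ∉ q.O (X 0) := fun h' => hcon (Or.inl h')
      simpa [Lx] using (notMem_O z _).1 this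
    · have : z ∉ q.O (X 3) := fun h' => hcon (Or.inr h')
      simpa [Lz] using (notMem_O z _).1 this
  have m1 : z ∈ q.O (X 1) ⊔ q.O (X 4) := by
    by_contra hcon
    refine hz ⟨0, 1, Or.inr one_ne_zero, ?_, ?_⟩
    · have : z ∉ q.O (X 1) := fun h' => hcon (Or.inl h')
      simpa [Lx] using (notMem_O z _).1 this
    · have : z ∉ q.O (X 4) := fun h' => hcon (Or.inr h')
      simpa [Lz] using (notMem_O z _).1 this
  -- `D` is regular on the first open set
  have hD : ∀ y ∈ q.O (X 0) ⊔ q.O (X 3), ∃ d, q.V y q.D d := by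
    rintro y (hy | hy)
    · obtain ⟨d, hd, -⟩ := val2 (x := q.D) (X_mem 8 0) (X_mem 8 2) hy (by simp [vec])
      exact ⟨d, hd⟩
    · obtain ⟨d, hd, -⟩ := val2 (x := q.D) (X_mem 8 3) (X_mem 8 5) hy (by simp [vec])
      exact ⟨d, hd⟩
  -- `D / B` is regular on the second open set
  have hD' : ∀ y ∈ q.O (X 1) ⊔ q.O (X 4), ∃ d, q.V y (q.D / q.B) d := by
    rintro y (hy | hy)
    · obtain ⟨d, hd, -⟩ := val2 (x := q.D / q.B) (X_mem 8 1) (X_mem 8 2) hy (by
        simp [vec]; field_simp)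
      exact ⟨d, hd⟩
    · obtain ⟨d, hd, -⟩ := val2 (x := q.D / q.B) (X_mem 8 4) (X_mem 8 5) hy (by
        simp [vec]; field_simp)
      exact ⟨d, hd⟩
  have hcov : ∀ y : q.XX, y ∈ q.O (X 0) ⊔ q.O (X 3) ∨ y ∈ q.O (X 1) ⊔ q.O (X 4) := by
    intro y
    by_contra hcon
    push Not at hcon
    apply h.cover4 y
    refine ⟨?_, ?_, ?_, ?_⟩
    · exact (notMem_O y _).1 fun h' => hcon.1 (Or.inl h')
    · exact (notMem_O y _).1 fun h' => hcon.2 (Or.inl h')
    · exact (notMem_O y _).1 fun h' => hcon.1 (Or.inr h')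
    · exact (notMem_O y _).1 fun h' => hcon.2 (Or.inr h')
  obtain ⟨d, hd⟩ := hD z m0
  have hrel : d ^ 3 + b ^ 2 + b = 0 := by
    have h1 := ((hd.pow 3).add (hb.pow 2)).add hb
    rw [h.hD] at h1
    exact h1.unique Val.zero
  refine exists_not_dies (ξ := q.pt) q.str z _ _ m0 m1 q.B (q.D ^ 2 / q.B) b (d ^ 2 / b) hb hb0
    ?_ ?_ ?_ ?_ ?_
  · intro y _ hy
    have n0 : X 0 ∈ q.PI y := (notMem_O y _).1 fun h' => hy (Or.inl h')
    have n3 : X 3 ∈ q.PI y := (notMem_O y _).1 fun h' => hy (Or.inr h')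
    rcases (hcov y).resolve_left hy with h' | h'
    · exact val_zero (X_mem 8 1) (X_mem 8 0) h' n0 (by simp [vec]; field_simp)
    · exact val_zero (X_mem 8 4) (X_mem 8 3) h' n3 (by simp [vec]; field_simp)
  · intro y _ hy
    have n0 : X 1 ∈ q.PI y := (notMem_O y _).1 fun h' => hy (Or.inl h')
    have n3 : X 4 ∈ q.PI y := (notMem_O y _).1 fun h' => hy (Or.inr h')
    rcases (hcov y).resolve_right hy with h' | h'
    · exact val_zero (X_mem 8 0) (X_mem 8 1) h' n0 (by simp [vec])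
    · exact val_zero (X_mem 8 3) (X_mem 8 4) h' n3 (by simp [vec])
  · rintro y ⟨hy, hy'⟩
    obtain ⟨d1, hd1⟩ := hD y hy
    obtain ⟨d2, hd2⟩ := hD' y hy'
    have h1 := hd1.mul hd2
    have h2 : q.D * (q.D / q.B) = q.D ^ 2 / q.B := by ring
    rw [h2] at h1
    exact ⟨_, h1⟩
  · have h1 := (hd.pow 2).mul (hb.inv hb0)
    rw [← div_eq_mul_inv, ← div_eq_mul_inv] at h1
    exact h1
  · intro g0 g1 h0 h1 n hn
    exact y_alg_hor b d hbt hrel g0 g1 h0 h1 n hn

end Quad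

end

end M21X
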