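import Pool.Agent.H.MP_21b43d_ag.X.Kum

/-!
# M6 / X-part: linear independence of `Dⁱ Yʲ` over `ℂ(B, Z)`, `B` is not a cube
-/

set_option autoImplicit false

namespace M21X

noncomputable section

namespace Quad

variable {K : Type} [Field K] [Algebra ℂ K] {q : Quad K}

theorem B_mem (q : Quad K) : q.B ∈ q.FF := IntermediateField.subset_adjoin ℂ _ ⟨0, rfl⟩

theorem Z_mem (q : Quad K) : q.Z ∈ q.FF := IntermediateField.subset_adjoin ℂ _ ⟨1, rfl⟩

/-- the field `ℂ(B, Z, D, Y)` -/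
abbrev LL (q : Quad K) : IntermediateField q.FF K := IntermediateField.adjoin q.FF {q.D, q.Y}

theorem D_mem (q : Quad K) : q.D ∈ q.LL := IntermediateField.subset_adjoin q.FF _ (by simp)

theorem Y_mem (q : Quad K) : q.Y ∈ q.LL := IntermediateField.subset_adjoin q.FF _ (by simp)

theorem Good.D3_mem (h : q.Good) : q.D ^ 3 ∈ q.FF := by
  rw [h.D3]
  exact neg_mem (mul_mem q.B_mem (add_mem (one_mem _) q.B_mem))

theorem Good.Y3_mem (h : q.Good) : q.Y ^ 3 ∈ q.FF := by
  rw [h.Y3]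
  exact div_mem (neg_mem (add_mem (one_mem _) (pow_mem q.Z_mem 3))) q.B_mem

theorem isIntegral_of_cube {F : IntermediateField ℂ K} {x : K} (hx : x ^ 3 ∈ F) :
    IsIntegral F x := by
  have h : IsIntegral F (x ^ 3) := isIntegral_algebraMap (x := (⟨x ^ 3, hx⟩ : F))
  exact h.of_pow (by norm_num)

theorem Good.finite (h : q.Good) : FiniteDimensional q.FF q.LL := by
  apply IntermediateField.finiteDimensional_adjoin
  intro x hx
  rcases hx with rfl | rfl
  · exact isIntegral_of_cube h.D3_mem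
  · exact isIntegral_of_cube h.Y3_mem

/-- the elements `D`, `Y` of `LL` -/
def Dl (q : Quad K) : q.LL := ⟨q.D, q.D_mem⟩
def Yl (q : Quad K) : q.LL := ⟨q.Y, q.Y_mem⟩

/-- **Vanishing of traces.** -/
theorem Good.trace_zero (h : q.Good) [FiniteDimensional q.FF q.LL] (x : q.LL) (κ : ℂ) (hκ : κ ≠ 0)
    (l m n : ℕ) (hx : (x : K) ^ 3 = algebraMap ℂ K κ * q.B ^ l)
    (hne : ¬ ((3 : ℤ) ∣ m ∧ (3 : ℤ) ∣ n ∧ (3 : ℤ) ∣ (l : ℤ) + m - n)) :
    Algebra.trace q.FF q.LL (x * (q.Dl ^ m * q.Yl ^ n)) = 0 := by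
  have hc : algebraMap ℂ K κ * q.B ^ l * (q.D ^ 3) ^ m * (q.Y ^ 3) ^ n ∈ q.FF :=
    mul_mem (mul_mem (mul_mem (q.FF.algebraMap_mem κ) (pow_mem q.B_mem l))
      (pow_mem h.D3_mem m)) (pow_mem h.Y3_mem n)
  refine trace_cube_zero _ (⟨_, hc⟩ : q.FF) ?_ ?_
  · apply Subtype.ext
    change ((x : K) * (q.D ^ m * q.Y ^ n)) ^ 3 = _
    rw [mul_pow, hx]
    change _ = algebraMap ℂ K κ * q.B ^ l * (q.D ^ 3) ^ m * (q.Y ^ 3) ^ n
    ring
  · rintro ⟨r, hr⟩ hrc
    exact hne (h.cube_exponents κ hκ l m n r hr (congrArg Subtype.val hrc))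

theorem Good.trace_zero_one (h : q.Good) [FiniteDimensional q.FF q.LL] (m n : ℕ)
    (hne : ¬ (3 ∣ m ∧ 3 ∣ n)) :
    Algebra.trace q.FF q.LL (q.Dl ^ m * q.Yl ^ n) = 0 := by
  have h1 := h.trace_zero (1 : q.LL) 1 one_ne_zero 0 m n (by simp) (by
    rintro ⟨h1, h2, -⟩
    exact hne ⟨by exact_mod_cast h1, by exact_mod_cast h2⟩)
  rwa [one_mul] at h1

/-- **Linear independence** of the `Dⁱ Yʲ`, `i, j < 3`, over `ℂ(B, Z)`. -/
theorem Good.indep (h : q.Good) (c : Fin 3 → Fin 3 → q.FF)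
    (hc : ∑ i, ∑ j, (c i j : K) * (q.D ^ (i : ℕ) * q.Y ^ (j : ℕ)) = 0) (a b : Fin 3) :
    c a b = 0 := by
  have := h.finite
  have h1 : ∑ i, ∑ j, (c i j) • (q.Dl ^ ((i : ℕ) + (3 - a)) * q.Yl ^ ((j : ℕ) + (3 - b))) = 0 := by
    apply Subtype.ext
    have h2 : (∑ i, ∑ j, (c i j : K) * (q.D ^ (i : ℕ) * q.Y ^ (j : ℕ))) *
      (q.D ^ (3 - (a : ℕ)) * q.Y ^ (3 - (b : ℕ))) = 0 := by rw [hc, zero_mul]
    refine Eq.trans ?_ h2
    rw [Finset.sum_mul]
    simp only [AddSubmonoidClass.coe_finsetSum, Finset.sum_mul]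
    refine Finset.sum_congr rfl fun i _ => Finset.sum_congr rfl fun j _ => ?_
    change (c i j : K) * (q.D ^ ((i : ℕ) + (3 - a)) * q.Y ^ ((j : ℕ) + (3 - b))) = _
    rw [pow_add, pow_add]
    ring
  have h2 := congrArg (Algebra.trace q.FF q.LL) h1
  simp only [map_sum, map_smul, map_zero] at h2
  rw [Finset.sum_eq_single a, Finset.sum_eq_single b] at h2
  · have e1 : (a : ℕ) + (3 - a) = 3 := by omega
    have e2 : (b : ℕ) + (3 - b) = 3 := by omega
    rw [e1, e2] at h2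
    have hmem : q.D ^ 3 * q.Y ^ 3 ∈ q.FF := mul_mem h.D3_mem h.Y3_mem
    have e3 : (q.Dl ^ 3 * q.Yl ^ 3 : q.LL) = algebraMap q.FF q.LL ⟨_, hmem⟩ := rfl
    have hfree : Module.Free q.FF q.LL := Module.Free.of_divisionRing _ _
    rw [e3, Algebra.trace_algebraMap, smul_eq_mul] at h2
    rcases mul_eq_zero.mp h2 with h3 | h3
    · exact h3
    · exfalso
      have h4 : ((Module.finrank q.FF q.LL : ℕ) : K) * (q.D ^ 3 * q.Y ^ 3) = 0 := by
        have := congrArg (Subtype.val) h3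
        rw [nsmul_eq_mul] at this
        exact this
      have h5 : (Module.finrank q.FF q.LL : ℕ) ≠ 0 := Module.finrank_pos.ne'
      have : CharZero K := charZero_of_injective_algebraMap (algebraMap ℂ K).injective
      have hD := h.D_ne
      have hY := h.Y_ne
      have h6 : ((Module.finrank q.FF q.LL : ℕ) : K) ≠ 0 := by exact_mod_cast h5
      exact mul_ne_zero h6 (mul_ne_zero (pow_ne_zero 3 hD) (pow_ne_zero 3 hY)) h4
  · intro j _ hj
    rw [h.trace_zero_one _ _ ?_, smul_zero]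
    have := Fin.val_ne_of_ne hj
    omega
  · intro h3
    exact absurd (Finset.mem_univ _) h3
  · intro i _ hi
    refine Finset.sum_eq_zero fun j _ => ?_
    rw [h.trace_zero_one _ _ ?_, smul_zero]
    have := Fin.val_ne_of_ne hi
    omega
  · intro h3
    exact absurd (Finset.mem_univ _) h3

theorem AC_le_LL (q : Quad K) (x : K) (hx : x ∈ q.AC) : x ∈ q.LL := by
  have h1 : ∀ y ∈ q.FF, y ∈ q.LL := fun y hy => q.LL.algebraMap_mem ⟨y, hy⟩
  induction hx using Algebra.adjoin_induction with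
  | mem y hy =>
    rcases hy with rfl | rfl | rfl | rfl | rfl
    · exact h1 _ q.B_mem
    · exact h1 _ (inv_mem q.B_mem)
    · exact q.D_mem
    · exact q.Y_mem
    · exact h1 _ q.Z_mem
  | algebraMap c => exact h1 _ (q.FF.algebraMap_mem c)
  | add a b _ _ ha hb => exact add_mem ha hb
  | mul a b _ _ ha hb => exact mul_mem ha hb

/-- `LL` is spanned by the `Dᵐ Yⁿ`. -/
theorem Good.span_LL (h : q.Good) (x : q.LL) :
    x ∈ Submodule.span q.FF (Set.range fun p : ℕ × ℕ => q.Dl ^ p.1 * q.Yl ^ p.2) := by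
  have h1 : q.LL.toSubalgebra = Algebra.adjoin q.FF {q.D, q.Y} := by
    apply IntermediateField.adjoin_toSubalgebra_of_isAlgebraic
    intro x hx
    rcases hx with rfl | rfl
    · exact (isIntegral_of_cube h.D3_mem).isAlgebraic
    · exact (isIntegral_of_cube h.Y3_mem).isAlgebraic
  have h2 : (x : K) ∈ Algebra.adjoin q.FF {q.D, q.Y} := by
    rw [← h1]
    exact x.2
  rw [← Subalgebra.mem_toSubmodule, Algebra.adjoin_eq_span] at h2
  have h3 : (Submodule.span q.FF ((Submonoid.closure {q.D, q.Y} : Submonoid K) : Set K)) =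
      (Submodule.span q.FF (Set.range fun p : ℕ × ℕ => q.Dl ^ p.1 * q.Yl ^ p.2)).map
        (IsScalarTower.toAlgHom q.FF q.LL K).toLinearMap := by
    rw [Submodule.map_span]
    congr 1
    ext y
    constructor
    · intro hy
      obtain ⟨m, n, hmn⟩ := (Submonoid.mem_closure_pair _ _ _).mp hy
      exact ⟨_, ⟨(m, n), rfl⟩, hmn⟩
    · rintro ⟨_, ⟨⟨m, n⟩, rfl⟩, rfl⟩
      exact (Submonoid.mem_closure_pair _ _ _).mpr ⟨m, n, rfl⟩
  rw [h3] at h2
  obtain ⟨y, hy, hyx⟩ := h2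
  have : y = x := Subtype.ext hyx
  rwa [← this]

/-- **`B` is not a cube**, up to constants, in the chart ring. -/
theorem Good.not_cube (h : q.Good) (x : K) (hx : x ∈ q.AC) (κ : ℂ)
    (hc : x ^ 3 = algebraMap ℂ K κ * q.B) : κ = 0 := by
  by_contra hκ
  have hfin := h.finite
  have hchar : CharZero q.FF := charZero_of_injective_algebraMap (algebraMap ℂ q.FF).injective
  let xl : q.LL := ⟨x, q.AC_le_LL x hx⟩
  have h1 : ∀ y : q.LL, Algebra.trace q.FF q.LL (xl * y) = 0 := by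
    intro y
    have hy := h.span_LL y
    induction hy using Submodule.span_induction with
    | mem z hz =>
      obtain ⟨⟨m, n⟩, rfl⟩ := hz
      refine h.trace_zero xl κ hκ 1 m n (by rw [pow_one]; exact hc) ?_
      rintro ⟨h1, h2, h3⟩
      omega
    | zero => rw [mul_zero, map_zero]
    | add a b _ _ ha hb => rw [mul_add, map_add, ha, hb, add_zero]
    | smul c a _ ha => rw [mul_smul_comm, map_smul, ha, smul_zero]
  have h2 : xl = 0 := by
    have hnd := traceForm_nondegenerate q.FF q.LL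
    exact hnd.1 xl fun y => h1 y
  have h3 : x = 0 := congrArg Subtype.val h2
  rw [h3] at hc
  have h4 : algebraMap ℂ K κ * q.B = 0 := by rw [← hc]; ring
  rcases mul_eq_zero.mp h4 with h5 | h5
  · exact hκ (by simpa using h5)
  · exact h.B_ne h5

end Quad

end

end M21X
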