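import Pool.Agent.H.MP_21b43d_ag.X.Chart

/-!
# M6 / X-part, file 3: structure morphism, properness, projectivity
-/

set_option autoImplicit false

open CategoryTheory AlgebraicGeometry TopologicalSpace MvPolynomial

namespace M21X

noncomputable section

/-- the structure morphism of projective space -/
def PP.str (N : ℕ) : PP N ⟶ Spec (.of ℂ) :=
  Proj.toSpecZero (gr N) ≫ Spec.map (CommRingCat.ofHom (algebraMap ℂ (gr N 0)))

theorem algebraMap_gr_zero_bijective (N : ℕ) :
    Function.Bijective (algebraMap ℂ (gr N 0)) := by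
  constructor
  · intro a b h
    exact C_injective (Fin (N + 1)) ℂ (congrArg Subtype.val h)
  · rintro ⟨x, hx⟩
    have h : x.totalDegree = 0 := Nat.le_zero.mp
      (((mem_homogeneousSubmodule 0 x).mp hx).totalDegree_le)
    refine ⟨coeff 0 x, Subtype.ext ?_⟩
    exact (totalDegree_eq_zero_iff_eq_C.mp h).symm

instance (N : ℕ) : IsIso (Spec.map (CommRingCat.ofHom (algebraMap ℂ (gr N 0)))) := by
  have : IsIso (CommRingCat.ofHom (algebraMap ℂ (gr N 0))) :=
    (ConcreteCategory.isIso_iff_bijective _).mpr (algebraMap_gr_zero_bijective N)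
  infer_instance

instance (N : ℕ) : Algebra.FiniteType (gr N 0) (MvPolynomial (Fin (N + 1)) ℂ) := by
  have : IsScalarTower ℂ (gr N 0) (MvPolynomial (Fin (N + 1)) ℂ) :=
    ⟨fun a b c => by
      change ((a • b : gr N 0) : MvPolynomial (Fin (N + 1)) ℂ) * c = a • ((b : MvPolynomial (Fin (N + 1)) ℂ) * c)
      rw [← smul_mul_assoc]
      rfl⟩
  exact Algebra.FiniteType.of_restrictScalars_finiteType ℂ _ _

instance (N : ℕ) : IsProper (PP.str N) := by
  unfold PP.str
  infer_instance

/-- A scheme over `ℂ` is projective if it has a closed immersion over `ℂ` into a projective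
space. -/
def IsProj {X : Scheme.{0}} (s : X ⟶ Spec (.of ℂ)) : Prop :=
  ∃ (N : ℕ) (i : X ⟶ PP N), IsClosedImmersion i ∧ i ≫ PP.str N = s

variable {N : ℕ} {K : Type} [Field K] [Algebra ℂ K] (v : Fin (N + 1) → K) (hv : v 0 ≠ 0)

/-- the structure morphism of `X` -/
def XX.str : XX v hv ⟶ Spec (.of ℂ) := XX.emb v hv ≫ PP.str N

theorem XX.isProj : IsProj (XX.str v hv) := ⟨N, XX.emb v hv, inferInstance, rfl⟩

instance : IsProper (XX.str v hv) := by
  unfold XX.str
  infer_instance

/-- `RR v f` contains the constants. -/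
theorem algebraMap_mem_RR (f : MvPolynomial (Fin (N + 1)) ℂ) (hf : aeval v f ≠ 0) {d : ℕ}
    (hd : f ∈ gr N d) (c : ℂ) : algebraMap ℂ K c ∈ RR v f hf := by
  rw [mem_RR_iff v f hf hd]
  exact ⟨0, C c, by simp, by simp⟩

theorem xiP_str : xiP v hv ≫ PP.str N = Spec.map (CommRingCat.ofHom (algebraMap ℂ K)) := by
  rw [xiP, xiA, PP.str, Category.assoc, ← Category.assoc (Proj.awayι _ _ _ _),
    Proj.awayι_toSpecZero, ← Spec.map_comp, ← Spec.map_comp]
  congr 1
  ext c
  have hX : aeval v (X 0 : MvPolynomial (Fin (N + 1)) ℂ) ≠ 0 := by simpa using hv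
  have h := evA_mk v (X 0) hX (X_mem N 0) 0 (C c) (by simp)
  simp only [aeval_C, pow_zero, div_one] at h
  exact h

theorem pt_str : XX.pt v hv ≫ XX.str v hv = Spec.map (CommRingCat.ofHom (algebraMap ℂ K)) := by
  rw [XX.str, ← Category.assoc, XX.pt_emb, xiP_str]

/-- `RR v f` as a subalgebra -/
def RA (f : MvPolynomial (Fin (N + 1)) ℂ) (hf : aeval v f ≠ 0) {d : ℕ} (hd : f ∈ gr N d) :
    Subalgebra ℂ K :=
  { RR v f hf with algebraMap_mem' := algebraMap_mem_RR v f hf hd }

/-- The structure morphism on the charts. -/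
theorem chart_str (f : MvPolynomial (Fin (N + 1)) ℂ) (hf : aeval v f ≠ 0) {d : ℕ}
    (hd : f ∈ gr N d) (h0 : 0 < d) :
    chart v hv f hf hd h0 ≫ XX.str v hv =
      Spec.map (CommRingCat.ofHom (algebraMap ℂ (RA v f hf hd))) := by
  obtain ⟨φ, hφ⟩ := Spec.map_surjective (chart v hv f hf hd h0 ≫ XX.str v hv)
  rw [← hφ]
  congr 1
  have h1 : Spec.map (φ ≫ CommRingCat.ofHom (RR v f hf).subtype) =
      Spec.map (CommRingCat.ofHom (algebraMap ℂ K)) := by
    rw [Spec.map_comp, hφ, ← Category.assoc, chart_pt, pt_str]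
  have h2 := Spec.map_injective h1
  ext c
  exact congrArg (fun ψ => CommRingCat.Hom.hom ψ c) h2

end

end M21X
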