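import Pool.Agent.H.MP_21b43d_ag.X.Chart
import Pool.Agent.H.MP_21b43d_ag.Z.Cst

/-!
# M6 / X-part: values of elements of the function field at points
-/

set_option autoImplicit false

open CategoryTheory AlgebraicGeometry TopologicalSpace IsLocalRing Opposite

namespace M21X

noncomputable section

variable {K : Type} [Field K] {X : Scheme.{0}} (ξ : Spec (.of K) ⟶ X)

theorem top_le_of_nonempty [IsDominant ξ] (U : X.Opens) (x : X) (hx : x ∈ U) : ⊤ ≤ ξ ⁻¹ᵁ U := by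
  have hdense : DenseRange ξ := ξ.denseRange
  obtain ⟨y, hy⟩ := hdense.exists_mem_open U.2 ⟨x, hx⟩
  exact top_le_of_mem ξ U y hy

theorem rho_inj [IsIntegral X] [IsDominant ξ] (U : X.Opens) (hU : ⊤ ≤ ξ ⁻¹ᵁ U) :
    Function.Injective (rho ξ U hU) := by
  rw [injective_iff_map_eq_zero]
  intro s hs
  rw [← basicOpen_eq_bot_iff]
  by_contra hne
  obtain ⟨x, hx⟩ := (Opens.ne_bot_iff_nonempty _).mp hne
  have h1 := top_le_of_nonempty ξ (X.basicOpen s) x hx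
  have h2 := rho_res ξ (X.basicOpen s) U (X.basicOpen_le s) h1 hU s
  rw [hs] at h2
  have h3 : IsUnit (X.presheaf.map (homOfLE (X.basicOpen_le s)).op s) :=
    X.toRingedSpace.isUnit_res_basicOpen s
  have h4 := h3.map (rho ξ (X.basicOpen s) h1)
  rw [h2] at h4
  exact not_isUnit_zero h4

/-- the element `x` of the function field is regular at `z` with value `a` -/
def Val (z : X) (x : K) (a : X.residueField z) : Prop :=
  ∃ (U : X.Opens) (hz : z ∈ U) (hU : ⊤ ≤ ξ ⁻¹ᵁ U) (s : Γ(X, U)),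
    rho ξ U hU s = x ∧ X.evaluation U z hz s = a

variable {ξ} {z : X}

theorem rho_le {U V : X.Opens} (h : U ≤ V) (hU : ⊤ ≤ ξ ⁻¹ᵁ U) : ⊤ ≤ ξ ⁻¹ᵁ V :=
  fun p hp => h (hU hp)

theorem Val.unique [IsIntegral X] [IsDominant ξ] {x : K} {a a' : X.residueField z}
    (h : Val ξ z x a) (h' : Val ξ z x a') : a = a' := by
  obtain ⟨U, hz, hU, s, rfl, rfl⟩ := h
  obtain ⟨U', hz', hU', s', hs, rfl⟩ := h'
  have hW : ⊤ ≤ ξ ⁻¹ᵁ (U ⊓ U') := fun p hp => ⟨hU hp, hU' hp⟩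
  have h1 : X.presheaf.map (homOfLE (inf_le_left : U ⊓ U' ≤ U)).op s =
      X.presheaf.map (homOfLE (inf_le_right : U ⊓ U' ≤ U')).op s' := by
    apply rho_inj ξ (U ⊓ U') hW
    rw [rho_res ξ (U ⊓ U') U inf_le_left hW hU, rho_res ξ (U ⊓ U') U' inf_le_right hW hU', hs]
  rw [← M21.Z.evaluation_res (inf_le_left : U ⊓ U' ≤ U) z hz ⟨hz, hz'⟩ s,
    ← M21.Z.evaluation_res (inf_le_right : U ⊓ U' ≤ U') z hz' ⟨hz, hz'⟩ s', h1]

/-- two elements on the same open set -/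
theorem Val.two {x y : K} {a b : X.residueField z}
    (h : Val ξ z x a) (h' : Val ξ z y b) : ∃ (U : X.Opens) (hz : z ∈ U) (hU : ⊤ ≤ ξ ⁻¹ᵁ U)
      (s t : Γ(X, U)), rho ξ U hU s = x ∧ X.evaluation U z hz s = a ∧ rho ξ U hU t = y ∧
        X.evaluation U z hz t = b := by
  obtain ⟨U, hz, hU, s, rfl, rfl⟩ := h
  obtain ⟨U', hz', hU', s', rfl, rfl⟩ := h'
  have hW : ⊤ ≤ ξ ⁻¹ᵁ (U ⊓ U') := fun p hp => ⟨hU hp, hU' hp⟩
  refine ⟨U ⊓ U', ⟨hz, hz'⟩, hW, X.presheaf.map (homOfLE inf_le_left).op s,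
    X.presheaf.map (homOfLE inf_le_right).op s', ?_, ?_, ?_, ?_⟩
  · exact rho_res ξ (U ⊓ U') U inf_le_left hW hU s
  · exact M21.Z.evaluation_res (inf_le_left : U ⊓ U' ≤ U) z hz ⟨hz, hz'⟩ s
  · exact rho_res ξ (U ⊓ U') U' inf_le_right hW hU' s'
  · exact M21.Z.evaluation_res (inf_le_right : U ⊓ U' ≤ U') z hz' ⟨hz, hz'⟩ s'

theorem Val.add {x y : K} {a b : X.residueField z} (h : Val ξ z x a) (h' : Val ξ z y b) :
    Val ξ z (x + y) (a + b) := by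
  obtain ⟨U, hz, hU, s, t, rfl, rfl, rfl, rfl⟩ := h.two h'
  exact ⟨U, hz, hU, s + t, map_add _ _ _, map_add _ _ _⟩

theorem Val.sub {x y : K} {a b : X.residueField z} (h : Val ξ z x a) (h' : Val ξ z y b) :
    Val ξ z (x - y) (a - b) := by
  obtain ⟨U, hz, hU, s, t, rfl, rfl, rfl, rfl⟩ := h.two h'
  exact ⟨U, hz, hU, s - t, map_sub _ _ _, map_sub _ _ _⟩

theorem Val.mul {x y : K} {a b : X.residueField z} (h : Val ξ z x a) (h' : Val ξ z y b) :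
    Val ξ z (x * y) (a * b) := by
  obtain ⟨U, hz, hU, s, t, rfl, rfl, rfl, rfl⟩ := h.two h'
  exact ⟨U, hz, hU, s * t, map_mul _ _ _, map_mul _ _ _⟩

theorem Val.neg {x : K} {a : X.residueField z} (h : Val ξ z x a) : Val ξ z (-x) (-a) := by
  obtain ⟨U, hz, hU, s, rfl, rfl⟩ := h
  exact ⟨U, hz, hU, -s, map_neg _ _, map_neg _ _⟩

theorem Val.pow {x : K} {a : X.residueField z} (h : Val ξ z x a) (n : ℕ) :
    Val ξ z (x ^ n) (a ^ n) := by
  obtain ⟨U, hz, hU, s, rfl, rfl⟩ := h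
  exact ⟨U, hz, hU, s ^ n, map_pow _ _ _, map_pow _ _ _⟩

theorem Val.one : Val ξ z (1 : K) (1 : X.residueField z) :=
  ⟨⊤, trivial, fun _ _ => trivial, 1, map_one _, map_one _⟩

theorem Val.zero : Val ξ z (0 : K) (0 : X.residueField z) :=
  ⟨⊤, trivial, fun _ _ => trivial, 0, map_zero _, map_zero _⟩

theorem Val.inv [IsDominant ξ] {x : K} {a : X.residueField z} (h : Val ξ z x a) (ha : a ≠ 0) :
    Val ξ z x⁻¹ a⁻¹ := by
  obtain ⟨U, hz, hU, s, rfl, rfl⟩ := h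
  have hzs : z ∈ X.basicOpen s := (Scheme.evaluation_ne_zero_iff_mem_basicOpen X z hz s).1 ha
  have hW := top_le_of_nonempty ξ (X.basicOpen s) z hzs
  have h3 : IsUnit (X.presheaf.map (homOfLE (X.basicOpen_le s)).op s) :=
    X.toRingedSpace.isUnit_res_basicOpen s
  obtain ⟨u, hu⟩ := h3
  refine ⟨X.basicOpen s, hzs, hW, ((u⁻¹ : (Γ(X, X.basicOpen s))ˣ) : Γ(X, X.basicOpen s)), ?_, ?_⟩
  · have h1 : rho ξ (X.basicOpen s) hW ((u⁻¹ : (Γ(X, X.basicOpen s))ˣ) : Γ(X, X.basicOpen s)) *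
        rho ξ (X.basicOpen s) hW (u : Γ(X, X.basicOpen s)) = 1 := by
      rw [← map_mul, Units.inv_mul, map_one]
    rw [hu, rho_res ξ (X.basicOpen s) U (X.basicOpen_le s) hW hU] at h1
    exact eq_inv_of_mul_eq_one_left h1
  · have h1 : X.evaluation (X.basicOpen s) z hzs
          ((u⁻¹ : (Γ(X, X.basicOpen s))ˣ) : Γ(X, X.basicOpen s)) *
        X.evaluation (X.basicOpen s) z hzs (u : Γ(X, X.basicOpen s)) = 1 := by
      rw [← map_mul, Units.inv_mul, map_one]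
    have h2 : X.evaluation (X.basicOpen s) z hzs (u : Γ(X, X.basicOpen s)) =
        X.evaluation U z hz s := by
      rw [hu]
      exact M21.Z.evaluation_res (X.basicOpen_le s) z hz hzs s
    rw [h2] at h1
    exact eq_inv_of_mul_eq_one_left h1

theorem Val.eval {U : X.Opens} (hz : z ∈ U) (hU : ⊤ ≤ ξ ⁻¹ᵁ U) (s : Γ(X, U)) :
    Val ξ z (rho ξ U hU s) (X.evaluation U z hz s) := ⟨U, hz, hU, s, rfl, rfl⟩

theorem Val.specialize {y : X} (hzy : z ⤳ y) {x : K} {a' : X.residueField y} (h : Val ξ y x a') :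
    ∃ a, Val ξ z x a := by
  obtain ⟨U, hz, hU, s, rfl, rfl⟩ := h
  exact ⟨_, U, hzy.mem_open U.2 hz, hU, s, rfl, rfl⟩

theorem Val.specialize_zero [IsIntegral X] [IsDominant ξ] {y : X} (hzy : z ⤳ y) {x : K}
    (h : Val ξ z x 0) {a' : X.residueField y} (h' : Val ξ y x a') : a' = 0 := by
  obtain ⟨U, hy, hU, s, rfl, rfl⟩ := h'
  have h1 := h.unique ⟨U, hzy.mem_open U.2 hy, hU, s, rfl, rfl⟩
  rw [Scheme.evaluation_eq_zero_iff_notMem_basicOpen]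
  intro h2
  have h3 := (Scheme.evaluation_ne_zero_iff_mem_basicOpen X z (hzy.mem_open U.2 hy) s).2
    (hzy.mem_open (X.basicOpen s).2 h2)
  exact h3 h1.symm

/-- gluing -/
theorem exists_section [IsIntegral X] [IsDominant ξ] (W : X.Opens) (hW : ⊤ ≤ ξ ⁻¹ᵁ W) (x : K)
    (h : ∀ y ∈ W, ∃ a, Val ξ y x a) : ∃ s : Γ(X, W), rho ξ W hW s = x := by
  have h' : ∀ y : W, ∃ (U : X.Opens) (_ : y.1 ∈ U) (hU : ⊤ ≤ ξ ⁻¹ᵁ U) (_ : U ≤ W) (s : Γ(X, U)),
      rho ξ U hU s = x := by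
    intro y
    obtain ⟨a, U, hy, hU, s, hs, -⟩ := h y y.2
    have hUW : ⊤ ≤ ξ ⁻¹ᵁ (U ⊓ W) := fun p hp => ⟨hU hp, hW hp⟩
    exact ⟨U ⊓ W, ⟨hy, y.2⟩, hUW, inf_le_right, X.presheaf.map (homOfLE inf_le_left).op s,
      (rho_res ξ (U ⊓ W) U inf_le_left hUW hU s).trans hs⟩
  choose U hy hU hUW s hs using h'
  have hcov : W ≤ iSup U := fun y hyW => by
    rw [Opens.mem_iSup]
    exact ⟨⟨y, hyW⟩, hy ⟨y, hyW⟩⟩
  have hcomp : TopCat.Presheaf.IsCompatible X.sheaf.1 U s := by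
    intro i j
    have hij : ⊤ ≤ ξ ⁻¹ᵁ (U i ⊓ U j) := fun p hp => ⟨hU i hp, hU j hp⟩
    apply rho_inj ξ (U i ⊓ U j) hij
    have e1 := rho_res ξ (U i ⊓ U j) (U i) inf_le_left hij (hU i) (s i)
    have e2 := rho_res ξ (U i ⊓ U j) (U j) inf_le_right hij (hU j) (s j)
    exact (e1.trans (hs i)).trans (e2.trans (hs j)).symm
  obtain ⟨t, ht, -⟩ := X.sheaf.existsUnique_gluing' U W (fun i => homOfLE (hUW i)) hcov s hcomp
  refine ⟨t, ?_⟩
  obtain ⟨p, hp⟩ : ∃ p : Spec (.of K), p ∈ (⊤ : (Spec (.of K)).Opens) :=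
    ⟨IsLocalRing.closedPoint K, trivial⟩
  have hpW : ξ p ∈ W := hW hp
  have h1 := ht ⟨ξ p, hpW⟩
  have h2 := rho_res ξ (U ⟨ξ p, hpW⟩) W (hUW _) (hU _) hW t
  rw [← h2]
  exact (congrArg _ h1).trans (hs _)

end

end M21X
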