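import Pool.Agent.H.MP_21b43d_ag.X.Mov

/-!
# M6 / X-part: Kummer theory by traces: linear independence of `Dⁱ Yʲ`, `B` is not a cube
-/

set_option autoImplicit false

open Polynomial

namespace M21X

noncomputable section

theorem trace_cube_zero {F L : Type*} [Field F] [Field L] [Algebra F L] [FiniteDimensional F L]
    (x : L) (c : F) (hx : x ^ 3 = algebraMap F L c) (hc : ∀ r : F, r ^ 3 ≠ c) :
    Algebra.trace F L x = 0 := by
  have hirr : Irreducible (X ^ 3 - C c) := X_pow_sub_C_irreducible_of_prime Nat.prime_three hc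
  have hmin : minpoly F x = X ^ 3 - C c :=
    (minpoly.eq_of_irreducible_of_monic hirr (by simp [hx])
      (monic_X_pow_sub_C c (by norm_num))).symm
  rw [trace_eq_finrank_mul_minpoly_nextCoeff, hmin, nextCoeff_of_natDegree_pos (by simp)]
  simp [coeff_X_pow]

/-- the prime elements `X i + c` of the polynomial ring in two variables -/
theorem prime_X_add (i : Fin 2) (c : ℂ) :
    Prime (MvPolynomial.X i + MvPolynomial.C c : MvPolynomial (Fin 2) ℂ) := by
  apply Irreducible.prime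
  have hc1 : (MvPolynomial.X i + MvPolynomial.C c : MvPolynomial (Fin 2) ℂ).coeff
      (Finsupp.single i 1) = 1 := by
    have h0 : (0 : Fin 2 →₀ ℕ) ≠ Finsupp.single i 1 := by
      intro h
      have := DFunLike.congr_fun h i
      simp at this
    simp [MvPolynomial.coeff_add, MvPolynomial.coeff_C, h0]
  apply MvPolynomial.irreducible_of_totalDegree_eq_one
  · apply le_antisymm
    · refine (MvPolynomial.totalDegree_add _ _).trans ?_
      simp
    · have h := MvPolynomial.le_totalDegree (p := (MvPolynomial.X i + MvPolynomial.C c : MvPolynomial (Fin 2) ℂ)) (s := Finsupp.single i 1) (by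
        rw [MvPolynomial.mem_support_iff, hc1]; exact one_ne_zero)
      simpa using h
  · intro x hx
    have := hx (Finsupp.single i 1)
    rw [hc1] at this
    exact isUnit_of_dvd_one this


/-- `X i` is prime -/
theorem prime_X' (i : Fin 2) : Prime (MvPolynomial.X i : MvPolynomial (Fin 2) ℂ) := by
  simpa using prime_X_add i 0

/-- If `u³ π^a f = w³ π^b g` with `π` prime not dividing `f, g` then `3 ∣ a - b`. -/
theorem exp_dvd {R : Type*} [CommRing R] [IsDomain R] {π : R} (hπ : Prime π) {u w f g : R}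
    (hu : u ≠ 0) (hw : w ≠ 0) (hf : ¬ π ∣ f) (hg : ¬ π ∣ g) (a b : ℕ)
    (hfin : ∀ x : R, x ≠ 0 → FiniteMultiplicity π x)
    (h : u ^ 3 * (π ^ a * f) = w ^ 3 * (π ^ b * g)) : (3 : ℤ) ∣ (a : ℤ) - b := by
  have hf0 : f ≠ 0 := by rintro rfl; exact hf (dvd_zero _)
  have hg0 : g ≠ 0 := by rintro rfl; exact hg (dvd_zero _)
  have h1 := congrArg (emultiplicity π) h
  have e1 := (hfin u hu).emultiplicity_eq_multiplicity
  have e2 := (hfin w hw).emultiplicity_eq_multiplicity
  have e3 : emultiplicity π (π ^ a) = a := emultiplicity_pow_self hπ.ne_zero hπ.not_isUnit a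
  have e4 : emultiplicity π (π ^ b) = b := emultiplicity_pow_self hπ.ne_zero hπ.not_isUnit b
  rw [emultiplicity_mul hπ, emultiplicity_mul hπ, emultiplicity_mul hπ, emultiplicity_mul hπ,
    e3, e4, emultiplicity_pow hπ, emultiplicity_pow hπ, emultiplicity_eq_zero.mpr hf,
    emultiplicity_eq_zero.mpr hg, e1, e2] at h1
  have h2 : 3 * multiplicity π u + a = 3 * multiplicity π w + b := by
    exact_mod_cast h1
  omega


namespace Quad

variable {K : Type} [Field K] [Algebra ℂ K] {q : Quad K}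

/-- the field `ℂ(B, Z)` -/
abbrev FF (q : Quad K) : IntermediateField ℂ K := IntermediateField.adjoin ℂ (Set.range ![q.B, q.Z])

theorem Good.D3 (h : q.Good) : q.D ^ 3 = -(q.B * (1 + q.B)) := by linear_combination h.hD

theorem Good.Y3 (h : q.Good) : q.Y ^ 3 = -(1 + q.Z ^ 3) / q.B := by
  rw [eq_div_iff h.B_ne]
  linear_combination h.hY

/-- **Cubes in `ℂ(B, Z)`.** -/
theorem Good.cube_exponents (h : q.Good) (κ : ℂ) (hκ : κ ≠ 0) (l m n : ℕ) (r : K) (hr : r ∈ q.FF)
    (hrc : r ^ 3 = algebraMap ℂ K κ * q.B ^ l * (q.D ^ 3) ^ m * (q.Y ^ 3) ^ n) :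
    (3 : ℤ) ∣ m ∧ (3 : ℤ) ∣ n ∧ (3 : ℤ) ∣ (l : ℤ) + m - n := by
  obtain ⟨u, w, rfl⟩ := IntermediateField.mem_adjoin_range_iff ℂ ![q.B, q.Z] r |>.mp hr
  have hinj : Function.Injective (MvPolynomial.aeval (R := ℂ) ![q.B, q.Z]) := h.ai
  have hB := h.B_ne
  have hκ' : algebraMap ℂ K κ ≠ 0 := by simpa using hκ
  have hrhs : algebraMap ℂ K κ * q.B ^ l * (q.D ^ 3) ^ m * (q.Y ^ 3) ^ n ≠ 0 := by
    have := h.D_ne
    have := h.Y_ne
    positivity
  have hu : MvPolynomial.aeval ![q.B, q.Z] u ≠ 0 := by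
    intro h0
    rw [← hrc, h0] at hrhs
    simp at hrhs
  have hw : MvPolynomial.aeval ![q.B, q.Z] w ≠ 0 := by
    intro h0
    rw [← hrc, h0] at hrhs
    simp at hrhs
  have hu' : u ≠ 0 := by rintro rfl; simp at hu
  have hw' : w ≠ 0 := by rintro rfl; simp at hw
  have key : u ^ 3 * MvPolynomial.X 0 ^ n = w ^ 3 * (MvPolynomial.C (κ * (-1) ^ (m + n)) *
      MvPolynomial.X 0 ^ (l + m) * (MvPolynomial.X 0 + MvPolynomial.C 1) ^ m *
      ((MvPolynomial.X 1 + MvPolynomial.C 1) *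
        (MvPolynomial.X 1 ^ 2 - MvPolynomial.X 1 + MvPolynomial.C 1)) ^ n) := by
    apply hinj
    rw [h.D3, h.Y3, div_pow] at hrc
    simp only [map_mul, map_pow, MvPolynomial.aeval_X, map_add, map_sub, MvPolynomial.aeval_C,
      Matrix.cons_val_zero, Matrix.cons_val_one, map_one, map_neg]
    rw [div_eq_iff (pow_ne_zero 3 hw)] at hrc
    rw [hrc]
    have e1 : (1 + q.Z ^ 3) = (q.Z + 1) * (q.Z ^ 2 - q.Z + 1) := by ring
    have e3 : (-(q.B * (1 + q.B))) ^ m = (-1) ^ m * q.B ^ m * (1 + q.B) ^ m := by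
      rw [neg_eq_neg_one_mul, mul_pow, mul_pow]
      ring
    have e4 : (-(1 + q.Z ^ 3) / q.B) ^ n = (-1) ^ n * (1 + q.Z ^ 3) ^ n / q.B ^ n := by
      rw [neg_eq_neg_one_mul, div_pow, mul_pow]
    rw [e3, e4, ← e1]
    have hBn : q.B ^ n ≠ 0 := pow_ne_zero n hB
    field_simp
    ring
  have hfin : ∀ (π : MvPolynomial (Fin 2) ℂ), Prime π → ∀ x : MvPolynomial (Fin 2) ℂ, x ≠ 0 →
      FiniteMultiplicity π x := fun π hπ x hx => FiniteMultiplicity.of_prime_left hπ hx
  have hev : ∀ (a b : ℂ) (π f : MvPolynomial (Fin 2) ℂ), MvPolynomial.eval ![a, b] π = 0 →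
      MvPolynomial.eval ![a, b] f ≠ 0 → ¬ π ∣ f := by
    rintro a b π f h1 h2 ⟨g, rfl⟩
    apply h2
    rw [map_mul, h1, zero_mul]
  have hc : κ * (-1) ^ (m + n) ≠ 0 := mul_ne_zero hκ (pow_ne_zero _ (by norm_num))
  have c1 : (3 : ℤ) ∣ (0 : ℕ) - (m : ℤ) := by
    refine exp_dvd (prime_X_add 0 1) hu' hw' (f := MvPolynomial.X 0 ^ n)
      (g := MvPolynomial.C (κ * (-1) ^ (m + n)) * MvPolynomial.X 0 ^ (l + m) *
      ((MvPolynomial.X 1 + MvPolynomial.C 1) *
        (MvPolynomial.X 1 ^ 2 - MvPolynomial.X 1 + MvPolynomial.C 1)) ^ n) ?_ ?_ 0 m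
      (hfin _ (prime_X_add 0 1)) ?_
    · apply hev (-1) 0
      · simp
      · simp
    · apply hev (-1) 0
      · simp
      · simp [hκ]
    · linear_combination key
  have c2 : (3 : ℤ) ∣ (0 : ℕ) - (n : ℤ) := by
    refine exp_dvd (prime_X_add 1 1) hu' hw' (f := MvPolynomial.X 0 ^ n)
      (g := MvPolynomial.C (κ * (-1) ^ (m + n)) * MvPolynomial.X 0 ^ (l + m) *
      (MvPolynomial.X 0 + MvPolynomial.C 1) ^ m *
        (MvPolynomial.X 1 ^ 2 - MvPolynomial.X 1 + MvPolynomial.C 1) ^ n) ?_ ?_ 0 n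
      (hfin _ (prime_X_add 1 1)) ?_
    · apply hev 1 (-1)
      · simp
      · simp
    · apply hev 1 (-1)
      · simp
      · simp [hκ]
        norm_num
    · rw [mul_pow (MvPolynomial.X 1 + MvPolynomial.C 1)] at key
      linear_combination key
  have c3 : (3 : ℤ) ∣ (n : ℤ) - (l + m : ℕ) := by
    refine exp_dvd (prime_X' 0) hu' hw' (f := 1)
      (g := MvPolynomial.C (κ * (-1) ^ (m + n)) *
      (MvPolynomial.X 0 + MvPolynomial.C 1) ^ m *
      ((MvPolynomial.X 1 + MvPolynomial.C 1) *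
        (MvPolynomial.X 1 ^ 2 - MvPolynomial.X 1 + MvPolynomial.C 1)) ^ n) ?_ ?_ n (l + m)
      (hfin _ (prime_X' 0)) ?_
    · apply hev 0 0
      · simp
      · simp
    · apply hev 0 0
      · simp
      · simp [hκ]
    · rw [mul_one, key]
      ring
  push_cast at c1 c2 c3
  omega

end Quad

end

end M21X
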