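import Pool.Agent.H.MP_21b43d_ag.X.Six2
import Pool.Agent.H.MP_21b43d_ag.X.Kum

/-!
# M6 / X-part: the six charts `ch h s : Spec (q s).AC ⟶ X`
-/

set_option autoImplicit false

open CategoryTheory AlgebraicGeometry TopologicalSpace MvPolynomial

namespace M21X

noncomputable section

variable {K : Type} [Field K] [Algebra ℂ K]

namespace Quad

/-- the quadruples of the charts of type `x` -/
def quad0 (q : Quad K) : Fin 3 → Quad K := ![q, q.rot, q.rot.rot]

/-- the quadruples of the six charts -/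
def quad (q : Quad K) (s : Fin 3 × Bool) : Quad K :=
  if s.2 then (q.quad0 s.1).swap else q.quad0 s.1

/-- the scaling factors, type `x` -/
def lam0 (q : Quad K) : Fin 3 → K := ![1, q.B, q.B * q.rot.B]

/-- the scaling factors -/
def lam (q : Quad K) (s : Fin 3 × Bool) : K := if s.2 then q.lam0 s.1 * q.Z else q.lam0 s.1

/-- the quadratic forms whose nonvanishing defines the charts -/
def pol (s : Fin 3 × Bool) : MvPolynomial (Fin 9) ℂ :=
  if s.2 then ![X 3 * X 4, X 4 * (X 3 + X 4), X 3 * (X 3 + X 4)] s.1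
  else ![X 0 * X 1, X 1 * (X 0 + X 1), X 0 * (X 0 + X 1)] s.1

/-- signs -/
def con (s : Fin 3 × Bool) : ℂ := ![1, -1, -1] s.1

theorem con_ne (s : Fin 3 × Bool) : con s ≠ 0 := by
  rcases s with ⟨i, j⟩
  fin_cases i <;> simp [con]

theorem pol_mem (s : Fin 3 × Bool) : pol s ∈ gr 8 2 := by
  have h : ∀ L M : MvPolynomial (Fin 9) ℂ, L ∈ gr 8 1 → M ∈ gr 8 1 → L * M ∈ gr 8 2 :=
    fun L M hL hM => SetLike.mul_mem_graded (A := gr 8) hL hM
  have x0 := X_mem 8 0
  have x1 := X_mem 8 1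
  have x3 := X_mem 8 3
  have x4 := X_mem 8 4
  rcases s with ⟨i, j⟩
  cases j <;> fin_cases i
  · exact h _ _ x0 x1
  · exact h _ _ x1 (add_mem x0 x1)
  · exact h _ _ x0 (add_mem x0 x1)
  · exact h _ _ x3 x4
  · exact h _ _ x4 (add_mem x3 x4)
  · exact h _ _ x3 (add_mem x3 x4)

theorem Good.quad0 {q : Quad K} (h : q.Good) (i : Fin 3) : (q.quad0 i).Good := by
  fin_cases i
  · exact h
  · exact h.rot
  · exact h.rot.rot

theorem Good.quad {q : Quad K} (h : q.Good) (s : Fin 3 × Bool) : (q.quad s).Good := by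
  unfold Quad.quad
  split_ifs
  · exact (h.quad0 _).swap
  · exact h.quad0 _

omit [Algebra ℂ K] in
theorem quad0_Z (q : Quad K) (i : Fin 3) : (q.quad0 i).Z = q.Z := by
  fin_cases i <;> rfl

theorem Good.rel0 {q : Quad K} (h : q.Good) (i : Fin 3) : Rel (q.lam0 i) q (q.quad0 i) := by
  fin_cases i
  · exact Rel.refl q
  · exact h.rel_rot
  · exact h.rel_rot.trans h.rot.rel_rot

theorem Good.rel {q : Quad K} (h : q.Good) (s : Fin 3 × Bool) : Rel (q.lam s) q (q.quad s) := by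
  unfold Quad.quad lam
  split_ifs
  · rw [← quad0_Z q s.1]
    exact (h.rel0 _).trans (h.quad0 _).rel_swap
  · exact h.rel0 _

theorem Good.lam0_ne {q : Quad K} (h : q.Good) (i : Fin 3) : q.lam0 i ≠ 0 := by
  fin_cases i
  · exact one_ne_zero
  · exact h.B_ne
  · exact mul_ne_zero h.B_ne h.rot.B_ne

theorem Good.lam_ne {q : Quad K} (h : q.Good) (s : Fin 3 × Bool) : q.lam s ≠ 0 := by
  unfold lam
  split_ifs
  · exact mul_ne_zero (h.lam0_ne _) h.Z_ne
  · exact h.lam0_ne _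

theorem Good.pol_val {q : Quad K} (h : q.Good) (s : Fin 3 × Bool) :
    aeval q.vec (pol s) = algebraMap ℂ K (con s) * (q.lam s ^ 2 * (q.quad s).B) := by
  have hB := h.B_ne
  have hB1 := h.B1_ne
  rcases s with ⟨i, j⟩
  cases j <;> fin_cases i
  · simp [pol, con, lam, Quad.quad, vec, lam0, Quad.quad0]
  · simp [pol, con, lam, Quad.quad, vec, lam0, Quad.quad0, Quad.rot]
    field_simp
    ring
  · simp [pol, con, lam, Quad.quad, vec, lam0, Quad.quad0, Quad.rot]
    field_simp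
    ring
  · simp [pol, con, lam, Quad.quad, vec, lam0, Quad.quad0, Quad.swap]
    ring
  · simp [pol, con, lam, Quad.quad, vec, lam0, Quad.quad0, Quad.rot, Quad.swap]
    field_simp
    ring
  · simp [pol, con, lam, Quad.quad, vec, lam0, Quad.quad0, Quad.rot, Quad.swap]
    field_simp
    ring

theorem Good.pol_ne {q : Quad K} (h : q.Good) (s : Fin 3 × Bool) : aeval q.vec (pol s) ≠ 0 := by
  rw [h.pol_val s]
  have h1 : algebraMap ℂ K (con s) ≠ 0 := by simpa using con_ne s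
  exact mul_ne_zero h1 (mul_ne_zero (pow_ne_zero 2 (h.lam_ne s)) (h.quad s).B_ne)

theorem Good.RR_pol {q : Quad K} (h : q.Good) (s : Fin 3 × Bool) :
    RR (N := 8) q.vec (pol s) (h.pol_ne s) = (q.quad s).AC.toSubring :=
  RR_eq_AC (h.quad s) (q.lam s) (h.lam_ne s) (h.rel s) (pol s) (pol_mem s) (con s) (con_ne s)
    (h.pol_val s) (h.pol_ne s)

omit [Algebra ℂ K] in
theorem vec0_ne (q : Quad K) : q.vec 0 ≠ 0 := one_ne_zero

/-- **The surface.** -/
abbrev XX (q : Quad K) : Scheme.{0} := M21X.XX (N := 8) q.vec q.vec0_ne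

/-- its generic point -/
abbrev pt (q : Quad K) : Spec (.of K) ⟶ q.XX := XX.pt (N := 8) q.vec q.vec0_ne

/-- its structure morphism -/
abbrev str (q : Quad K) : q.XX ⟶ Spec (.of ℂ) := XX.str (N := 8) q.vec q.vec0_ne

variable {q : Quad K} (h : q.Good)

/-- the identification of the two chart rings -/
def Good.ringEquiv (s : Fin 3 × Bool) : RR (N := 8) q.vec (pol s) (h.pol_ne s) ≃+* (q.quad s).AC :=
  RingEquiv.subringCongr (h.RR_pol s)

theorem Good.ringEquiv_val (s : Fin 3 × Bool) (x : RR (N := 8) q.vec (pol s) (h.pol_ne s)) :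
    (h.ringEquiv s x : K) = x := rfl

/-- **The six charts.** -/
def Good.ch (s : Fin 3 × Bool) : Spec (.of (q.quad s).AC) ⟶ q.XX :=
  Spec.map (h.ringEquiv s).toCommRingCatIso.hom ≫
    chart (N := 8) q.vec q.vec0_ne (pol s) (h.pol_ne s) (pol_mem s) two_pos

instance (s : Fin 3 × Bool) : IsOpenImmersion (h.ch s) := by
  unfold Good.ch
  infer_instance

theorem Good.ch_opensRange (s : Fin 3 × Bool) :
    (h.ch s).opensRange = UU (N := 8) q.vec q.vec0_ne (pol s) := by
  unfold Good.ch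
  rw [Scheme.Hom.opensRange_comp_of_isIso, chart_opensRange]

theorem Good.ch_pt (s : Fin 3 × Bool) :
    Spec.map (CommRingCat.ofHom (algebraMap (q.quad s).AC K)) ≫ h.ch s = q.pt := by
  rw [Good.ch, ← Category.assoc, ← Spec.map_comp]
  exact chart_pt (N := 8) q.vec q.vec0_ne (pol s) (h.pol_ne s) (pol_mem s) two_pos

theorem Good.ch_str (s : Fin 3 × Bool) :
    h.ch s ≫ q.str = Spec.map (CommRingCat.ofHom (algebraMap ℂ (q.quad s).AC)) := by
  obtain ⟨φ, hφ⟩ := Spec.map_surjective (h.ch s ≫ q.str)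
  rw [← hφ]
  congr 1
  have h1 : Spec.map (φ ≫ CommRingCat.ofHom (algebraMap (q.quad s).AC K)) =
      Spec.map (CommRingCat.ofHom (algebraMap ℂ K)) := by
    rw [Spec.map_comp, hφ, ← Category.assoc, h.ch_pt s]
    exact pt_str (N := 8) q.vec q.vec0_ne
  have h2 := Spec.map_injective h1
  ext c
  exact congrArg (fun ψ => CommRingCat.Hom.hom ψ c) h2

/-- A polynomial vanishing at the generic point vanishes on the surface. -/
theorem not_mem_of_aeval_eq_zero {N : ℕ} (v : Fin (N + 1) → K) (hv : v 0 ≠ 0)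
    (f : MvPolynomial (Fin (N + 1)) ℂ) {d : ℕ} (hd : f ∈ gr N d) (h0 : 0 < d)
    (hf : aeval v f = 0) (x : M21X.XX v hv) : x ∉ UU v hv f := by
  intro hx
  have hdense : DenseRange (XX.pt v hv) := (XX.pt v hv).denseRange
  obtain ⟨y, hy⟩ := hdense.exists_mem_open (UU v hv f).2 ⟨x, hx⟩
  have h1 : XX.emb v hv (XX.pt v hv y) ∈ Proj.basicOpen (gr N) f := hy
  rw [← Scheme.Hom.comp_apply, XX.pt_emb] at h1
  exact (xiP_mem_iff v hv f hd h0 y).mp h1 hf

/-- the standard opens of projective space cover -/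
theorem exists_X_mem (N : ℕ) (y : PP N) : ∃ j : Fin (N + 1), y ∈ Proj.basicOpen (gr N) (X j) := by
  have h1 : ⨆ j : Fin (N + 1), Proj.basicOpen (gr N) (X j) = ⊤ := by
    apply Proj.iSup_basicOpen_eq_top' (gr N) (fun j : Fin (N + 1) => (X j : MvPolynomial _ ℂ))
    · exact fun j => ⟨1, X_mem N j⟩
    · rw [eq_top_iff]
      rintro p -
      have h2 : p ∈ Algebra.adjoin ℂ (Set.range (X : Fin (N + 1) → MvPolynomial _ ℂ)) := by
        rw [adjoin_range_X]
        trivial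
      induction h2 using Algebra.adjoin_induction with
      | mem z hz => exact Algebra.subset_adjoin hz
      | algebraMap c =>
        exact Subalgebra.algebraMap_mem (Algebra.adjoin (gr N 0)
          (Set.range (X : Fin (N + 1) → MvPolynomial _ ℂ))) (⟨C c, by simp⟩ : gr N 0)
      | add a b _ _ ha hb => exact add_mem ha hb
      | mul a b _ _ ha hb => exact mul_mem ha hb
  have h2 : y ∈ (⨆ j : Fin (N + 1), Proj.basicOpen (gr N) (X j)) := by rw [h1]; trivial
  exact TopologicalSpace.Opens.mem_iSup.mp h2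

/-- **The six charts cover the surface.** -/
theorem Good.ch_cover (x : q.XX) : ∃ s, x ∈ (h.ch s).opensRange := by
  by_contra hcon
  push Not at hcon
  set y : PP 8 := XX.emb (N := 8) q.vec q.vec0_ne x with hy
  set P : Ideal (MvPolynomial (Fin 9) ℂ) := y.asHomogeneousIdeal.toIdeal with hP
  have hPp : P.IsPrime := y.isPrime
  have hs : ∀ s, pol s ∈ P := by
    intro s
    have h1 := hcon s
    rw [h.ch_opensRange] at h1
    by_contra h2
    exact h1 h2
  have hz : ∀ (f : MvPolynomial (Fin 9) ℂ) (d : ℕ), f ∈ gr 8 d → 0 < d → aeval q.vec f = 0 →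
      f ∈ P := by
    intro f d hd h0 hf
    have h1 := not_mem_of_aeval_eq_zero (N := 8) q.vec q.vec0_ne f hd h0 hf x
    by_contra h2
    exact h1 h2
  have s1 : X 0 * X 1 ∈ P := hs (0, false)
  have s2 : X 1 * (X 0 + X 1) ∈ P := hs (1, false)
  have s3 : X 0 * (X 0 + X 1) ∈ P := hs (2, false)
  have s4 : X 3 * X 4 ∈ P := hs (0, true)
  have s5 : X 4 * (X 3 + X 4) ∈ P := hs (1, true)
  have s6 : X 3 * (X 3 + X 4) ∈ P := hs (2, true)
  have two : ∀ a b : MvPolynomial (Fin 9) ℂ, a * b ∈ P → b * (a + b) ∈ P → a * (a + b) ∈ P →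
      a ∈ P ∧ b ∈ P := by
    intro a b h1 h2 h3
    rcases hPp.mem_or_mem h1 with h4 | h4
    · refine ⟨h4, ?_⟩
      rcases hPp.mem_or_mem h2 with h5 | h5
      · exact h5
      · exact (P.add_mem_iff_right h4).mp h5
    · refine ⟨?_, h4⟩
      rcases hPp.mem_or_mem h3 with h5 | h5
      · exact h5
      · exact (P.add_mem_iff_left h4).mp h5
  obtain ⟨m0, m1⟩ := two _ _ s1 s2 s3
  obtain ⟨m3, m4⟩ := two _ _ s4 s5 s6
  have cub : ∀ i j k : Fin 9, X i * X j * X k ∈ gr 8 3 := fun i j k =>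
    SetLike.mul_mem_graded (A := gr 8)
      (SetLike.mul_mem_graded (A := gr 8) (X_mem 8 i) (X_mem 8 j)) (X_mem 8 k)
  have hD := h.hD
  have hY := h.hY
  have n2 : X 2 * X 2 * X 2 + X 0 * X 1 * X 1 + X 0 * X 0 * X 1 ∈ P := by
    apply hz _ 3 (add_mem (add_mem (cub _ _ _) (cub _ _ _)) (cub _ _ _)) (by norm_num)
    simp [vec]
    linear_combination hD
  have n5 : X 5 * X 5 * X 5 + X 3 * X 4 * X 4 + X 3 * X 3 * X 4 ∈ P := by
    apply hz _ 3 (add_mem (add_mem (cub _ _ _) (cub _ _ _)) (cub _ _ _)) (by norm_num)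
    simp [vec]
    linear_combination q.Z ^ 3 * hD
  have n6 : X 6 * X 6 * X 6 - X 0 * X 0 * X 0 - X 0 * X 0 * X 1 - X 3 * X 3 * X 3 -
      X 3 * X 3 * X 4 ∈ P := by
    apply hz _ 3 (sub_mem (sub_mem (sub_mem (sub_mem (cub _ _ _) (cub _ _ _)) (cub _ _ _))
      (cub _ _ _)) (cub _ _ _)) (by norm_num)
    simp [vec]
    linear_combination q.Y ^ 3 * hD - (1 + q.B) * hY
  have n7 : X 7 * X 7 * X 7 + X 0 * X 1 * X 1 + X 3 * X 4 * X 4 ∈ P := by
    apply hz _ 3 (add_mem (add_mem (cub _ _ _) (cub _ _ _)) (cub _ _ _)) (by norm_num)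
    simp [vec]
    linear_combination q.B ^ 2 * hY
  have n8 : X 8 * X 8 * X 8 + X 1 * X 1 * X 1 + X 0 * X 1 * X 1 + X 0 * X 1 * X 1 +
      X 0 * X 0 * X 1 + X 4 * X 4 * X 4 + X 3 * X 4 * X 4 + X 3 * X 4 * X 4 +
      X 3 * X 3 * X 4 ∈ P := by
    apply hz _ 3 (add_mem (add_mem (add_mem (add_mem (add_mem (add_mem (add_mem (add_mem (cub _ _ _)
      (cub _ _ _)) (cub _ _ _)) (cub _ _ _)) (cub _ _ _)) (cub _ _ _)) (cub _ _ _)) (cub _ _ _))
      (cub _ _ _)) (by norm_num)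
    simp [vec]
    linear_combination (q.D ^ 3 * q.Y ^ 3 - q.B * (1 + q.B) * q.Y ^ 3) * hD +
      q.B * (1 + q.B) ^ 2 * hY
  have cube : ∀ a b : MvPolynomial (Fin 9) ℂ, a * a * a + b ∈ P → b ∈ P → a ∈ P := by
    intro a b h1 h2
    have h3 : a * a * a ∈ P := (P.add_mem_iff_left h2).mp h1
    rcases hPp.mem_or_mem h3 with h4 | h4
    · rcases hPp.mem_or_mem h4 with h5 | h5 <;> exact h5
    · exact h4
  have m2 : X 2 ∈ P := by
    refine cube _ (X 0 * X 1 * X 1 + X 0 * X 0 * X 1) (by rw [← add_assoc]; exact n2) ?_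
    exact add_mem (P.mul_mem_left _ m1) (P.mul_mem_left _ m1)
  have m5 : X 5 ∈ P := by
    refine cube _ (X 3 * X 4 * X 4 + X 3 * X 3 * X 4) (by rw [← add_assoc]; exact n5) ?_
    exact add_mem (P.mul_mem_left _ m4) (P.mul_mem_left _ m4)
  have m6 : X 6 ∈ P := by
    refine cube _ (- X 0 * X 0 * X 0 - X 0 * X 0 * X 1 - X 3 * X 3 * X 3 - X 3 * X 3 * X 4) ?_ ?_
    · convert n6 using 1
      ring
    · exact sub_mem (sub_mem (sub_mem (P.mul_mem_left _ m0) (P.mul_mem_left _ m1))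
        (P.mul_mem_left _ m3)) (P.mul_mem_left _ m4)
  have m7 : X 7 ∈ P := by
    refine cube _ (X 0 * X 1 * X 1 + X 3 * X 4 * X 4) (by rw [← add_assoc]; exact n7) ?_
    exact add_mem (P.mul_mem_left _ m1) (P.mul_mem_left _ m4)
  have m8 : X 8 ∈ P := by
    refine cube _ (X 1 * X 1 * X 1 + X 0 * X 1 * X 1 + X 0 * X 1 * X 1 +
      X 0 * X 0 * X 1 + X 4 * X 4 * X 4 + X 3 * X 4 * X 4 + X 3 * X 4 * X 4 +
      X 3 * X 3 * X 4) ?_ ?_
    · convert n8 using 1
      ring
    · exact add_mem (add_mem (add_mem (add_mem (add_mem (add_mem (add_mem (P.mul_mem_left _ m1)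
        (P.mul_mem_left _ m1)) (P.mul_mem_left _ m1)) (P.mul_mem_left _ m1))
        (P.mul_mem_left _ m4)) (P.mul_mem_left _ m4)) (P.mul_mem_left _ m4)) (P.mul_mem_left _ m4)
  obtain ⟨j, hj⟩ := exists_X_mem 8 y
  apply hj
  change X j ∈ P
  fin_cases j
  · exact m0
  · exact m1
  · exact m2
  · exact m3
  · exact m4
  · exact m5
  · exact m6
  · exact m7
  · exact m8

end Quad

end

end M21X
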