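import Pool.Agent.H.MP_21b43d_ag.X.Alb6
import Pool.Agent.H.MP_21b43d_ag.X.Kum2
import Pool.Agent.H.MP_21b43d_ag.X.Six3
import Pool.Agent.H.MP_21b43d_ag.XP.Der1
import Pool.Agent.H.MP_21b43d_ag.Defs

/-!
# M6 / X-ALB, file 7: no finite morphism from the surface `X = (E × F)/(ℤ/3)` to a group scheme
-/

set_option autoImplicit false

open CategoryTheory AlgebraicGeometry TopologicalSpace Opposite

namespace M21X

noncomputable section

variable {K : Type} [Field K] [Algebra ℂ K]

/-- `K` is algebraic over a subalgebra containing a transcendence basis. -/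
theorem isAlgebraic_of_mem {ι : Type} {x : ι → K} (hx : IsTranscendenceBasis ℂ x)
    (R : Subalgebra ℂ K) (h : ∀ i, x i ∈ R) : Algebra.IsAlgebraic R K := by
  have h1 := hx.isAlgebraic
  have hle : Algebra.adjoin ℂ (Set.range x) ≤ R := by
    rw [Algebra.adjoin_le_iff]
    rintro _ ⟨i, rfl⟩
    exact h i
  constructor
  intro y
  exact (h1.isAlgebraic y).ringHom_of_comp_eq (Subalgebra.inclusion hle).toRingHom (RingHom.id K)
    (Subalgebra.inclusion_injective hle) rfl

/-- A derivation mapping the generators of a subalgebra into the subalgebra preserves it. -/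
theorem der_adjoin (D : Derivation ℂ K K) (s : Set K)
    (h : ∀ a ∈ s, D a ∈ Algebra.adjoin ℂ s) (a : K) (ha : a ∈ Algebra.adjoin ℂ s) :
    D a ∈ Algebra.adjoin ℂ s := by
  induction ha using Algebra.adjoin_induction with
  | mem a ha => exact h a ha
  | algebraMap r => rw [Derivation.map_algebraMap]; exact zero_mem _
  | add a b _ _ ha hb => rw [map_add]; exact add_mem ha hb
  | mul a b ha' hb' ha hb =>
    rw [D.leibniz]
    exact add_mem (mul_mem ha' hb) (mul_mem hb' ha)

namespace Quad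

/-- the derivation `∂` of a quadruple -/
structure IsDel (q : Quad K) (D : Derivation ℂ K K) : Prop where
  hB : D q.B = 0
  hZ : D q.Z = q.B * q.Y ^ 2

section

variable {q : Quad K} {D : Derivation ℂ K K}

theorem IsDel.hD (hd : q.IsDel D) (h : q.Good) : D q.D = 0 := by
  have h1 := congrArg D h.hD
  rw [map_add, map_add, D.leibniz_pow, D.leibniz_pow, hd.hB, map_zero] at h1
  simp only [add_zero, nsmul_eq_mul, smul_eq_mul] at h1
  have hD := h.D_ne
  have : CharZero K := charZero_of_injective_algebraMap (algebraMap ℂ K).injective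
  have h2 : (3 : K) * (q.D ^ 2 * D q.D) = 0 := by
    convert h1 using 2
    norm_num
  simpa [hD] using h2

theorem IsDel.hY (hd : q.IsDel D) (h : q.Good) : D q.Y = - q.Z ^ 2 := by
  have h1 := congrArg D h.hY
  rw [map_add, map_add, D.map_one_eq_zero, D.leibniz, D.leibniz_pow, D.leibniz_pow, hd.hB, hd.hZ,
    map_zero] at h1
  simp only [zero_add, nsmul_eq_mul, smul_eq_mul] at h1
  have hB := h.B_ne
  have hY := h.Y_ne
  have : CharZero K := charZero_of_injective_algebraMap (algebraMap ℂ K).injective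
  have h2 : (3 * q.B * q.Y ^ 2) * (D q.Y + q.Z ^ 2) = 0 := by
    rw [← h1]
    push_cast
    ring
  have h3 : 3 * q.B * q.Y ^ 2 ≠ 0 := mul_ne_zero (mul_ne_zero three_ne_zero hB) (pow_ne_zero 2 hY)
  have h4 := (mul_eq_zero.mp h2).resolve_left h3
  linear_combination h4

theorem IsDel.ac (hd : q.IsDel D) (h : q.Good) (a : K) (ha : a ∈ q.AC) : D a ∈ q.AC := by
  refine der_adjoin D _ ?_ a ha
  have mB : q.B ∈ q.AC := Algebra.subset_adjoin (by simp)
  have mY : q.Y ∈ q.AC := Algebra.subset_adjoin (by simp)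
  have mZ : q.Z ∈ q.AC := Algebra.subset_adjoin (by simp)
  change ∀ a ∈ ({q.B, q.B⁻¹, q.D, q.Y, q.Z} : Set K), D a ∈ q.AC
  rintro a (rfl | rfl | rfl | rfl | rfl)
  · rw [hd.hB]; exact zero_mem _
  · rw [D.leibniz_inv, hd.hB, smul_zero]; exact zero_mem _
  · rw [hd.hD h]; exact zero_mem _
  · rw [hd.hY h]; exact neg_mem (pow_mem mZ 2)
  · rw [hd.hZ]; exact mul_mem mB (pow_mem mY 2)

theorem IsDel.rot (hd : q.IsDel D) (h : q.Good) : q.rot.IsDel ((q.D / q.B) • D) := by
  have hB := h.B_ne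
  have hD := h.D_ne
  constructor
  · have e : q.rot.B = -(q.B⁻¹ + 1) := by
      simp only [Quad.rot]
      field_simp
    rw [e, Derivation.smul_apply, map_neg, map_add, D.leibniz_inv, hd.hB, D.map_one_eq_zero]
    simp
  · rw [Derivation.smul_apply]
    change (q.D / q.B) • D q.Z = q.rot.B * q.rot.Y ^ 2
    rw [hd.hZ, smul_eq_mul]
    simp only [Quad.rot]
    field_simp
    linear_combination (q.Y ^ 2) * h.hD

theorem IsDel.swap (hd : q.IsDel D) (h : q.Good) : q.swap.IsDel ((-1 : K) • D) := by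
  have hZ := h.Z_ne
  constructor
  · rw [Derivation.smul_apply]
    change (-1 : K) • D q.B = 0
    rw [hd.hB, smul_zero]
  · have e : q.swap.Z = q.Z⁻¹ := by simp [Quad.swap]
    rw [e, Derivation.smul_apply, D.leibniz_inv, hd.hZ]
    simp only [Quad.swap, smul_eq_mul]
    field_simp

end

/-- the cube of the value of a functional at `∂`, divided by `B`, is the same on all charts -/
theorem inv_rot {q : Quad K} (h : q.Good) (t : K) :
    (q.D / q.B * t) ^ 3 / q.rot.B = t ^ 3 / q.B := by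
  have hB := h.B_ne
  have hD := h.D_ne
  have hB1 := h.B1_ne
  have h3 : q.D ^ 3 = -(q.B * (1 + q.B)) := by linear_combination h.hD
  simp only [Quad.rot]
  rw [mul_pow, div_pow, h3]
  field_simp

theorem exists_del (q : Quad K) (h : q.Good) (D : Derivation ℂ K K) (hd : q.IsDel D)
    (th : Derivation ℂ K K →ₗ[K] K) (s : Fin 3 × Bool) :
    ∃ D' : Derivation ℂ K K, (q.quad s).IsDel D' ∧
      ((th D') ^ 3 / (q.quad s).B = (th D) ^ 3 / q.B ∨
        (th D') ^ 3 / (q.quad s).B = -((th D) ^ 3 / q.B)) := by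
  have h0 : ∀ i : Fin 3, ∃ D' : Derivation ℂ K K, (q.quad0 i).IsDel D' ∧
      (th D') ^ 3 / (q.quad0 i).B = (th D) ^ 3 / q.B := by
    intro i
    have h1 := hd.rot h
    have e1 := inv_rot h (th D)
    rw [← smul_eq_mul (q.D / q.B) (th D), ← map_smul] at e1
    have e2 := inv_rot h.rot (th ((q.D / q.B) • D))
    rw [← smul_eq_mul (q.rot.D / q.rot.B) (th _), ← map_smul] at e2
    fin_cases i
    · exact ⟨D, hd, rfl⟩
    · exact ⟨_, h1, e1⟩
    · exact ⟨_, h1.rot h.rot, e2.trans e1⟩
  obtain ⟨i, b⟩ := s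
  obtain ⟨D', h1, h2⟩ := h0 i
  cases b
  · exact ⟨D', h1, Or.inl h2⟩
  · refine ⟨(-1 : K) • D', h1.swap (h.quad0 i), Or.inr ?_⟩
    rw [map_smul, smul_eq_mul]
    change (-1 * th D') ^ 3 / (q.quad0 i).B = _
    rw [← h2]
    ring

/-- **No finite morphism to a group scheme.** -/
theorem Good.not_finite {q : Quad K} (h : q.Good) (G : Over (Spec (.of ℂ))) [GrpObj G]
    (g : Over.mk q.str ⟶ G) : ¬ IsFinite g.left := by
  intro hg
  have hxi : q.pt ≫ q.str = Spec.map (CommRingCat.ofHom (algebraMap ℂ K)) := pt_str _ _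
  obtain ⟨I, th, h1, h2⟩ := exists_theta' q.str q.pt hxi (q.quad (0, false)).AC (h.ch (0, false))
    (h.ch_pt (0, false)) G g hg
  obtain ⟨D, hDB, hDZ⟩ := M21.XP.exists_der h.ai 0 (q.B * q.Y ^ 2)
  have hd : q.IsDel D := ⟨hDB, hDZ⟩
  have hzero : ∀ i, th i D = 0 := by
    intro i
    have hmem : ∀ s, (th i D) ^ 3 / q.B ∈ (q.quad s).AC := by
      intro s
      obtain ⟨D', hd', hs⟩ := exists_del q h D hd (th i) s
      have h3 : th i D' ∈ (q.quad s).AC :=
        h1 i _ (h.ch s) (h.ch_pt s) D' (hd'.ac (h.quad s))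
      have h4 : (q.quad s).B⁻¹ ∈ (q.quad s).AC := Algebra.subset_adjoin (by simp)
      have h5 : (th i D') ^ 3 / (q.quad s).B ∈ (q.quad s).AC := by
        rw [div_eq_mul_inv]
        exact mul_mem (pow_mem h3 3) h4
      rcases hs with hs | hs
      · rw [← hs]; exact h5
      · rw [hs] at h5
        simpa using neg_mem h5
    obtain ⟨c, hc⟩ := exists_const q.str q.pt hxi (fun s => (q.quad s).AC) h.ch h.ch_pt h.ch_cover
      _ hmem
    have h6 : (th i D) ^ 3 = algebraMap ℂ K c * q.B := by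
      rw [← hc, div_mul_cancel₀ _ h.B_ne]
    have h7 : th i D ∈ q.AC := h1 i _ (h.ch (0, false)) (h.ch_pt (0, false)) D (hd.ac h)
    have h8 := h.not_cube _ h7 c h6
    rw [h8, map_zero, zero_mul] at h6
    exact pow_eq_zero_iff (by norm_num) |>.mp h6
  have hZ : q.Z ∈ (q.quad (0, false)).AC := Algebra.subset_adjoin (by simp [Quad.quad, Quad.quad0])
  have h9 := h2 D hzero q.Z hZ
  rw [hDZ] at h9
  exact mul_ne_zero h.B_ne (pow_ne_zero 2 h.Y_ne) h9

/-- **The Albanese morphism of the surface is not finite** (for every field `K`). -/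
theorem Good.albaneseNotFinite' {q : Quad K} (h : q.Good) : M21.AlbaneseNotFinite q.str :=
  fun A _ _ g => h.not_finite A g

theorem Good.albaneseNotFinite {q : Quad K} (h : q.Good)
    (_ht : IsTranscendenceBasis ℂ ![q.B, q.Z]) : M21.AlbaneseNotFinite q.str :=
  h.albaneseNotFinite'

end Quad

/-- There is a good quadruple in a field which is algebraic over `ℂ(B, Z)`. -/
theorem exists_good_basis : ∃ (K : Type) (_ : Field K) (_ : Algebra ℂ K) (q : Quad K), q.Good ∧
    IsTranscendenceBasis ℂ ![q.B, q.Z] := by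
  let F := FractionRing (MvPolynomial (Fin 2) ℂ)
  let K := AlgebraicClosure F
  let B : K := algebraMap F K (algebraMap (MvPolynomial (Fin 2) ℂ) F (MvPolynomial.X 0))
  let Z : K := algebraMap F K (algebraMap (MvPolynomial (Fin 2) ℂ) F (MvPolynomial.X 1))
  obtain ⟨D, hD⟩ := IsAlgClosed.exists_pow_nat_eq (-(B ^ 2 + B)) (n := 3) (by norm_num)
  obtain ⟨Y, hY⟩ := IsAlgClosed.exists_pow_nat_eq (-(1 + Z ^ 3) / B) (n := 3) (by norm_num)
  have ht : IsTranscendenceBasis ℂ ![B, Z] := by
    have h0 := IsTranscendenceBasis.mvPolynomial (Fin 2) ℂ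
    have hF : Algebra.IsAlgebraic (MvPolynomial (Fin 2) ℂ) K :=
      (IsFractionRing.comap_isAlgebraic_iff (A := MvPolynomial (Fin 2) ℂ) (K := F) (C := K)).mpr
        inferInstance
    have hinj : FaithfulSMul (MvPolynomial (Fin 2) ℂ) K :=
      FaithfulSMul.trans (MvPolynomial (Fin 2) ℂ) F K
    have h2 := h0.algebraMap_comp (A := K)
    convert h2 using 1
    ext i
    fin_cases i <;> rfl
  have hai : AlgebraicIndependent ℂ ![B, Z] := ht.1
  have hB : B ≠ 0 := by
    have h := ((ai_iff _ _).mp hai).1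
    rintro h0
    rw [h0] at h
    exact h isAlgebraic_zero
  refine ⟨K, inferInstance, inferInstance, ⟨B, D, Y, Z⟩, ⟨hai, ?_, ?_⟩, ht⟩
  · change D ^ 3 + B ^ 2 + B = 0
    rw [hD]
    ring
  · change 1 + B * Y ^ 3 + Z ^ 3 = 0
    rw [hY, mul_div_cancel₀ _ hB]
    ring

end

end M21X
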