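import Pool.Agent.H.MP_21b43d_ag.X.Surf
import Pool.Agent.H.MP_21b43d_ag.X.Alb7
import Pool.Agent.H.MP_21b43d_ag.Fin

/-!
# M6 / X-part: all stability conditions on the bielliptic surface are geometric
-/

set_option autoImplicit false

open CategoryTheory AlgebraicGeometry

namespace M21X

open M21

noncomputable section

/-- **The bielliptic surface**: a smooth projective surface whose Albanese morphism is not finite,
and which satisfies condition (Y). -/
theorem exists_surface : ∃ (X : Scheme.{0}) (f : X ⟶ Spec (.of ℂ)),
    IsSmoothProjectiveSurface f ∧ AlbaneseNotFinite f ∧ CondY X := by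
  obtain ⟨K, _, _, q, h⟩ := exists_good
  exact ⟨q.XX, q.str, h.isSmoothProjectiveSurface, h.albaneseNotFinite', h.condY⟩

/-- There is a smooth projective surface whose Albanese morphism is not finite on which all
stability conditions are geometric. -/
theorem exists_geometric_surface : ∃ (X : Scheme.{0}) (f : X ⟶ Spec (.of ℂ))
    (_ : IsLocallyNoetherian X), IsSmoothProjectiveSurface f ∧ AlbaneseNotFinite f ∧
      ∀ σ : StabilityCondition f, σ.IsGeometric := by
  obtain ⟨X, f, hf, ha, hY⟩ := exists_surface
  have hl := locCond_of_surface f hf
  have hN := hl.noeth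
  exact ⟨X, f, hN, hf, ha, fun σ => theoremE f hl hY σ⟩

end

end M21X
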