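import Pool.Agent.H.MP_21b43d_ag.X.Two
import Pool.Agent.H.MP_21b43d_ag.X.Six3

/-!
# M6 / X-part: values of fractions of homogeneous polynomials on the closure of a `K`-point
-/

set_option autoImplicit false

open CategoryTheory AlgebraicGeometry TopologicalSpace MvPolynomial

namespace M21X

noncomputable section

theorem mem_basicOpen_awayToSection {N : ℕ} (f g : MvPolynomial (Fin (N + 1)) ℂ) {d e : ℕ}
    (hd : f ∈ gr N d) (he : g ∈ gr N e) (h0 : 0 < d) (h0' : 0 < e) (y : PP N)
    (hy : y ∈ Proj.basicOpen (gr N) f) :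
    y ∈ (PP N).basicOpen (U := Proj.basicOpen (gr N) f) (Proj.awayToSection (gr N) f
      (HomogeneousLocalization.Away.isLocalizationElem hd he)) ↔ y ∈ Proj.basicOpen (gr N) g := by
  have hA := Proj.isAffineOpen_basicOpen (gr N) f hd h0
  have h1 : hA.fromSpec (hA.primeIdealOf ⟨y, hy⟩) = y := hA.fromSpec_primeIdealOf ⟨y, hy⟩
  set r := hA.primeIdealOf ⟨y, hy⟩ with hr
  have h2 : hA.fromSpec r ∈ (PP N).basicOpen (U := Proj.basicOpen (gr N) f)
      (Proj.awayToSection (gr N) f (HomogeneousLocalization.Away.isLocalizationElem hd he)) ↔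
      r ∈ PrimeSpectrum.basicOpen (Proj.awayToSection (gr N) f
        (HomogeneousLocalization.Away.isLocalizationElem hd he)) := by
    rw [← hA.fromSpec_preimage_basicOpen]
    rfl
  have h3 : hA.fromSpec r ∈ Proj.basicOpen (gr N) g ↔
      (Spec.map (Proj.awayToSection (gr N) f)) r ∈
        (Proj.awayι (gr N) f hd h0) ⁻¹ᵁ Proj.basicOpen (gr N) g := by
    rw [← awayToSection_awayι f hd h0]
    rfl
  rw [← h1, h2, h3, Proj.awayι_preimage_basicOpen (gr N) hd h0 he h0']
  rfl

variable {N : ℕ} {K : Type} [Field K] [Algebra ℂ K] (v : Fin (N + 1) → K) (hv : v 0 ≠ 0)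

/-- functions of a chart are regular on it -/
theorem val_of_RR (f : MvPolynomial (Fin (N + 1)) ℂ) (hf : aeval v f ≠ 0) {d : ℕ}
    (hd : f ∈ gr N d) (h0 : 0 < d) (z : XX v hv) (hz : z ∈ UU v hv f) {x : K}
    (hx : x ∈ RR v f hf) : ∃ a, Val (XX.pt v hv) z x a := by
  rw [← rho_range v hv f hf hd h0] at hx
  obtain ⟨s, rfl⟩ := hx
  exact ⟨_, UU v hv f, hz, _, s, rfl, rfl⟩

theorem aeval_ne_of_mem {f : MvPolynomial (Fin (N + 1)) ℂ} {d : ℕ} (hd : f ∈ gr N d) (h0 : 0 < d)
    {z : XX v hv} (hz : z ∈ UU v hv f) : aeval v f ≠ 0 := fun h =>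
  Quad.not_mem_of_aeval_eq_zero v hv f hd h0 h z hz

/-- the value of a fraction of linear forms -/
theorem val_lin {f g : MvPolynomial (Fin (N + 1)) ℂ} (hf : f ∈ gr N 1) (hg : g ∈ gr N 1)
    {z : XX v hv} (hz : z ∈ UU v hv f) :
    ∃ a, Val (XX.pt v hv) z (aeval v g / aeval v f) a ∧ (a = 0 ↔ z ∉ UU v hv g) := by
  have hf0 := aeval_ne_of_mem v hv hf one_pos hz
  have hU := pt_mem_UU v hv f hf0 hf one_pos
  have h1 := rho_emb v hv f hf0 hf one_pos (Proj.awayToSection (gr N) f
      (HomogeneousLocalization.Away.isLocalizationElem hf hg))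
  have h2 := evA_eq v hv f hf0 hf one_pos (xiP_top_le v hv f hf0 hf one_pos)
  have h3 : rho (xiP v hv) _ (xiP_top_le v hv f hf0 hf one_pos) (Proj.awayToSection (gr N) f
      (HomogeneousLocalization.Away.isLocalizationElem hf hg)) = aeval v g / aeval v f := by
    have h4 : rho (xiP v hv) _ (xiP_top_le v hv f hf0 hf one_pos) (Proj.awayToSection (gr N) f
      (HomogeneousLocalization.Away.isLocalizationElem hf hg)) =
      evA v f hf0 (HomogeneousLocalization.Away.isLocalizationElem hf hg) := by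
      rw [← h2]
      rfl
    rw [h4]
    have h5 := evA_mk v f hf0 hf 1 (g ^ 1) (by simpa using hg)
    simp only [pow_one] at h5
    rw [← h5]
    congr 1
    simp [HomogeneousLocalization.Away.isLocalizationElem]
  rw [h3] at h1
  refine ⟨_, ⟨UU v hv f, hz, hU, _, h1, rfl⟩, ?_⟩
  have h6 := Scheme.evaluation_eq_zero_iff_notMem_basicOpen (XX v hv) z hz
    ((XX.emb v hv).app _ (Proj.awayToSection (gr N) f
      (HomogeneousLocalization.Away.isLocalizationElem hf hg)))
  refine h6.trans (not_congr ?_)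
  have h7 := Scheme.preimage_basicOpen (XX.emb v hv) (U := Proj.basicOpen (gr N) f)
    (Proj.awayToSection (gr N) f (HomogeneousLocalization.Away.isLocalizationElem hf hg))
  have h8 := mem_basicOpen_awayToSection f g hf hg one_pos one_pos (XX.emb v hv z) hz
  exact (SetLike.ext_iff.1 h7 z).symm.trans h8

end

end M21X
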