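import Mathlib

/-!
# M6 / X-part, file 5: the ring of the charts, by generators and relations

`AA = ℂ[b, b', d, y, z] / (b b' - 1, d³ + b² + b, 1 + b y³ + z³)`.
-/

set_option autoImplicit false

open MvPolynomial

namespace M21X

noncomputable section

/-- the ideal of relations -/
def II : Ideal (MvPolynomial (Fin 5) ℂ) :=
  Ideal.span {X 0 * X 1 - 1, X 2 ^ 3 + X 0 ^ 2 + X 0, 1 + X 0 * X 3 ^ 3 + X 4 ^ 3}

/-- the ring of the charts -/
abbrev AA : Type := MvPolynomial (Fin 5) ℂ ⧸ II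

namespace AA

/-- the generator `b` -/
def b : AA := Ideal.Quotient.mk II (X 0)
/-- the generator `b' = 1/b` -/
def b' : AA := Ideal.Quotient.mk II (X 1)
/-- the generator `d` -/
def d : AA := Ideal.Quotient.mk II (X 2)
/-- the generator `y` -/
def y : AA := Ideal.Quotient.mk II (X 3)
/-- the generator `z` -/
def z : AA := Ideal.Quotient.mk II (X 4)

theorem b_mul : b * b' = 1 := by
  rw [← sub_eq_zero, b, b', ← map_mul, ← map_one (Ideal.Quotient.mk II), ← map_sub,
    Ideal.Quotient.eq_zero_iff_mem]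
  exact Ideal.subset_span (by simp)

theorem rel1 : d ^ 3 + b ^ 2 + b = 0 := by
  rw [b, d, ← map_pow, ← map_pow, ← map_add, ← map_add, Ideal.Quotient.eq_zero_iff_mem]
  exact Ideal.subset_span (by simp)

theorem rel2 : 1 + b * y ^ 3 + z ^ 3 = 0 := by
  rw [b, y, z, ← map_pow, ← map_pow, ← map_mul, ← map_one (Ideal.Quotient.mk II), ← map_add,
    ← map_add, Ideal.Quotient.eq_zero_iff_mem]
  exact Ideal.subset_span (by simp)

/-- homomorphisms out of `AA` -/
def lift {R : Type*} [CommRing R] [Algebra ℂ R] (B B' D Y Z : R) (h0 : B * B' = 1)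
    (h1 : D ^ 3 + B ^ 2 + B = 0) (h2 : 1 + B * Y ^ 3 + Z ^ 3 = 0) : AA →ₐ[ℂ] R :=
  Ideal.Quotient.liftₐ II (aeval ![B, B', D, Y, Z]) (by
    intro a ha
    have hle : II ≤ RingHom.ker (aeval ![B, B', D, Y, Z] : MvPolynomial (Fin 5) ℂ →ₐ[ℂ] R) := by
      rw [II, Ideal.span_le]
      rintro p (rfl | rfl | rfl)
      · simp [h0]
      · simp [h1]
      · simp [h2]
    exact hle ha)

section lift

variable {R : Type*} [CommRing R] [Algebra ℂ R] {B B' D Y Z : R} (h0 : B * B' = 1)
    (h1 : D ^ 3 + B ^ 2 + B = 0) (h2 : 1 + B * Y ^ 3 + Z ^ 3 = 0)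

@[simp] theorem lift_b : lift B B' D Y Z h0 h1 h2 b = B := by
  change aeval ![B, B', D, Y, Z] (X 0 : MvPolynomial (Fin 5) ℂ) = _
  simp

@[simp] theorem lift_b' : lift B B' D Y Z h0 h1 h2 b' = B' := by
  change aeval ![B, B', D, Y, Z] (X 1 : MvPolynomial (Fin 5) ℂ) = _
  simp

@[simp] theorem lift_d : lift B B' D Y Z h0 h1 h2 d = D := by
  change aeval ![B, B', D, Y, Z] (X 2 : MvPolynomial (Fin 5) ℂ) = _
  simp

@[simp] theorem lift_y : lift B B' D Y Z h0 h1 h2 y = Y := by
  change aeval ![B, B', D, Y, Z] (X 3 : MvPolynomial (Fin 5) ℂ) = _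
  simp

@[simp] theorem lift_z : lift B B' D Y Z h0 h1 h2 z = Z := by
  change aeval ![B, B', D, Y, Z] (X 4 : MvPolynomial (Fin 5) ℂ) = _
  simp

end lift

/-- two homomorphisms out of `AA` agreeing on the generators are equal -/
theorem hom_ext {R : Type*} [CommRing R] [Algebra ℂ R] {f g : AA →ₐ[ℂ] R} (hb : f b = g b)
    (hb' : f b' = g b') (hd : f d = g d) (hy : f y = g y) (hz : f z = g z) : f = g := by
  apply Ideal.Quotient.algHom_ext
  apply MvPolynomial.algHom_ext
  intro i
  fin_cases i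
  · exact hb
  · exact hb'
  · exact hd
  · exact hy
  · exact hz

/-- A subalgebra containing the generators is everything. -/
theorem adjoin_eq_top : Algebra.adjoin ℂ {b, b', d, y, z} = ⊤ := by
  rw [eq_top_iff]
  rintro x -
  obtain ⟨p, rfl⟩ := Ideal.Quotient.mk_surjective x
  have h : ∀ i : Fin 5, Ideal.Quotient.mk II (X i) ∈ Algebra.adjoin ℂ {b, b', d, y, z} := by
    intro i
    apply Algebra.subset_adjoin
    fin_cases i <;> simp [b, b', d, y, z]
  induction p using MvPolynomial.induction_on with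
  | C a => exact Subalgebra.algebraMap_mem _ a
  | add p q hp hq => rw [map_add]; exact add_mem hp hq
  | mul_X p i hp => rw [map_mul]; exact mul_mem hp (h i)

/-- **Normal form**: every element of `AA` is, up to a power of the unit `b`, a combination of the
`dⁱ yʲ`, `i, j < 3`, with coefficients polynomials in `b` and `z`. -/
theorem normal_form (x : AA) : ∃ (n : ℕ) (p : Fin 3 → Fin 3 → MvPolynomial (Fin 2) ℂ),
    b ^ n * x = ∑ i, ∑ j, aeval ![b, z] (p i j) * (d ^ (i : ℕ) * y ^ (j : ℕ)) := by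
  have h1 := rel1
  have h2 := rel2
  have h3 := b_mul
  have e0 : ((0 : Fin 3) : ℕ) = 0 := rfl
  have e1 : ((1 : Fin 3) : ℕ) = 1 := rfl
  have e2 : ((2 : Fin 3) : ℕ) = 2 := rfl
  obtain ⟨q, rfl⟩ := Ideal.Quotient.mk_surjective x
  induction q using MvPolynomial.induction_on with
  | C a =>
    refine ⟨0, fun i j => if i = 0 ∧ j = 0 then C a else 0, ?_⟩
    have : (Ideal.Quotient.mk II) (C a) = algebraMap ℂ AA a := rfl
    rw [this]
    simp [Fin.sum_univ_three]
  | add p q hp hq =>
    obtain ⟨n, p', hp⟩ := hp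
    obtain ⟨m, q', hq⟩ := hq
    refine ⟨n + m, fun i j => X 0 ^ m * p' i j + X 0 ^ n * q' i j, ?_⟩
    rw [map_add]
    simp only [Fin.sum_univ_three, map_add, map_mul, map_pow, aeval_X, Matrix.cons_val_zero]
      at hp hq ⊢
    linear_combination b ^ m * hp + b ^ n * hq
  | mul_X p i hp =>
    obtain ⟨n, p', hp⟩ := hp
    rw [map_mul]
    simp only [Fin.sum_univ_three, e0, e1, e2] at hp
    fin_cases i
    · -- multiplication by b
      change ∃ (n : ℕ) (q : Fin 3 → Fin 3 → MvPolynomial (Fin 2) ℂ),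
        b ^ n * (Ideal.Quotient.mk II p * b) = _
      refine ⟨n, fun i j => X 0 * p' i j, ?_⟩
      simp only [Fin.sum_univ_three, map_mul, aeval_X, Matrix.cons_val_zero, e0, e1, e2]
      linear_combination b * hp
    · change ∃ (n : ℕ) (q : Fin 3 → Fin 3 → MvPolynomial (Fin 2) ℂ),
        b ^ n * (Ideal.Quotient.mk II p * b') = _
      refine ⟨n + 1, fun i j => p' i j, ?_⟩
      simp only [Fin.sum_univ_three, e0, e1, e2]
      linear_combination hp + b ^ n * (Ideal.Quotient.mk II p) * h3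
    · change ∃ (n : ℕ) (q : Fin 3 → Fin 3 → MvPolynomial (Fin 2) ℂ),
        b ^ n * (Ideal.Quotient.mk II p * d) = _
      refine ⟨n, ![fun j => - (X 0 ^ 2 + X 0) * p' 2 j, p' 0, p' 1], ?_⟩
      simp only [Fin.sum_univ_three, map_mul, map_neg, map_add, map_pow, aeval_X,
        Matrix.cons_val_zero, Matrix.cons_val_one, Matrix.cons_val_two, Matrix.head_cons,
        Matrix.tail_cons, e0, e1, e2]
      linear_combination d * hp + (aeval ![b, z] (p' 2 0) * y ^ 0 +
        aeval ![b, z] (p' 2 1) * y ^ 1 +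
        aeval ![b, z] (p' 2 2) * y ^ 2) * h1
    · change ∃ (n : ℕ) (q : Fin 3 → Fin 3 → MvPolynomial (Fin 2) ℂ),
        b ^ n * (Ideal.Quotient.mk II p * y) = _
      refine ⟨n + 1, fun i => ![- (1 + X 1 ^ 3) * p' i 2, X 0 * p' i 0, X 0 * p' i 1], ?_⟩
      simp only [Fin.sum_univ_three, map_mul, map_neg, map_add, map_pow, map_one, aeval_X,
        Matrix.cons_val_zero, Matrix.cons_val_one, Matrix.cons_val_two, Matrix.head_cons,
        Matrix.tail_cons, e0, e1, e2]
      linear_combination b * y * hp + (aeval ![b, z] (p' 0 2) * d ^ 0 +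
        aeval ![b, z] (p' 1 2) * d ^ 1 +
        aeval ![b, z] (p' 2 2) * d ^ 2) * h2
    · change ∃ (n : ℕ) (q : Fin 3 → Fin 3 → MvPolynomial (Fin 2) ℂ),
        b ^ n * (Ideal.Quotient.mk II p * z) = _
      refine ⟨n, fun i j => X 1 * p' i j, ?_⟩
      simp only [Fin.sum_univ_three, map_mul, aeval_X, Matrix.cons_val_one, Matrix.cons_val_zero,
        e0, e1, e2]
      linear_combination z * hp

end AA

end

end M21X
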