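import Pool.Agent.H.MP_21b43d_ag.X.AA
import Pool.Agent.H.MP_21b43d_ag.X.Kum2

/-!
# M6 / X-part: the chart ring `q.AC ⊆ K` of a good quadruple is the ring `AA`
-/

set_option autoImplicit false

namespace M21X

noncomputable section

namespace Quad

variable {K : Type} [Field K] [Algebra ℂ K] {q : Quad K}

/-- the homomorphism `AA → K` given by a good quadruple -/
def Good.hom (h : q.Good) : AA →ₐ[ℂ] K :=
  AA.lift q.B q.B⁻¹ q.D q.Y q.Z (mul_inv_cancel₀ h.B_ne) h.hD h.hY

@[simp] theorem Good.hom_b (h : q.Good) : h.hom AA.b = q.B := AA.lift_b _ _ _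
@[simp] theorem Good.hom_b' (h : q.Good) : h.hom AA.b' = q.B⁻¹ := AA.lift_b' _ _ _
@[simp] theorem Good.hom_d (h : q.Good) : h.hom AA.d = q.D := AA.lift_d _ _ _
@[simp] theorem Good.hom_y (h : q.Good) : h.hom AA.y = q.Y := AA.lift_y _ _ _
@[simp] theorem Good.hom_z (h : q.Good) : h.hom AA.z = q.Z := AA.lift_z _ _ _

theorem Good.hom_range (h : q.Good) : h.hom.range = q.AC := by
  rw [← Algebra.map_top, ← AA.adjoin_eq_top, AlgHom.map_adjoin]
  congr 1
  simp [Set.image_insert_eq]

theorem aeval_mem_FF (q : Quad K) (p : MvPolynomial (Fin 2) ℂ) :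
    MvPolynomial.aeval ![q.B, q.Z] p ∈ q.FF := by
  induction p using MvPolynomial.induction_on with
  | C a => rw [MvPolynomial.aeval_C]; exact q.FF.algebraMap_mem a
  | add p r hp hr => rw [map_add]; exact add_mem hp hr
  | mul_X p i hp =>
    rw [map_mul, MvPolynomial.aeval_X]
    refine mul_mem hp ?_
    fin_cases i
    · exact q.B_mem
    · exact q.Z_mem

theorem Good.hom_injective (h : q.Good) : Function.Injective h.hom := by
  rw [injective_iff_map_eq_zero]
  intro x hx
  obtain ⟨n, p, hp⟩ := AA.normal_form x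
  have h1 := congrArg h.hom hp
  rw [map_mul, hx, mul_zero, map_sum] at h1
  have h2 : ∀ i j : Fin 3, h.hom (MvPolynomial.aeval ![AA.b, AA.z] (p i j)) =
      MvPolynomial.aeval ![q.B, q.Z] (p i j) := by
    intro i j
    have e : (fun k => h.hom (![AA.b, AA.z] k)) = ![q.B, q.Z] := by
      ext k
      fin_cases k <;> simp
    rw [MvPolynomial.comp_aeval_apply, e]
  have h3 := h.indep (fun i j => ⟨_, q.aeval_mem_FF (p i j)⟩) (by
    rw [eq_comm] at h1
    refine Eq.trans ?_ h1
    refine Finset.sum_congr rfl fun i _ => ?_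
    rw [map_sum]
    refine Finset.sum_congr rfl fun j _ => ?_
    rw [map_mul, h2, map_mul, map_pow, map_pow, h.hom_d, h.hom_y])
  have h4 : ∀ i j, p i j = 0 := by
    intro i j
    have h5 : MvPolynomial.aeval ![q.B, q.Z] (p i j) = 0 := congrArg Subtype.val (h3 i j)
    exact h.ai (by rw [h5, map_zero])
  have h5 : AA.b ^ n * x = 0 := by
    rw [hp]
    simp [h4]
  have hu : IsUnit (AA.b ^ n) := (IsUnit.of_mul_eq_one _ AA.b_mul).pow n
  exact (hu.mul_right_eq_zero).mp h5

/-- the isomorphism of `AA` with the chart ring -/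
def Good.equiv (h : q.Good) : AA ≃ₐ[ℂ] q.AC :=
  (AlgEquiv.ofInjective h.hom h.hom_injective).trans (Subalgebra.equivOfEq _ _ h.hom_range)

theorem Good.equiv_val (h : q.Good) (x : AA) : (h.equiv x : K) = h.hom x := rfl

end Quad

instance instIsDomainAA : IsDomain AA := by
  obtain ⟨K, _, _, q, hq⟩ := exists_good
  exact hq.hom_injective.isDomain hq.hom.toRingHom

/-- `b, z` are algebraically independent in `AA`. -/
theorem AA.ai : AlgebraicIndependent ℂ ![AA.b, AA.z] := by
  obtain ⟨K, _, _, q, hq⟩ := exists_good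
  apply AlgebraicIndependent.of_comp hq.hom
  have e : (hq.hom ∘ ![AA.b, AA.z]) = ![q.B, q.Z] := by
    ext k
    fin_cases k <;> simp
  rw [e]
  exact hq.ai

end

end M21X
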