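import Mathlib

/-!
# M6 / X-ALB, file 1: ring homomorphisms defined by morphisms `Spec T ⟶ G` into an affine open,
the difference of two thickenings of a point of a group scheme
-/

set_option autoImplicit false

open CategoryTheory AlgebraicGeometry TopologicalSpace MonObj

namespace M21X

noncomputable section

/-! ### Sections on an affine open -/

/-- The ring homomorphism `Γ(G, V) → T` of a morphism `Spec T ⟶ G` with image in `V`. -/
def secV {G : Scheme.{0}} (V : G.Opens) {T : Type} [CommRing T] (h : Spec (.of T) ⟶ G)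
    (hV : ⊤ ≤ h ⁻¹ᵁ V) : Γ(G, V) →+* T :=
  (h.appLE V ⊤ hV ≫ (Scheme.ΓSpecIso (.of T)).hom).hom

theorem secV_comp {G : Scheme.{0}} (V : G.Opens) {T T' : Type} [CommRing T] [CommRing T']
    (h : Spec (.of T) ⟶ G) (hV : ⊤ ≤ h ⁻¹ᵁ V) (τ : T →+* T')
    (hV' : ⊤ ≤ (Spec.map (CommRingCat.ofHom τ) ≫ h) ⁻¹ᵁ V) :
    secV V (Spec.map (CommRingCat.ofHom τ) ≫ h) hV' = τ.comp (secV V h hV) := by
  have h1 : (Spec.map (CommRingCat.ofHom τ) ≫ h).appLE V ⊤ hV' ≫ (Scheme.ΓSpecIso (.of T')).hom =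
      h.appLE V ⊤ hV ≫ (Scheme.ΓSpecIso (.of T)).hom ≫ CommRingCat.ofHom τ := by
    rw [← Scheme.ΓSpecIso_naturality, ← Category.assoc]
    congr 1
  ext x
  exact congrArg (fun ψ => CommRingCat.Hom.hom ψ x) h1

theorem secV_congr {G : Scheme.{0}} (V : G.Opens) {T : Type} [CommRing T]
    {h h' : Spec (.of T) ⟶ G} (e : h = h') (hV : ⊤ ≤ h ⁻¹ᵁ V) (hV' : ⊤ ≤ h' ⁻¹ᵁ V) :
    secV V h hV = secV V h' hV' := by
  subst e
  rfl

theorem secV_fac {G : Scheme.{0}} (V : G.Opens) {T T' : Type} [CommRing T] [CommRing T']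
    {h : Spec (.of T) ⟶ G} {h' : Spec (.of T') ⟶ G} (τ : T →+* T')
    (e : h' = Spec.map (CommRingCat.ofHom τ) ≫ h) (hV : ⊤ ≤ h ⁻¹ᵁ V) (hV' : ⊤ ≤ h' ⁻¹ᵁ V) :
    secV V h' hV' = τ.comp (secV V h hV) := by
  subst e
  exact secV_comp V h hV τ hV'

theorem secV_injective {G : Scheme.{0}} {V : G.Opens} (haff : IsAffineOpen V) {T : Type}
    [CommRing T] {h h' : Spec (.of T) ⟶ G} (hV : ⊤ ≤ h ⁻¹ᵁ V) (hV' : ⊤ ≤ h' ⁻¹ᵁ V)
    (e : secV V h hV = secV V h' hV') : h = h' := by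
  have e1 : h.appLE V ⊤ hV = h'.appLE V ⊤ hV' := by
    have : h.appLE V ⊤ hV ≫ (Scheme.ΓSpecIso (.of T)).hom =
        h'.appLE V ⊤ hV' ≫ (Scheme.ΓSpecIso (.of T)).hom := by
      ext x
      exact congrArg (fun ψ : Γ(G, V) →+* T => ψ x) e
    exact (cancel_mono _).mp this
  have h1 := haff.SpecMap_appLE_fromSpec h (isAffineOpen_top (Spec (.of T))) hV
  have h2 := haff.SpecMap_appLE_fromSpec h' (isAffineOpen_top (Spec (.of T))) hV'
  rw [e1, h2, IsAffineOpen.fromSpec_top] at h1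
  exact ((cancel_epi _).mp h1).symm

/-! ### Objects over `Spec ℂ` -/

/-- `Spec T` as an object over `Spec ℂ`. -/
def SO (T : Type) [CommRing T] [Algebra ℂ T] : Over (Spec (.of ℂ)) :=
  Over.mk (Spec.map (CommRingCat.ofHom (algebraMap ℂ T)))

/-- The morphism over `Spec ℂ` of a homomorphism of `ℂ`-algebras. -/
def SM {T T' : Type} [CommRing T] [Algebra ℂ T] [CommRing T'] [Algebra ℂ T'] (τ : T →ₐ[ℂ] T') :
    SO T' ⟶ SO T :=
  Over.homMk (Spec.map (CommRingCat.ofHom τ.toRingHom)) (by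
    change Spec.map _ ≫ Spec.map _ = Spec.map _
    rw [← Spec.map_comp]
    congr 1
    ext c
    exact τ.commutes c)

theorem SM_left {T T' : Type} [CommRing T] [Algebra ℂ T] [CommRing T'] [Algebra ℂ T']
    (τ : T →ₐ[ℂ] T') : (SM τ).left = Spec.map (CommRingCat.ofHom τ.toRingHom) := rfl

theorem SM_comp {T T' T'' : Type} [CommRing T] [Algebra ℂ T] [CommRing T'] [Algebra ℂ T']
    [CommRing T''] [Algebra ℂ T''] (τ : T →ₐ[ℂ] T') (τ' : T' →ₐ[ℂ] T'') :
    SM τ' ≫ SM τ = SM (τ'.comp τ) := by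
  apply Over.OverMorphism.ext
  change Spec.map _ ≫ Spec.map _ = Spec.map _
  rw [← Spec.map_comp]
  rfl

variable (G : Over (Spec (.of ℂ))) [GrpObj G]

/-- The unit point of a group scheme. -/
def e0 : G.left :=
  (1 : SO ℂ ⟶ G).left (IsLocalRing.closedPoint ℂ : PrimeSpectrum ℂ)

theorem one_left_apply (T : Type) [CommRing T] [Algebra ℂ T] (p : (Spec (.of T) : Scheme.{0})) :
    (1 : SO T ⟶ G).left p = e0 G := by
  have h : (1 : SO T ⟶ G) = SM (Algebra.ofId ℂ T) ≫ (1 : SO ℂ ⟶ G) := (comp_one _).symm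
  have h2 : (1 : SO T ⟶ G).left = (SM (Algebra.ofId ℂ T)).left ≫ (1 : SO ℂ ⟶ G).left := by
    rw [h]
    rfl
  have h3 : (1 : SO T ⟶ G).left p = (1 : SO ℂ ⟶ G).left ((SM (Algebra.ofId ℂ T)).left p) := by
    rw [h2]
    rfl
  rw [h3, e0]
  congr 1
  exact Subsingleton.elim (α := PrimeSpectrum ℂ) _ _

/-- The difference of the restrictions of `g` along two homomorphisms. -/
def dif {R T : Type} [CommRing R] [Algebra ℂ R] [CommRing T] [Algebra ℂ T] (g : SO R ⟶ G)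
    (e e' : R →ₐ[ℂ] T) : SO T ⟶ G :=
  (SM e ≫ g) * (SM e' ≫ g)⁻¹

theorem SM_dif {R T T' : Type} [CommRing R] [Algebra ℂ R] [CommRing T] [Algebra ℂ T]
    [CommRing T'] [Algebra ℂ T'] (g : SO R ⟶ G) (e e' : R →ₐ[ℂ] T) (τ : T →ₐ[ℂ] T') :
    SM τ ≫ dif G g e e' = dif G g (τ.comp e) (τ.comp e') := by
  rw [dif, dif, comp_mul, GrpObj.comp_inv, ← Category.assoc, ← Category.assoc, SM_comp, SM_comp]

theorem dif_SM {R R' T : Type} [CommRing R] [Algebra ℂ R] [CommRing R'] [Algebra ℂ R']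
    [CommRing T] [Algebra ℂ T] (g : SO R ⟶ G) (ρ : R →ₐ[ℂ] R') (e e' : R' →ₐ[ℂ] T) :
    dif G (SM ρ ≫ g) e e' = dif G g (e.comp ρ) (e'.comp ρ) := by
  rw [dif, dif, ← Category.assoc, ← Category.assoc, SM_comp, SM_comp]

theorem dif_self {R T : Type} [CommRing R] [Algebra ℂ R] [CommRing T] [Algebra ℂ T]
    (g : SO R ⟶ G) (e : R →ₐ[ℂ] T) : dif G g e e = 1 := by
  rw [dif, mul_inv_cancel]

theorem dif_eq_one {R T : Type} [CommRing R] [Algebra ℂ R] [CommRing T] [Algebra ℂ T]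
    {g : SO R ⟶ G} {e e' : R →ₐ[ℂ] T} (h : dif G g e e' = 1) : SM e ≫ g = SM e' ≫ g := by
  rw [dif] at h
  exact mul_inv_eq_one.mp h

/-- If `e` and `e'` agree modulo a nilpotent ideal, the difference is concentrated at the unit
point. -/
theorem dif_left_apply {R T T₀ : Type} [CommRing R] [Algebra ℂ R] [CommRing T] [Algebra ℂ T]
    [CommRing T₀] [Algebra ℂ T₀] (g : SO R ⟶ G) (e e' : R →ₐ[ℂ] T) (q : T →ₐ[ℂ] T₀)
    (hq : Function.Surjective q) (hn : ∀ x, q x = 0 → IsNilpotent x)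
    (h : q.comp e = q.comp e') (p : (Spec (.of T) : Scheme.{0})) :
    (dif G g e e').left p = e0 G := by
  have h1 : SM q ≫ dif G g e e' = 1 := by
    rw [SM_dif, h, dif_self]
  have hs : Function.Surjective (PrimeSpectrum.comap q.toRingHom) := by
    rw [← Set.range_eq_univ, range_comap_of_surjective _ _ hq, PrimeSpectrum.zeroLocus_eq_univ_iff]
    intro y hy
    exact hn y hy
  obtain ⟨p', hp'⟩ := hs p
  have h2 : ∀ p' : (Spec (.of T₀) : Scheme.{0}),
      (1 : SO T₀ ⟶ G).left p' = (dif G g e e').left ((SM q).left p') := by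
    intro p'
    rw [← h1]
    rfl
  have h3 : (dif G g e e').left ((SM q).left p') = e0 G := (h2 p').symm.trans (one_left_apply G T₀ p')
  have h4 : (SM q).left p' = p := hp'
  rw [h4] at h3
  exact h3

end

end M21X
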