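import Pool.Agent.H.MP_21b43d_ag.X.Alb1

/-!
# M6 / X-ALB, file 2: the pull-back of the invariant differentials of a group scheme,
as a linear functional on derivations
-/

set_option autoImplicit false

open CategoryTheory AlgebraicGeometry TopologicalSpace MonObj TrivSqZeroExt

namespace M21X

noncomputable section

section Ext

variable {R M N : Type} [CommRing R] [Algebra ℂ R]
  [AddCommGroup M] [Module R M] [Module Rᵐᵒᵖ M] [IsCentralScalar R M] [Module ℂ M]
  [IsScalarTower ℂ R M] [IsScalarTower ℂ Rᵐᵒᵖ M]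
  [AddCommGroup N] [Module R N] [Module Rᵐᵒᵖ N] [IsCentralScalar R N] [Module ℂ N]
  [IsScalarTower ℂ R N] [IsScalarTower ℂ Rᵐᵒᵖ N]

/-- The homomorphism `a ↦ a + D(a)` of a derivation `D : R → M`. -/
def eD (D : Derivation ℂ R M) : R →ₐ[ℂ] TrivSqZeroExt R M where
  toFun a := inl a + inr (D a)
  map_one' := by simp
  map_mul' a b := by
    ext
    · simp
    · simp [add_comm]
  map_zero' := by simp
  map_add' a b := by
    ext
    · simp
    · simp
  commutes' c := by
    ext
    · simp [algebraMap_eq_inl']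
    · simp [algebraMap_eq_inl']

theorem eD_apply (D : Derivation ℂ R M) (a : R) : eD D a = inl a + inr (D a) := rfl

theorem fst_eD (D : Derivation ℂ R M) (a : R) : (eD D a).fst = a := by simp [eD_apply]

theorem snd_eD (D : Derivation ℂ R M) (a : R) : (eD D a).snd = D a := by simp [eD_apply]

/-- The homomorphism `a ↦ a`. -/
def e00 (R M : Type) [CommRing R] [Algebra ℂ R]
    [AddCommGroup M] [Module R M] [Module Rᵐᵒᵖ M] [IsCentralScalar R M] [Module ℂ M]
    [IsScalarTower ℂ R M] [IsScalarTower ℂ Rᵐᵒᵖ M] : R →ₐ[ℂ] TrivSqZeroExt R M :=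
  inlAlgHom ℂ R M

theorem e00_apply (a : R) : e00 R M a = inl a := rfl

/-- The projection to `R`. -/
def qq (R M : Type) [CommRing R] [Algebra ℂ R]
    [AddCommGroup M] [Module R M] [Module Rᵐᵒᵖ M] [IsCentralScalar R M] [Module ℂ M]
    [IsScalarTower ℂ R M] [IsScalarTower ℂ Rᵐᵒᵖ M] : TrivSqZeroExt R M →ₐ[ℂ] R :=
  fstHom ℂ R M

theorem qq_apply (x : TrivSqZeroExt R M) : qq R M x = x.fst := rfl

theorem qq_surjective : Function.Surjective (qq R M) := fun a => ⟨inl a, fst_inl M a⟩

theorem qq_nil (x : TrivSqZeroExt R M) (h : qq R M x = 0) : IsNilpotent x := by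
  refine ⟨2, ?_⟩
  rw [qq_apply] at h
  rw [pow_two]
  ext
  · simp [h]
  · simp [h]

/-- Functoriality in the module. -/
def mM (u : M →ₗ[R] N) : TrivSqZeroExt R M →ₐ[ℂ] TrivSqZeroExt R N :=
  { (TrivSqZeroExt.map u).toRingHom with
    commutes' := fun c => by
      change TrivSqZeroExt.map u (algebraMap ℂ (TrivSqZeroExt R M) c) = _
      rw [algebraMap_eq_inl', algebraMap_eq_inl', map_inl] }

theorem mM_apply (u : M →ₗ[R] N) (x : TrivSqZeroExt R M) : mM u x = TrivSqZeroExt.map u x := rfl

theorem fst_mM (u : M →ₗ[R] N) (x : TrivSqZeroExt R M) : (mM u x).fst = x.fst := fst_map u x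

theorem snd_mM (u : M →ₗ[R] N) (x : TrivSqZeroExt R M) : (mM u x).snd = u x.snd := snd_map u x

theorem mM_comp_eD (u : M →ₗ[R] N) (D : Derivation ℂ R M) (D' : Derivation ℂ R N)
    (h : ∀ a, D' a = u (D a)) : (mM u).comp (eD D) = eD D' := by
  apply AlgHom.ext
  intro a
  ext
  · rw [AlgHom.comp_apply, fst_mM, fst_eD, fst_eD]
  · rw [AlgHom.comp_apply, snd_mM, snd_eD, snd_eD, h]

theorem mM_comp_e00 (u : M →ₗ[R] N) : (mM u).comp (e00 R M) = e00 R N := by
  apply AlgHom.ext
  intro a
  rw [AlgHom.comp_apply, e00_apply, e00_apply, mM_apply, map_inl]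

/-- The dual numbers of a subalgebra. -/
def rhoA {K : Type} [Field K] [Algebra ℂ K] (S : Subalgebra ℂ K) :
    TrivSqZeroExt S S →ₐ[ℂ] TrivSqZeroExt K K where
  toFun x := inl (x.fst : K) + inr (x.snd : K)
  map_one' := by ext <;> simp
  map_mul' a b := by ext <;> simp
  map_zero' := by ext <;> simp
  map_add' a b := by ext <;> simp
  commutes' c := by
    ext
    · simp [algebraMap_eq_inl']
    · simp [algebraMap_eq_inl']

theorem snd_rhoA {K : Type} [Field K] [Algebra ℂ K] (S : Subalgebra ℂ K)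
    (x : TrivSqZeroExt S S) : (rhoA S x).snd = (x.snd : K) := by simp [rhoA]

theorem fst_rho {K : Type} [Field K] [Algebra ℂ K] (S : Subalgebra ℂ K)
    (x : TrivSqZeroExt S S) : (rhoA S x).fst = (x.fst : K) := by simp [rhoA]

end Ext

section Lam

variable (G : Over (Spec (.of ℂ))) [GrpObj G] (V : G.left.Opens) (hV : e0 G ∈ V)

variable {R M N : Type} [CommRing R] [Algebra ℂ R]
  [AddCommGroup M] [Module R M] [Module Rᵐᵒᵖ M] [IsCentralScalar R M] [Module ℂ M]
  [IsScalarTower ℂ R M] [IsScalarTower ℂ Rᵐᵒᵖ M]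
  [AddCommGroup N] [Module R N] [Module Rᵐᵒᵖ N] [IsCentralScalar R N] [Module ℂ N]
  [IsScalarTower ℂ R N] [IsScalarTower ℂ Rᵐᵒᵖ N]

/-- The tangent vector at the unit of a derivation. -/
def del (g : SO R ⟶ G) (D : Derivation ℂ R M) : SO (TrivSqZeroExt R M) ⟶ G :=
  dif G g (eD D) (e00 R M)

include hV in
theorem del_le (g : SO R ⟶ G) (D : Derivation ℂ R M) :
    (⊤ : (Spec (.of (TrivSqZeroExt R M)) : Scheme.{0}).Opens) ≤ (del G g D).left ⁻¹ᵁ V := by
  intro p _
  have h := dif_left_apply G g (eD D) (e00 R M) (qq R M) qq_surjective qq_nil (by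
    apply AlgHom.ext
    intro a
    rw [AlgHom.comp_apply, AlgHom.comp_apply, qq_apply, qq_apply, fst_eD, e00_apply, fst_inl]) p
  change (dif G g (eD D) (e00 R M)).left p ∈ V
  rw [h]
  exact hV

include hV in
theorem one_le (T : Type) [CommRing T] [Algebra ℂ T] :
    (⊤ : (Spec (.of T) : Scheme.{0}).Opens) ≤ (1 : SO T ⟶ G).left ⁻¹ᵁ V := by
  intro p _
  change (1 : SO T ⟶ G).left p ∈ V
  rw [one_left_apply]
  exact hV

/-- The ring homomorphism of the tangent vector. -/
def lam (g : SO R ⟶ G) (D : Derivation ℂ R M) : Γ(G.left, V) →+* TrivSqZeroExt R M :=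
  secV V (del G g D).left (del_le G V hV g D)

/-- The ring homomorphism of the unit. -/
def uni (T : Type) [CommRing T] [Algebra ℂ T] : Γ(G.left, V) →+* T :=
  secV V (1 : SO T ⟶ G).left (one_le G V hV T)

theorem uni_comp {T T' : Type} [CommRing T] [Algebra ℂ T] [CommRing T'] [Algebra ℂ T']
    (τ : T →ₐ[ℂ] T') : uni G V hV T' = τ.toRingHom.comp (uni G V hV T) := by
  have e : SM τ ≫ (1 : SO T ⟶ G) = 1 := comp_one _
  have e' : (1 : SO T' ⟶ G).left =
      Spec.map (CommRingCat.ofHom τ.toRingHom) ≫ (1 : SO T ⟶ G).left := by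
    rw [← e]
    rfl
  exact secV_fac V τ.toRingHom e' _ _

theorem lam_mM (g : SO R ⟶ G) (u : M →ₗ[R] N) (D : Derivation ℂ R M) (D' : Derivation ℂ R N)
    (h : ∀ a, D' a = u (D a)) :
    lam G V hV g D' = (mM u).toRingHom.comp (lam G V hV g D) := by
  have e : SM (mM u) ≫ del G g D = del G g D' := by
    rw [del, SM_dif, mM_comp_eD u D D' h, mM_comp_e00]
    rfl
  have e' : (del G g D').left = Spec.map (CommRingCat.ofHom (mM u).toRingHom) ≫ (del G g D).left := by
    rw [← e]
    rfl
  exact secV_fac V (mM u).toRingHom e' _ _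

theorem lam_rho {K : Type} [Field K] [Algebra ℂ K] (S : Subalgebra ℂ K) (g : SO S ⟶ G)
    (D : Derivation ℂ S S) (D' : Derivation ℂ K K) (h : ∀ a : S, D' (a : K) = (D a : K)) :
    lam G V hV (SM S.val ≫ g) D' = (rhoA S).toRingHom.comp (lam G V hV g D) := by
  have e : SM (rhoA S) ≫ del G g D = del G (SM S.val ≫ g) D' := by
    rw [del, del, SM_dif, dif_SM]
    congr 1
    · apply AlgHom.ext
      intro a
      ext
      · rw [AlgHom.comp_apply, AlgHom.comp_apply, fst_rho, fst_eD, fst_eD]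
        rfl
      · rw [AlgHom.comp_apply, AlgHom.comp_apply, snd_rhoA, snd_eD, snd_eD]
        exact (h a).symm
    · apply AlgHom.ext
      intro a
      ext
      · rw [AlgHom.comp_apply, AlgHom.comp_apply, fst_rho, e00_apply, e00_apply, fst_inl, fst_inl]
        rfl
      · rw [AlgHom.comp_apply, AlgHom.comp_apply, snd_rhoA, e00_apply, e00_apply, snd_inl, snd_inl]
        rfl
  have e' : (del G (SM S.val ≫ g) D').left =
      Spec.map (CommRingCat.ofHom (rhoA S).toRingHom) ≫ (del G g D).left := by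
    rw [← e]
    rfl
  exact secV_fac V (rhoA S).toRingHom e' _ _

/-- If the tangent vector vanishes on all functions, the two thickenings agree. -/
theorem eq_of_lam (haff : IsAffineOpen V) (g : SO R ⟶ G) (D : Derivation ℂ R M)
    (h : ∀ f, (lam G V hV g D f).snd = 0) : SM (eD D) ≫ g = SM (e00 R M) ≫ g := by
  apply dif_eq_one
  apply Over.OverMorphism.ext
  refine secV_injective haff (del_le G V hV g D) (one_le G V hV _) ?_
  change lam G V hV g D = uni G V hV _
  -- the first components agree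
  have h1 : (qq R M).toRingHom.comp (lam G V hV g D) = uni G V hV R := by
    have e : SM (qq R M) ≫ del G g D = 1 := by
      rw [del, SM_dif]
      have : (qq R M).comp (eD D) = (qq R M).comp (e00 R M) := by
        apply AlgHom.ext
        intro a
        rw [AlgHom.comp_apply, AlgHom.comp_apply, qq_apply, qq_apply, fst_eD, e00_apply, fst_inl]
      rw [this, dif_self]
    have e' : (1 : SO R ⟶ G).left =
        Spec.map (CommRingCat.ofHom (qq R M).toRingHom) ≫ (del G g D).left := by
      rw [← e]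
      rfl
    exact (secV_fac V (qq R M).toRingHom e' (del_le G V hV g D) (one_le G V hV R)).symm
  have h2 : uni G V hV (TrivSqZeroExt R M) = (e00 R M).toRingHom.comp (uni G V hV R) :=
    uni_comp G V hV _
  ext f
  · rw [h2, ← h1]
    rfl
  · rw [h, h2]
    rfl

end Lam

end

end M21X
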