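import Pool.Agent.H.MP_21b43d_ag.X.Alb2

/-!
# M6 / X-ALB, file 3: a finite morphism to a group scheme has enough invariant differentials
-/

set_option autoImplicit false

open CategoryTheory AlgebraicGeometry TopologicalSpace MonObj TrivSqZeroExt

namespace M21X

noncomputable section

section Const

variable {K : Type} [Field K] [Algebra ℂ K]

/-- The field of constants of a derivation. -/
def cst (D : Derivation ℂ K K) : Subfield K where
  carrier := {x | D x = 0}
  mul_mem' := by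
    intro a b ha hb
    change D (a * b) = 0
    rw [D.leibniz, show D a = 0 from ha, show D b = 0 from hb, smul_zero, smul_zero, add_zero]
  one_mem' := D.map_one_eq_zero
  add_mem' := by
    intro a b ha hb
    change D (a + b) = 0
    rw [map_add, show D a = 0 from ha, show D b = 0 from hb, add_zero]
  zero_mem' := map_zero D
  neg_mem' := by
    intro a ha
    change D (-a) = 0
    rw [map_neg, show D a = 0 from ha, neg_zero]
  inv_mem' := by
    intro a ha
    change D a⁻¹ = 0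
    rw [D.leibniz_inv, show D a = 0 from ha, smul_zero]

theorem mem_cst (D : Derivation ℂ K K) (x : K) : x ∈ cst D ↔ D x = 0 := Iff.rfl

/-- The derivation as a derivation over its constants. -/
def cstD (D : Derivation ℂ K K) : Derivation (cst D) K K :=
  Derivation.mk'
    { toFun := D
      map_add' := map_add D
      map_smul' := fun c x => by
        change D ((c : K) * x) = (c : K) * D x
        rw [D.leibniz, show D (c : K) = 0 from c.2, smul_zero, add_zero, smul_eq_mul] }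
    (fun a b => D.leibniz a b)

theorem cstD_apply (D : Derivation ℂ K K) (x : K) : cstD D x = D x := rfl

theorem der_eq_zero (D : Derivation ℂ K K) (y : K) (h : IsAlgebraic (cst D) y) : D y = 0 := by
  have : CharZero K := charZero_of_injective_algebraMap (algebraMap ℂ K).injective
  have hi : IsIntegral (cst D) y := h.isIntegral
  have hs : (minpoly (cst D) y).Separable := (minpoly.irreducible hi).separable
  have h0 := hs.aeval_derivative_ne_zero (minpoly.aeval (cst D) y)
  have h1 := (cstD D).map_aeval (minpoly (cst D) y) y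
  rw [minpoly.aeval, map_zero, smul_eq_mul] at h1
  exact (mul_eq_zero.mp h1.symm).resolve_left h0

theorem der_eq_zero_of_isIntegralElem (D : Derivation ℂ K K) {A : Type} [CommRing A]
    (α : A →+* K) (hα : ∀ a, D (α a) = 0) (y : K) (h : α.IsIntegralElem y) : D y = 0 := by
  obtain ⟨p, hp, hy⟩ := h
  apply der_eq_zero
  let α' : A →+* cst D := α.codRestrict (cst D) hα
  refine ⟨p.map α', (hp.map α').ne_zero, ?_⟩
  rw [Polynomial.aeval_def, Polynomial.eval₂_map]
  exact hy

end Const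

section Sections

theorem secV_res {X : Scheme.{0}} {T : Type} [CommRing T] (h : Spec (.of T) ⟶ X) {W W' : X.Opens}
    (i : W' ≤ W) (hW' : ⊤ ≤ h ⁻¹ᵁ W') (hW : ⊤ ≤ h ⁻¹ᵁ W) (s : Γ(X, W)) :
    secV W' h hW' (X.presheaf.map (homOfLE i).op s) = secV W h hW s := by
  have e := Scheme.Hom.map_appLE h hW' (homOfLE i).op
  have e' : X.presheaf.map (homOfLE i).op ≫ h.appLE W' ⊤ hW' ≫ (Scheme.ΓSpecIso (.of T)).hom =
      h.appLE W ⊤ hW ≫ (Scheme.ΓSpecIso (.of T)).hom := by
    rw [← Category.assoc, e]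
  exact congrArg (fun ψ => CommRingCat.Hom.hom ψ s) e'

theorem secV_app {X Y : Scheme.{0}} (g : X ⟶ Y) {T : Type} [CommRing T] (h : Spec (.of T) ⟶ X)
    (V : Y.Opens) (hV : ⊤ ≤ h ⁻¹ᵁ (g ⁻¹ᵁ V)) (hV' : ⊤ ≤ (h ≫ g) ⁻¹ᵁ V) (s : Γ(Y, V)) :
    secV V (h ≫ g) hV' s = secV (g ⁻¹ᵁ V) h hV (g.app V s) := by
  have e' : (h ≫ g).appLE V ⊤ hV' ≫ (Scheme.ΓSpecIso (.of T)).hom =
      g.app V ≫ h.appLE (g ⁻¹ᵁ V) ⊤ hV ≫ (Scheme.ΓSpecIso (.of T)).hom := by
    rw [Scheme.Hom.comp_appLE, Category.assoc]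
  exact congrArg (fun ψ => CommRingCat.Hom.hom ψ s) e'

theorem secV_surj {X : Scheme.{0}} {R : Type} [CommRing R] (j : Spec (.of R) ⟶ X)
    [IsOpenImmersion j] (r : R) :
    ∃ (W : X.Opens) (hW : ⊤ ≤ j ⁻¹ᵁ W) (s : Γ(X, W)), secV W j hW s = r := by
  have hW : ⊤ ≤ j ⁻¹ᵁ (j ''ᵁ ⊤) := fun p _ => ⟨p, trivial, rfl⟩
  have e : (j.appLE (j ''ᵁ ⊤) ⊤ hW) = (j.appIso ⊤).hom := by
    rw [Scheme.Hom.appIso_hom]
    rfl
  have hb : IsIso (j.appLE (j ''ᵁ ⊤) ⊤ hW ≫ (Scheme.ΓSpecIso (.of R)).hom) := by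
    rw [e]
    infer_instance
  have hs := ((ConcreteCategory.isIso_iff_bijective
    (j.appLE (j ''ᵁ ⊤) ⊤ hW ≫ (Scheme.ΓSpecIso (.of R)).hom)).mp hb).2
  obtain ⟨s, hs⟩ := hs r
  exact ⟨_, hW, s, hs⟩

/-- If a derivation of `K` kills the image of `Γ(X, U)`, `U` an affine open containing the
`K`-point, it kills the image of every `Γ(X, W)`. -/
theorem der_secV {X : Scheme.{0}} {K : Type} [Field K] [Algebra ℂ K] (xi : Spec (.of K) ⟶ X)
    (D : Derivation ℂ K K) {U W : X.Opens} (hU : IsAffineOpen U) (hxU : ⊤ ≤ xi ⁻¹ᵁ U)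
    (hxW : ⊤ ≤ xi ⁻¹ᵁ W) (hD : ∀ b, D (secV U xi hxU b) = 0) (s : Γ(X, W)) :
    D (secV W xi hxW s) = 0 := by
  let p : (Spec (.of K) : Scheme.{0}) := (IsLocalRing.closedPoint K : PrimeSpectrum K)
  have hpU : xi p ∈ U := hxU (Set.mem_univ p)
  have hpW : xi p ∈ W := hxW (Set.mem_univ p)
  obtain ⟨h, hle, hmem⟩ := hU.exists_basicOpen_le ⟨xi p, hpW⟩ hpU
  have hxB : ⊤ ≤ xi ⁻¹ᵁ X.basicOpen h := by
    intro p' _
    have : p' = p := Subsingleton.elim (α := PrimeSpectrum K) _ _
    subst this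
    exact hmem
  have hloc := hU.isLocalization_basicOpen h
  obtain ⟨n, b, hb⟩ := IsLocalization.Away.surj (R := Γ(X, U)) (S := Γ(X, X.basicOpen h)) h
    (X.presheaf.map (homOfLE hle).op s)
  have hUB : X.basicOpen h ≤ U := X.basicOpen_le h
  have hres : ∀ c : Γ(X, U), secV (X.basicOpen h) xi hxB
      (algebraMap Γ(X, U) Γ(X, X.basicOpen h) c) = secV U xi hxU c := fun c =>
    secV_res xi hUB hxB hxU c
  have h1 := congrArg (secV (X.basicOpen h) xi hxB) hb
  rw [map_mul, map_pow, hres, hres, secV_res xi hle hxB hxW] at h1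
  have h2 : IsUnit (secV U xi hxU h) := by
    have hu : IsUnit (algebraMap Γ(X, U) Γ(X, X.basicOpen h) h) :=
      IsLocalization.Away.algebraMap_isUnit h
    have := hu.map (secV (X.basicOpen h) xi hxB)
    rwa [hres] at this
  have h3 : secV W xi hxW s = secV U xi hxU b * (secV U xi hxU h ^ n)⁻¹ := by
    rw [← h1, _root_.mul_assoc, mul_inv_cancel₀ (pow_ne_zero n h2.ne_zero), _root_.mul_one]
  have hm : secV W xi hxW s ∈ cst D := by
    rw [h3]
    exact mul_mem (hD b) (inv_mem (pow_mem (hD h) n))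
  exact hm

end Sections

end

end M21X
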