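import Pool.Agent.H.MP_21b43d_ag.X.Alb3

/-!
# M6 / X-ALB, file 4: `exists_theta`: functionals on the derivations of the function field defined
by a finite morphism to a group scheme
-/

set_option autoImplicit false

open CategoryTheory AlgebraicGeometry TopologicalSpace MonObj TrivSqZeroExt

namespace M21X

noncomputable section

section Theta

variable (G : Over (Spec (.of ℂ))) [GrpObj G] (V : G.left.Opens) (hV : e0 G ∈ V)
  {K : Type} [Field K] [Algebra ℂ K] (g : SO K ⟶ G)

/-- two derivations as one derivation to `K × K` -/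
def prodD (D₁ D₂ : Derivation ℂ K K) : Derivation ℂ K (K × K) :=
  Derivation.mk' (D₁.toLinearMap.prod D₂.toLinearMap) (fun a b => by
    ext
    · change D₁ (a * b) = a • D₁ b + b • D₁ a
      exact D₁.leibniz a b
    · change D₂ (a * b) = a • D₂ b + b • D₂ a
      exact D₂.leibniz a b)

theorem prodD_apply (D₁ D₂ : Derivation ℂ K K) (a : K) : prodD D₁ D₂ a = (D₁ a, D₂ a) := rfl

/-- The functional of a function on a neighbourhood of the unit. -/
def theta (f : Γ(G.left, V)) : Derivation ℂ K K →ₗ[K] K where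
  toFun D := (lam G V hV g D f).snd
  map_add' D₁ D₂ := by
    have h := lam_mM G V hV g
      (LinearMap.fst K K K + LinearMap.snd K K K) (prodD D₁ D₂) (D₁ + D₂) (fun a => rfl)
    have h1 := lam_mM G V hV g (LinearMap.fst K K K) (prodD D₁ D₂) D₁ (fun a => rfl)
    have h2 := lam_mM G V hV g (LinearMap.snd K K K) (prodD D₁ D₂) D₂ (fun a => rfl)
    rw [h, h1, h2]
    change (mM _ (lam G V hV g (prodD D₁ D₂) f)).snd = (mM _ (lam G V hV g (prodD D₁ D₂) f)).snd +
      (mM _ (lam G V hV g (prodD D₁ D₂) f)).snd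
    rw [snd_mM, snd_mM, snd_mM]
    rfl
  map_smul' c D := by
    have h := lam_mM G V hV g (c • (LinearMap.id : K →ₗ[K] K)) D (c • D) (fun a => rfl)
    rw [h]
    change (mM _ (lam G V hV g D f)).snd = c • (lam G V hV g D f).snd
    rw [snd_mM]
    rfl

theorem theta_apply (f : Γ(G.left, V)) (D : Derivation ℂ K K) :
    theta G V hV g f D = (lam G V hV g D f).snd := rfl

/-- The restriction of a derivation to a stable subalgebra. -/
def resD (S : Subalgebra ℂ K) (D : Derivation ℂ K K) (h : ∀ a ∈ S, D a ∈ S) :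
    Derivation ℂ S S :=
  Derivation.mk'
    { toFun := fun a => ⟨D a, h a a.2⟩
      map_add' := fun a b => Subtype.ext (map_add D _ _)
      map_smul' := fun c a => Subtype.ext (D.map_smul c _) }
    (fun a b => Subtype.ext (D.leibniz a b))

theorem theta_mem (f : Γ(G.left, V)) (S : Subalgebra ℂ K) (gS : SO S ⟶ G)
    (hg : SM S.val ≫ gS = g) (D : Derivation ℂ K K) (h : ∀ a ∈ S, D a ∈ S) :
    theta G V hV g f D ∈ S := by
  subst hg
  have h1 := lam_rho G V hV S gS (resD S D h) D (fun a => rfl)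
  rw [theta_apply, h1]
  change (rhoA S (lam G V hV gS (resD S D h) f)).snd ∈ S
  rw [snd_rhoA]
  exact SetLike.coe_mem _

end Theta

/-- **Invariant differentials.**  Let `X` be a complex scheme with a `K`-point `xi` through an
affine chart `R0 ⊆ K` of `X`, and `g` a finite morphism over `ℂ` to a group scheme.  There are
`K`-linear functionals on `Der_ℂ(K, K)` which map derivations preserving an affine chart `R ⊆ K` of
`X` into `R`, and whose common zeros are derivations which kill `R0`. -/
theorem exists_theta' {X : Scheme.{0}} (f : X ⟶ Spec (.of ℂ)) {K : Type} [Field K] [Algebra ℂ K]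
    (xi : Spec (.of K) ⟶ X)
    (hxi : xi ≫ f = Spec.map (CommRingCat.ofHom (algebraMap ℂ K)))
    (R0 : Subalgebra ℂ K) (j0 : Spec (.of R0) ⟶ X) [IsOpenImmersion j0]
    (hj0 : Spec.map (CommRingCat.ofHom (algebraMap R0 K)) ≫ j0 = xi)
    (G : Over (Spec (.of ℂ))) [GrpObj G] (g : Over.mk f ⟶ G) (hg : IsFinite g.left) :
    ∃ (I : Type) (theta : I → (Derivation ℂ K K →ₗ[K] K)),
      (∀ i (R : Subalgebra ℂ K) (j : Spec (.of R) ⟶ X),
        Spec.map (CommRingCat.ofHom (algebraMap R K)) ≫ j = xi →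
        ∀ D : Derivation ℂ K K, (∀ a ∈ R, D a ∈ R) → theta i D ∈ R) ∧
      (∀ D : Derivation ℂ K K, (∀ i, theta i D = 0) → ∀ r ∈ R0, D r = 0) := by
  obtain ⟨V, haff, hV, -⟩ := exists_isAffineOpen_mem_and_subset (X := G.left) (x := e0 G)
    (U := ⊤) trivial
  have hgf : g.left ≫ G.hom = f := Over.w g
  let gK : SO K ⟶ G := Over.homMk (xi ≫ g.left)
    ((Category.assoc _ _ _).trans ((congrArg (xi ≫ ·) hgf).trans hxi))
  refine ⟨Γ(G.left, V), fun i => theta G V hV gK i, ?_, ?_⟩
  · intro i R j hj D hD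
    -- the chart is a morphism over `ℂ`
    have hjf : j ≫ f = Spec.map (CommRingCat.ofHom (algebraMap ℂ R)) := by
      obtain ⟨φ, hφ⟩ := Spec.map_surjective (j ≫ f)
      rw [← hφ]
      congr 1
      have h1 : Spec.map (φ ≫ CommRingCat.ofHom (algebraMap R K)) =
          Spec.map (CommRingCat.ofHom (algebraMap ℂ K)) := by
        rw [Spec.map_comp, hφ, ← Category.assoc, hj, hxi]
      have h2 := Spec.map_injective h1
      ext c
      exact congrArg (fun ψ => CommRingCat.Hom.hom ψ c) h2
    let gR : SO R ⟶ G := Over.homMk (j ≫ g.left)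
      ((Category.assoc _ _ _).trans ((congrArg (j ≫ ·) hgf).trans hjf))
    refine theta_mem G V hV gK i R gR ?_ D hD
    apply Over.OverMorphism.ext
    change Spec.map _ ≫ j ≫ g.left = xi ≫ g.left
    rw [← Category.assoc]
    exact congrArg (· ≫ g.left) hj
  · intro D hD
    have hthick := eq_of_lam G V hV haff gK D hD
    -- an affine neighbourhood of the image of the point
    let p : (Spec (.of K) : Scheme.{0}) := (IsLocalRing.closedPoint K : PrimeSpectrum K)
    obtain ⟨V', haff', hpV', -⟩ := exists_isAffineOpen_mem_and_subset (X := G.left)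
      (x := gK.left p) (U := ⊤) trivial
    have hall : ∀ p' : (Spec (.of K) : Scheme.{0}), gK.left p' ∈ V' := by
      intro p'
      have : p' = p := Subsingleton.elim (α := PrimeSpectrum K) _ _
      rw [this]
      exact hpV'
    have hg1 : ⊤ ≤ gK.left ⁻¹ᵁ V' := fun p' _ => hall p'
    have hg2 : ∀ e : K →ₐ[ℂ] TrivSqZeroExt K K, ⊤ ≤ (SM e ≫ gK).left ⁻¹ᵁ V' :=
      fun e p' _ => hall ((SM e).left p')
    -- `D` kills the functions on `V'`
    have hα : ∀ a : Γ(G.left, V'), D (secV V' gK.left hg1 a) = 0 := by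
      intro a
      have e1 : secV V' (SM (eD D) ≫ gK).left (hg2 _) = (eD D).toRingHom.comp
          (secV V' gK.left hg1) := secV_fac V' (eD D).toRingHom rfl hg1 _
      have e2 : secV V' (SM (e00 K K) ≫ gK).left (hg2 _) = (e00 K K).toRingHom.comp
          (secV V' gK.left hg1) := secV_fac V' (e00 K K).toRingHom rfl hg1 _
      have e3 : secV V' (SM (eD D) ≫ gK).left (hg2 _) = secV V' (SM (e00 K K) ≫ gK).left (hg2 _) :=
        secV_congr V' (by rw [hthick]) _ _
      rw [e1, e2] at e3
      have e4 : eD D (secV V' gK.left hg1 a) = e00 K K (secV V' gK.left hg1 a) :=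
        congrArg (fun ψ : Γ(G.left, V') →+* TrivSqZeroExt K K => ψ a) e3
      have e5 := congrArg TrivSqZeroExt.snd e4
      rwa [snd_eD, e00_apply, snd_inl] at e5
    -- the preimage of `V'`
    have hU : IsAffineOpen (g.left ⁻¹ᵁ V') := haff'.preimage g.left
    have hxU : ⊤ ≤ xi ⁻¹ᵁ (g.left ⁻¹ᵁ V') := hg1
    have hβ : ∀ b, D (secV (g.left ⁻¹ᵁ V') xi hxU b) = 0 := by
      intro b
      have hint : (g.left.app V').hom.IsIntegralElem b := (IsFinite.finite_app (f := g.left) V' haff').to_isIntegral b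
      have hint2 : ((secV (g.left ⁻¹ᵁ V') xi hxU).comp (g.left.app V').hom).IsIntegralElem
          (secV (g.left ⁻¹ᵁ V') xi hxU b) := by
        obtain ⟨q, hq, hq2⟩ := hint
        refine ⟨q, hq, ?_⟩
        rw [← Polynomial.hom_eval₂, hq2, map_zero]
      refine der_eq_zero_of_isIntegralElem D _ (fun a => ?_) _ hint2
      have := secV_app g.left xi V' hxU hg1 a
      rw [RingHom.comp_apply]
      erw [← this]
      exact hα a
    -- `D` kills `R0`
    have hR0 : ∀ r : R0, D (r : K) = 0 := by
      intro r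
      obtain ⟨W, hW, s, hs⟩ := secV_surj j0 r
      have hxW : ⊤ ≤ xi ⁻¹ᵁ W := by
        intro p' _
        have : xi p' = j0 (Spec.map (CommRingCat.ofHom (algebraMap R0 K)) p') := by
          rw [← hj0]
          rfl
        change xi p' ∈ W
        rw [this]
        exact hW (Set.mem_univ _)
      have h1 : secV W xi hxW s = (r : K) := by
        have := secV_fac W (algebraMap R0 K) hj0.symm hW hxW
        rw [this, RingHom.comp_apply, hs]
        rfl
      rw [← h1]
      exact der_secV xi D hU hxU hxW hβ s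
    exact fun r hr => hR0 ⟨r, hr⟩

/-- **Invariant differentials**, if `K` is algebraic over the chart `R0`: the functionals have no
common zero. -/
theorem exists_theta {X : Scheme.{0}} (f : X ⟶ Spec (.of ℂ)) {K : Type} [Field K] [Algebra ℂ K]
    (xi : Spec (.of K) ⟶ X)
    (hxi : xi ≫ f = Spec.map (CommRingCat.ofHom (algebraMap ℂ K)))
    (R0 : Subalgebra ℂ K) [Algebra.IsAlgebraic R0 K] (j0 : Spec (.of R0) ⟶ X) [IsOpenImmersion j0]
    (hj0 : Spec.map (CommRingCat.ofHom (algebraMap R0 K)) ≫ j0 = xi)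
    (G : Over (Spec (.of ℂ))) [GrpObj G] (g : Over.mk f ⟶ G) (hg : IsFinite g.left) :
    ∃ (I : Type) (theta : I → (Derivation ℂ K K →ₗ[K] K)),
      (∀ i (R : Subalgebra ℂ K) (j : Spec (.of R) ⟶ X),
        Spec.map (CommRingCat.ofHom (algebraMap R K)) ≫ j = xi →
        ∀ D : Derivation ℂ K K, (∀ a ∈ R, D a ∈ R) → theta i D ∈ R) ∧
      (∀ D : Derivation ℂ K K, (∀ i, theta i D = 0) → D = 0) := by
  obtain ⟨I, th, h1, h2⟩ := exists_theta' f xi hxi R0 j0 hj0 G g hg
  refine ⟨I, th, h1, fun D hD => ?_⟩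
  have hR0 : ∀ r : R0, D (r : K) = 0 := fun r => h2 D hD r r.2
  apply Derivation.ext
  intro y
  change D y = 0
  have hy : IsAlgebraic R0 y := Algebra.IsAlgebraic.isAlgebraic y
  obtain ⟨q, hq, hq2⟩ := hy
  apply der_eq_zero
  let io : R0 →+* cst D := (algebraMap R0 K).codRestrict (cst D) hR0
  refine ⟨q.map io, ?_, ?_⟩
  · refine (Polynomial.map_ne_zero_iff ?_).mpr hq
    intro a b hab
    exact Subtype.ext (congrArg (fun z : cst D => (z : K)) hab)
  · rw [Polynomial.aeval_def, Polynomial.eval₂_map]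
    exact hq2

end

end M21X
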