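import Pool.Agent.H.MP_21b43d_ag.X.Alb4

/-!
# M6 / X-ALB, file 5: derivations of a field with prescribed values on a transcendence basis
-/

set_option autoImplicit false

open MvPolynomial TensorProduct

namespace M21X

noncomputable section

variable {ι K : Type} [Field K] [Algebra ℂ K] {x : ι → K}

theorem isAlgebraic_aeval [Algebra (MvPolynomial ι ℂ) K]
    (h : ∀ p : MvPolynomial ι ℂ, algebraMap (MvPolynomial ι ℂ) K p = aeval x p)
    (hx : IsTranscendenceBasis ℂ x) : Algebra.IsAlgebraic (MvPolynomial ι ℂ) K := by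
  have h1 := hx.isAlgebraic
  constructor
  intro y
  refine IsAlgebraic.of_ringHom_of_comp_eq (S := Algebra.adjoin ℂ (Set.range x))
    (hx.1.aevalEquiv : MvPolynomial ι ℂ →+* Algebra.adjoin ℂ (Set.range x))
    (RingHom.id K) (h1.isAlgebraic y) hx.1.aevalEquiv.surjective Function.injective_id ?_
  ext p
  · simp [h]
  · simp [h]

/-- Derivations of `K` over `ℂ` have arbitrary values on a transcendence basis. -/
theorem exists_der (hx : IsTranscendenceBasis ℂ x) (c : ι → K) :
    ∃ D : Derivation ℂ K K, ∀ i, D (x i) = c i := by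
  have : CharZero K := charZero_of_injective_algebraMap (algebraMap ℂ K).injective
  let _ : Algebra (MvPolynomial ι ℂ) K := (aeval x).toAlgebra
  have hmap : ∀ p : MvPolynomial ι ℂ, algebraMap (MvPolynomial ι ℂ) K p = aeval x p := fun p => rfl
  have hst : IsScalarTower ℂ (MvPolynomial ι ℂ) K := IsScalarTower.of_algHom (aeval x)
  have hinj : Function.Injective (algebraMap (MvPolynomial ι ℂ) K) := hx.1
  have : FaithfulSMul (MvPolynomial ι ℂ) K := (faithfulSMul_iff_algebraMap_injective _ _).mpr hinj
  let _ : Algebra (FractionRing (MvPolynomial ι ℂ)) K := FractionRing.liftAlgebra _ _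
  have : IsScalarTower (MvPolynomial ι ℂ) (FractionRing (MvPolynomial ι ℂ)) K :=
    FractionRing.isScalarTower_liftAlgebra _ _
  have halg : Algebra.IsAlgebraic (MvPolynomial ι ℂ) K := isAlgebraic_aeval hmap hx
  have : Algebra.IsAlgebraic (FractionRing (MvPolynomial ι ℂ)) K :=
    Algebra.IsAlgebraic.extendScalars (R := MvPolynomial ι ℂ) (IsFractionRing.injective _ _)
  have h1 : Algebra.FormallyEtale (MvPolynomial ι ℂ) (FractionRing (MvPolynomial ι ℂ)) :=
    Algebra.FormallyEtale.of_isLocalization (nonZeroDivisors _)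
  have h2 : Algebra.FormallyEtale (FractionRing (MvPolynomial ι ℂ)) K :=
    Algebra.FormallyEtale.of_isSeparable _ _
  have h3 : Algebra.FormallyEtale (MvPolynomial ι ℂ) K :=
    Algebra.FormallyEtale.comp _ (FractionRing (MvPolynomial ι ℂ)) K
  let e := KaehlerDifferential.tensorKaehlerEquivOfFormallyEtale ℂ (MvPolynomial ι ℂ) K
  let d : Derivation ℂ (MvPolynomial ι ℂ) K := mkDerivation ℂ c
  let l : K ⊗[MvPolynomial ι ℂ] Ω[MvPolynomial ι ℂ⁄ℂ] →ₗ[K] K :=
    LinearMap.liftBaseChange K d.liftKaehlerDifferential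
  let D : Derivation ℂ K K := (l ∘ₗ e.symm.toLinearMap).compDer (KaehlerDifferential.D ℂ K)
  refine ⟨D, fun i => ?_⟩
  have h4 : x i = algebraMap (MvPolynomial ι ℂ) K (X i) := by
    rw [hmap, aeval_X]
  change l (e.symm (KaehlerDifferential.D ℂ K (x i))) = c i
  rw [h4, KaehlerDifferential.tensorKaehlerEquivOfFormallyEtale_symm_D_algebraMap]
  change LinearMap.liftBaseChange K d.liftKaehlerDifferential _ = c i
  rw [LinearMap.liftBaseChange_tmul, Derivation.liftKaehlerDifferential_comp_D, one_smul,
    mkDerivation_X]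

/-- A derivation of `K` over `ℂ` is determined by its values on a transcendence basis. -/
theorem der_ext (hx : IsTranscendenceBasis ℂ x) {D D' : Derivation ℂ K K}
    (h : ∀ i, D (x i) = D' (x i)) : D = D' := by
  have h1 := hx.isAlgebraic
  suffices hs : ∀ y, (D - D') y = 0 by
    ext y
    have := hs y
    rwa [Derivation.sub_apply, sub_eq_zero] at this
  intro y
  apply der_eq_zero
  have h0 : ∀ a ∈ Algebra.adjoin ℂ (Set.range x), a ∈ cst (D - D') := by
    intro a ha
    induction ha using Algebra.adjoin_induction with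
    | mem a ha =>
      obtain ⟨i, rfl⟩ := ha
      rw [mem_cst, Derivation.sub_apply, h i, sub_self]
    | algebraMap r => rw [mem_cst, Derivation.map_algebraMap]
    | add a b _ _ ha hb => exact add_mem ha hb
    | mul a b _ _ ha hb => exact mul_mem ha hb
  let i0 : Algebra.adjoin ℂ (Set.range x) →+* cst (D - D') :=
    { toFun := fun a => ⟨a, h0 a a.2⟩
      map_one' := rfl
      map_mul' := fun _ _ => rfl
      map_zero' := rfl
      map_add' := fun _ _ => rfl }
  have hi : Function.Injective i0 := fun a b hab =>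
    Subtype.ext (congrArg (fun z : cst (D - D') => (z : K)) hab)
  exact (h1.isAlgebraic y).ringHom_of_comp_eq i0 (RingHom.id K) hi rfl

end

end M21X
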