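import Pool.Agent.H.MP_21b43d_ag.X.Alb5

/-!
# M6 / X-ALB, file 6: an element of the function field of a proper integral scheme which lies in all
chart rings of a covering is constant
-/

set_option autoImplicit false

open CategoryTheory AlgebraicGeometry TopologicalSpace Opposite

namespace M21X

noncomputable section

theorem secV_eq_zero {X : Scheme.{0}} [IsReduced X] {K : Type} [Field K]
    (xi : Spec (.of K) ⟶ X) [IsDominant xi] {W : X.Opens} (hW : ⊤ ≤ xi ⁻¹ᵁ W) (s : Γ(X, W))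
    (hs : secV W xi hW s = 0) : s = 0 := by
  have h1 : xi.appLE W ⊤ hW s = 0 := by
    have hinj : Function.Injective (Scheme.ΓSpecIso (.of K)).hom :=
      ((ConcreteCategory.isIso_iff_bijective (Scheme.ΓSpecIso (.of K)).hom).mp inferInstance).1
    apply hinj
    rw [map_zero]
    exact hs
  rw [← basicOpen_eq_bot_iff]
  by_contra hne
  obtain ⟨x, hx⟩ := (Opens.ne_bot_iff_nonempty _).mp hne
  obtain ⟨p, hp⟩ := xi.denseRange.exists_mem_open (X.basicOpen s).2 ⟨x, hx⟩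
  have h2 := Scheme.basicOpen_appLE xi ⊤ W hW s
  rw [h1, Scheme.basicOpen_zero] at h2
  have h3 : p ∈ (⊤ ⊓ xi ⁻¹ᵁ X.basicOpen s : (Spec (.of K)).Opens) := ⟨trivial, hp⟩
  rw [← h2] at h3
  exact h3

theorem secV_inj {X : Scheme.{0}} [IsReduced X] {K : Type} [Field K]
    (xi : Spec (.of K) ⟶ X) [IsDominant xi] {W : X.Opens} (hW : ⊤ ≤ xi ⁻¹ᵁ W) {s t : Γ(X, W)}
    (hs : secV W xi hW s = secV W xi hW t) : s = t := by
  rw [← sub_eq_zero]
  apply secV_eq_zero xi hW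
  rw [map_sub, hs, sub_self]

theorem secV_surj' {X : Scheme.{0}} {R : Type} [CommRing R] (j : Spec (.of R) ⟶ X)
    [IsOpenImmersion j] (hW : ⊤ ≤ j ⁻¹ᵁ (j ''ᵁ ⊤)) (r : R) :
    ∃ (s : Γ(X, j ''ᵁ ⊤)), secV (j ''ᵁ ⊤) j hW s = r := by
  have e : (j.appLE (j ''ᵁ ⊤) ⊤ hW) = (j.appIso ⊤).hom := by
    rw [Scheme.Hom.appIso_hom]
    rfl
  have hb : IsIso (j.appLE (j ''ᵁ ⊤) ⊤ hW ≫ (Scheme.ΓSpecIso (.of R)).hom) := by
    rw [e]
    infer_instance
  have hs := ((ConcreteCategory.isIso_iff_bijective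
    (j.appLE (j ''ᵁ ⊤) ⊤ hW ≫ (Scheme.ΓSpecIso (.of R)).hom)).mp hb).2
  exact hs r

/-- **Constants.** -/
theorem exists_const {X : Scheme.{0}} (f : X ⟶ Spec (.of ℂ)) [IsIntegral X] [IsProper f]
    {K : Type} [Field K] [Algebra ℂ K] (xi : Spec (.of K) ⟶ X) [IsDominant xi]
    (hxi : xi ≫ f = Spec.map (CommRingCat.ofHom (algebraMap ℂ K)))
    {ι : Type} (R : ι → Subalgebra ℂ K) (j : ∀ i, Spec (.of (R i)) ⟶ X)
    [∀ i, IsOpenImmersion (j i)]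
    (hj : ∀ i, Spec.map (CommRingCat.ofHom (algebraMap (R i) K)) ≫ j i = xi)
    (hc : ∀ x, ∃ i, x ∈ (j i).opensRange) (h : K) (hh : ∀ i, h ∈ R i) :
    ∃ c : ℂ, h = algebraMap ℂ K c := by
  have hW : ∀ i, ⊤ ≤ (j i) ⁻¹ᵁ ((j i) ''ᵁ ⊤) := fun i p _ => ⟨p, trivial, rfl⟩
  have hxW : ∀ i, ⊤ ≤ xi ⁻¹ᵁ ((j i) ''ᵁ ⊤) := by
    intro i p _
    refine ⟨Spec.map (CommRingCat.ofHom (algebraMap (R i) K)) p, trivial, ?_⟩
    rw [← hj i]
    rfl
  choose s hs using fun i => secV_surj' (j i) (hW i) ⟨h, hh i⟩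
  have hs' : ∀ i, secV ((j i) ''ᵁ ⊤) xi (hxW i) (s i) = h := by
    intro i
    rw [secV_fac ((j i) ''ᵁ ⊤) (algebraMap (R i) K) (hj i).symm (hW i) (hxW i)]
    rw [RingHom.comp_apply, hs i]
    rfl
  -- gluing
  have hcomp : TopCat.Presheaf.IsCompatible X.sheaf.1 (fun i => (j i) ''ᵁ ⊤) s := by
    intro a b
    have hab : ⊤ ≤ xi ⁻¹ᵁ ((j a) ''ᵁ ⊤ ⊓ (j b) ''ᵁ ⊤) := fun p hp => ⟨hxW a hp, hxW b hp⟩
    apply secV_inj xi hab
    exact ((secV_res xi _ hab (hxW a) (s a)).trans (hs' a)).trans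
      ((secV_res xi _ hab (hxW b) (s b)).trans (hs' b)).symm
  have hcov : (⊤ : X.Opens) ≤ iSup (fun i => (j i) ''ᵁ ⊤) := by
    intro x _
    obtain ⟨i, hi⟩ := hc x
    refine TopologicalSpace.Opens.mem_iSup.mpr ⟨i, ?_⟩
    rw [Scheme.Hom.image_top_eq_opensRange]
    exact hi
  obtain ⟨t, ht, -⟩ := X.sheaf.existsUnique_gluing' (fun i => (j i) ''ᵁ ⊤) ⊤
    (fun i => homOfLE le_top) hcov s hcomp
  have hxT : ⊤ ≤ xi ⁻¹ᵁ ⊤ := le_top
  have ht' : secV ⊤ xi hxT t = h := by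
    obtain ⟨i, -⟩ := hc (genericPoint X)
    rw [← hs' i, ← ht i]
    exact (secV_res xi le_top (hxW i) hxT t).symm
  -- integrality
  have hint : f.appTop.hom.IsIntegralElem t := isIntegral_appTop_of_universallyClosed f t
  have e1 : ∀ a, secV ⊤ xi hxT (f.appTop a) =
      algebraMap ℂ K (secV ⊤ (𝟙 (Spec (.of ℂ))) le_top a) := by
    intro a
    have h1 := secV_app f xi ⊤ hxT (le_top) a
    have h2 := secV_fac (h := 𝟙 (Spec (.of ℂ))) (h' := xi ≫ f) ⊤ (algebraMap ℂ K)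
      (by rw [hxi, Category.comp_id]) le_top le_top
    rw [h2] at h1
    exact h1.symm
  obtain ⟨p, hp, hp0⟩ := hint
  have hi : IsIntegral ℂ h := by
    refine ⟨p.map (secV ⊤ (𝟙 (Spec (.of ℂ))) le_top), hp.map _, ?_⟩
    have h2 := congrArg (secV ⊤ xi hxT) hp0
    rw [map_zero, Polynomial.hom_eval₂, ht'] at h2
    rw [Polynomial.eval₂_map, ← h2]
    congr 1
    ext a
    exact (e1 a).symm
  obtain ⟨c, hc⟩ := minpoly.mem_range_of_degree_eq_one ℂ h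
    (IsAlgClosed.degree_eq_one_of_irreducible ℂ (minpoly.irreducible hi))
  exact ⟨c, hc.symm⟩

end

end M21X
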