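import Pool.Agent.H.MP_21b43d_ag.Z.Center

/-!
# M6 / X-part: the centre of a valuation ring, with the local property
-/

set_option autoImplicit false

open CategoryTheory AlgebraicGeometry IsLocalRing

namespace M21X

open M21.Z

theorem exists_center' {X : Scheme.{0}} (f : X ⟶ Spec (.of ℂ)) [IsProper f] (z : X)
    (V : ValuationSubring (X.residueField z)) (hV : ∀ c : ℂ, ptHom f z c ∈ V) :
    ∃ y : X, ∃ hzy : z ⤳ y, ∀ (U : X.Opens) (hy : y ∈ U) (s : Γ(X, U)),
      X.evaluation U z (hzy.mem_open U.2 hy) s ∈ V ∧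
      (X.evaluation U y hy s = 0 → ∀ t ∈ V, X.evaluation U z (hzy.mem_open U.2 hy) s * t ≠ 1) := by
  let φ : ℂ →+* V := (ptHom f z).codRestrict V.toSubring hV
  let i : CommRingCat.of V ⟶ X.residueField z := CommRingCat.ofHom (algebraMap V (X.residueField z))
  have hφ : CommRingCat.ofHom φ ≫ i = Spec.preimage (X.fromSpecResidueField z ≫ f) := by
    ext c
    rfl
  have hsq : CommSq (X.fromSpecResidueField z) (Spec.map i) f (Spec.map (CommRingCat.ofHom φ)) := by
    refine ⟨?_⟩
    rw [← Spec.map_comp, hφ, Spec.map_preimage]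
  let S : ValuativeCommSq f :=
    { R := V
      K := X.residueField z
      i₁ := X.fromSpecResidueField z
      i₂ := Spec.map (CommRingCat.ofHom φ)
      commSq := hsq }
  have hex : ValuativeCriterion.Existence f := by
    have h : (ValuativeCriterion.Existence ⊓ @QuasiCompact) f := by
      rw [← UniversallyClosed.eq_valuativeCriterion]
      infer_instance
    exact h.1
  obtain ⟨⟨l, hl1, -⟩⟩ := (hex S).exists_lift
  have hl : Spec.map i ≫ l = X.fromSpecResidueField z := hl1
  let p0 : Spec (X.residueField z) := closedPoint (X.residueField z)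
  have hz : l (Spec.map i p0) = z := by
    have h1 : (Spec.map i ≫ l) p0 = z := by
      rw [hl]
      exact Scheme.fromSpecResidueField_apply z p0
    simpa using h1
  have hzy : z ⤳ l (closedPoint V) := by
    have h1 : l (Spec.map i p0) ⤳ l (closedPoint V) :=
      (specializes_closedPoint (R := V) (Spec.map i p0)).map l.continuous
    rwa [hz] at h1
  refine ⟨l (closedPoint V), hzy, fun U hy s => ?_⟩
  have hzU : z ∈ U := hzy.mem_open U.2 hy
  have hrange : Set.range l ⊆ Set.range U.ι := by
    rintro _ ⟨q, rfl⟩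
    have h1 : l q ∈ U :=
      ((specializes_closedPoint (R := V) q).map l.continuous).mem_open U.2 hy
    simpa using h1
  let lU : Spec (CommRingCat.of V) ⟶ U.toScheme := IsOpenImmersion.lift U.ι l hrange
  have hlU : lU ≫ U.ι = l := IsOpenImmersion.lift_fac _ _ _
  let ψ : Γ(X, U) ⟶ CommRingCat.of V := Spec.preimage (lU ≫ U.toSpecΓ)
  have hfac : Spec.map i ≫ lU = Spec.map (X.residue z) ≫ U.fromSpecStalkOfMem z hzU := by
    rw [← cancel_mono U.ι, Category.assoc, Category.assoc, hlU, hl,
      Scheme.Opens.fromSpecStalkOfMem_ι]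
    rfl
  have hψ : ψ ≫ i = X.evaluation U z hzU := by
    apply Spec.map_injective
    rw [Spec.map_comp, Spec.map_preimage, ← Category.assoc, hfac, Category.assoc,
      Scheme.Opens.fromSpecStalkOfMem_toSpecΓ, ← Spec.map_comp]
    rfl
  have h2 : X.evaluation U z hzU s = (ψ s : V) := by
    rw [← hψ]
    rfl
  refine ⟨?_, ?_⟩
  · rw [h2]
    exact (ψ s : V).2
  · intro hs t ht h3
    rw [h2] at h3
    have h4 : (ψ s : V) * (⟨t, ht⟩ : V) = 1 := Subtype.ext h3
    have h5 : IsUnit (ψ s : V) := IsUnit.of_mul_eq_one _ h4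
    -- so `s` is nonzero at `y`
    have h6 : (Spec.map ψ) (closedPoint V) ∈ PrimeSpectrum.basicOpen s := by
      change s ∉ ((Spec.map ψ) (closedPoint V)).asIdeal
      intro h7
      have h8 : (ψ s : V) ∈ (closedPoint V).asIdeal := h7
      exact (IsLocalRing.mem_maximalIdeal _).1 h8 h5
    have h7 : (Spec.map ψ) = lU ≫ U.toSpecΓ := Spec.map_preimage _
    rw [h7] at h6
    have h8 : lU (closedPoint V) ∈ U.toSpecΓ ⁻¹ᵁ (PrimeSpectrum.basicOpen s) := h6
    rw [Scheme.Opens.toSpecΓ_preimage_basicOpen] at h8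
    have h9 : U.ι (lU (closedPoint V)) ∈ X.basicOpen s := h8
    have h10 : U.ι (lU (closedPoint V)) = l (closedPoint V) := by
      change (lU ≫ U.ι) (closedPoint V) = l (closedPoint V)
      rw [hlU]
    rw [h10] at h9
    exact (Scheme.evaluation_ne_zero_iff_mem_basicOpen X _ hy s).2 h9 hs

end M21X
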