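import Pool.Agent.H.MP_21b43d_ag.X.Pt

/-!
# M6 / X-part, file 2: the charts of the closure of a `K`-point
-/

set_option autoImplicit false

open CategoryTheory AlgebraicGeometry TopologicalSpace MvPolynomial

namespace M21X

noncomputable section

section rho

variable {K : Type} [Field K] {X : Scheme.{0}} (ξ : Spec (.of K) ⟶ X)

/-- pull-back of functions along a `K`-point -/
def rho (U : X.Opens) (hU : ⊤ ≤ ξ ⁻¹ᵁ U) : Γ(X, U) →+* K :=
  ((ξ.appLE U ⊤ hU) ≫ (Scheme.ΓSpecIso (.of K)).hom).hom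

theorem rho_res (U V : X.Opens) (h : U ≤ V) (hU : ⊤ ≤ ξ ⁻¹ᵁ U) (hV : ⊤ ≤ ξ ⁻¹ᵁ V) (s : Γ(X, V)) :
    rho ξ U hU (X.presheaf.map (homOfLE h).op s) = rho ξ V hV s := by
  rw [rho, rho, ← Scheme.Hom.map_appLE ξ hU (homOfLE h).op]
  rfl

theorem rho_fromSpec (U : X.Opens) (hU : ⊤ ≤ ξ ⁻¹ᵁ U) (hA : IsAffineOpen U) :
    Spec.map (CommRingCat.ofHom (rho ξ U hU)) ≫ hA.fromSpec = ξ := by
  have h := hA.SpecMap_appLE_fromSpec ξ (isAffineOpen_top (Spec (.of K))) hU
  rw [rho, CommRingCat.ofHom_hom, Spec.map_comp, Category.assoc, h, IsAffineOpen.fromSpec_top]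
  simp

/-- the membership condition in terms of the unique point -/
theorem top_le_of_mem (U : X.Opens) (p : Spec (.of K)) (h : ξ p ∈ U) : ⊤ ≤ ξ ⁻¹ᵁ U := by
  intro q _
  have : q = p := Subsingleton.elim (α := PrimeSpectrum K) _ _
  rw [this]
  exact h

end rho

variable {N : ℕ} {K : Type} [Field K] [Algebra ℂ K] (v : Fin (N + 1) → K) (hv : v 0 ≠ 0)

/-- the chart `X ∩ D₊(f)` -/
def UU (f : MvPolynomial (Fin (N + 1)) ℂ) : (XX v hv).Opens :=
  XX.emb v hv ⁻¹ᵁ Proj.basicOpen (gr N) f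

theorem UU_affine (f : MvPolynomial (Fin (N + 1)) ℂ) {d : ℕ} (hd : f ∈ gr N d) (h0 : 0 < d) :
    IsAffineOpen (UU v hv f) :=
  (Proj.isAffineOpen_basicOpen (gr N) f hd h0).preimage (XX.emb v hv)

theorem pt_mem_UU (f : MvPolynomial (Fin (N + 1)) ℂ) (hf : aeval v f ≠ 0) {d : ℕ}
    (hd : f ∈ gr N d) (h0 : 0 < d) : ⊤ ≤ XX.pt v hv ⁻¹ᵁ UU v hv f := by
  intro p _
  change XX.emb v hv (XX.pt v hv p) ∈ Proj.basicOpen (gr N) f
  rw [← Scheme.Hom.comp_apply, XX.pt_emb]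
  exact (xiP_mem_iff v hv f hd h0 p).mpr hf

theorem xiP_top_le (f : MvPolynomial (Fin (N + 1)) ℂ) (hf : aeval v f ≠ 0) {d : ℕ}
    (hd : f ∈ gr N d) (h0 : 0 < d) : ⊤ ≤ xiP v hv ⁻¹ᵁ Proj.basicOpen (gr N) f := by
  intro p _
  exact (xiP_mem_iff v hv f hd h0 p).mpr hf

theorem awayToSection_awayι (f : MvPolynomial (Fin (N + 1)) ℂ) {d : ℕ}
    (hd : f ∈ gr N d) (h0 : 0 < d) :
    Spec.map (Proj.awayToSection (gr N) f) ≫ Proj.awayι (gr N) f hd h0 =
      (Proj.isAffineOpen_basicOpen (gr N) f hd h0).fromSpec := by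
  have hA := Proj.isAffineOpen_basicOpen (gr N) f hd h0
  rw [Proj.awayι, ← hA.isoSpec_inv_ι, ← Category.assoc]
  congr 1
  rw [Iso.comp_inv_eq, Proj.basicOpenIsoSpec_hom, Proj.basicOpenToSpec, ← Category.assoc,
    ← hA.isoSpec_hom, Iso.inv_hom_id, Category.id_comp]

/-- the evaluation map is the pull-back of functions along `xiP` -/
theorem evA_eq (f : MvPolynomial (Fin (N + 1)) ℂ) (hf : aeval v f ≠ 0) {d : ℕ}
    (hd : f ∈ gr N d) (h0 : 0 < d) (hU : ⊤ ≤ xiP v hv ⁻¹ᵁ Proj.basicOpen (gr N) f) :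
    (rho (xiP v hv) _ hU).comp (Proj.awayToSection (gr N) f).hom = evA v f hf := by
  have hA := Proj.isAffineOpen_basicOpen (gr N) f hd h0
  have h2 := rho_fromSpec (xiP v hv) _ hU hA
  rw [← awayToSection_awayι f hd h0, ← Category.assoc, ← Spec.map_comp] at h2
  have h3 := xiP_eq v hv f hf hd h0
  rw [xiA] at h3
  have h2' := h2.trans h3
  rw [cancel_mono] at h2'
  have h4 := Spec.map_injective h2'
  have h5 := congrArg CommRingCat.Hom.hom h4
  simpa using h5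

/-- the ring of the chart `X ∩ D₊(f)` -/
def RR (f : MvPolynomial (Fin (N + 1)) ℂ) (hf : aeval v f ≠ 0) : Subring K := (evA v f hf).range

theorem rho_emb (f : MvPolynomial (Fin (N + 1)) ℂ) (hf : aeval v f ≠ 0) {d : ℕ}
    (hd : f ∈ gr N d) (h0 : 0 < d) (s : Γ(PP N, Proj.basicOpen (gr N) f)) :
    rho (XX.pt v hv) (UU v hv f) (pt_mem_UU v hv f hf hd h0) ((XX.emb v hv).app _ s) =
      rho (xiP v hv) _ (xiP_top_le v hv f hf hd h0) s := by
  have h := Scheme.Hom.comp_appLE (XX.pt v hv) (XX.emb v hv) (Proj.basicOpen (gr N) f) ⊤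
    (pt_mem_UU v hv f hf hd h0)
  have h' : (xiP v hv).appLE (Proj.basicOpen (gr N) f) ⊤ (xiP_top_le v hv f hf hd h0) =
      (XX.emb v hv).app (Proj.basicOpen (gr N) f) ≫
        (XX.pt v hv).appLE _ ⊤ (pt_mem_UU v hv f hf hd h0) := by
    rw [← h]
    congr 1
    exact (XX.pt_emb v hv).symm
  rw [rho, rho, h']
  rfl

theorem rho_range (f : MvPolynomial (Fin (N + 1)) ℂ) (hf : aeval v f ≠ 0) {d : ℕ}
    (hd : f ∈ gr N d) (h0 : 0 < d) :
    (rho (XX.pt v hv) (UU v hv f) (pt_mem_UU v hv f hf hd h0)).range = RR v f hf := by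
  have hsurj : Function.Surjective ((XX.emb v hv).app (Proj.basicOpen (gr N) f)) :=
    (xiP v hv).ker.subschemeι_app_surjective ⟨_, Proj.isAffineOpen_basicOpen (gr N) f hd h0⟩
  have hsurj' : Function.Surjective (Proj.awayToSection (gr N) f) := by
    have h := (Proj.basicOpenIsoAway (gr N) f hd h0).commRingCatIsoToRingEquiv.surjective
    exact h
  ext x
  rw [RR, ← evA_eq v hv f hf hd h0 (xiP_top_le v hv f hf hd h0)]
  constructor
  · rintro ⟨s, rfl⟩
    obtain ⟨t, rfl⟩ := hsurj s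
    obtain ⟨a, rfl⟩ := hsurj' t
    exact ⟨a, (rho_emb v hv f hf hd h0 _).symm⟩
  · rintro ⟨a, rfl⟩
    exact ⟨(XX.emb v hv).app _ (Proj.awayToSection (gr N) f a), rho_emb v hv f hf hd h0 _⟩

theorem rho_injective (f : MvPolynomial (Fin (N + 1)) ℂ) (hf : aeval v f ≠ 0) {d : ℕ}
    (hd : f ∈ gr N d) (h0 : 0 < d) :
    Function.Injective (rho (XX.pt v hv) (UU v hv f) (pt_mem_UU v hv f hf hd h0)) := by
  have hinj : Function.Injective ((XX.pt v hv).app (UU v hv f)) :=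
    (xiP v hv).toImage_app_injective ⟨_, Proj.isAffineOpen_basicOpen (gr N) f hd h0⟩
  have htop : XX.pt v hv ⁻¹ᵁ UU v hv f = ⊤ := top_le_iff.mp (pt_mem_UU v hv f hf hd h0)
  have h1 : Function.Injective ((Spec (.of K)).presheaf.map
      (homOfLE (pt_mem_UU v hv f hf hd h0)).op) := by
    have : IsIso (homOfLE (pt_mem_UU v hv f hf hd h0)) := by
      refine ⟨homOfLE le_top, ?_, ?_⟩ <;> exact Subsingleton.elim _ _
    exact (ConcreteCategory.bijective_of_isIso _).1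
  have h2 : Function.Injective (Scheme.ΓSpecIso (.of K)).hom :=
    (ConcreteCategory.bijective_of_isIso _).1
  intro a b hab
  apply hinj
  apply h1
  apply h2
  exact hab

/-- the ring of functions of the chart, as a subring of `K` -/
def chartEquiv (f : MvPolynomial (Fin (N + 1)) ℂ) (hf : aeval v f ≠ 0) {d : ℕ}
    (hd : f ∈ gr N d) (h0 : 0 < d) : Γ(XX v hv, UU v hv f) ≃+* RR v f hf :=
  (RingEquiv.ofBijective (rho (XX.pt v hv) (UU v hv f) (pt_mem_UU v hv f hf hd h0)).rangeRestrict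
    ⟨fun _ _ h => rho_injective v hv f hf hd h0 (congrArg Subtype.val h),
      (rho (XX.pt v hv) (UU v hv f) (pt_mem_UU v hv f hf hd h0)).rangeRestrict_surjective⟩).trans
    (RingEquiv.subringCongr (rho_range v hv f hf hd h0))

theorem chartEquiv_val (f : MvPolynomial (Fin (N + 1)) ℂ) (hf : aeval v f ≠ 0) {d : ℕ}
    (hd : f ∈ gr N d) (h0 : 0 < d) (s : Γ(XX v hv, UU v hv f)) :
    (chartEquiv v hv f hf hd h0 s : K) = rho (XX.pt v hv) (UU v hv f) (pt_mem_UU v hv f hf hd h0) s :=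
  rfl

/-- the chart as an open immersion -/
def chart (f : MvPolynomial (Fin (N + 1)) ℂ) (hf : aeval v f ≠ 0) {d : ℕ}
    (hd : f ∈ gr N d) (h0 : 0 < d) : Spec (.of (RR v f hf)) ⟶ XX v hv :=
  Spec.map (chartEquiv v hv f hf hd h0).toCommRingCatIso.hom ≫ (UU_affine v hv f hd h0).fromSpec

instance (f : MvPolynomial (Fin (N + 1)) ℂ) (hf : aeval v f ≠ 0) {d : ℕ}
    (hd : f ∈ gr N d) (h0 : 0 < d) : IsOpenImmersion (chart v hv f hf hd h0) := by
  unfold chart
  infer_instance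

theorem chart_opensRange (f : MvPolynomial (Fin (N + 1)) ℂ) (hf : aeval v f ≠ 0) {d : ℕ}
    (hd : f ∈ gr N d) (h0 : 0 < d) : (chart v hv f hf hd h0).opensRange = UU v hv f := by
  unfold chart
  rw [Scheme.Hom.opensRange_comp_of_isIso, IsAffineOpen.opensRange_fromSpec]

@[reassoc]
theorem chart_pt (f : MvPolynomial (Fin (N + 1)) ℂ) (hf : aeval v f ≠ 0) {d : ℕ}
    (hd : f ∈ gr N d) (h0 : 0 < d) :
    Spec.map (CommRingCat.ofHom (RR v f hf).subtype) ≫ chart v hv f hf hd h0 = XX.pt v hv := by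
  rw [chart, ← Category.assoc, ← Spec.map_comp,
    ← rho_fromSpec (XX.pt v hv) (UU v hv f) (pt_mem_UU v hv f hf hd h0) (UU_affine v hv f hd h0)]
  rfl

/-- elements of the chart ring: fractions `g(v)/f(v)^k` -/
theorem mem_RR_iff (f : MvPolynomial (Fin (N + 1)) ℂ) (hf : aeval v f ≠ 0) {d : ℕ}
    (hd : f ∈ gr N d) (x : K) : x ∈ RR v f hf ↔
      ∃ (n : ℕ) (g : MvPolynomial (Fin (N + 1)) ℂ), g ∈ gr N (n * d) ∧
        x = aeval v g / (aeval v f) ^ n := by
  constructor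
  · rintro ⟨a, rfl⟩
    obtain ⟨n, g, hg, rfl⟩ := HomogeneousLocalization.Away.mk_surjective (gr N) hd a
    exact ⟨n, g, hg, evA_mk v f hf hd n g hg⟩
  · rintro ⟨n, g, hg, rfl⟩
    exact ⟨HomogeneousLocalization.Away.mk (gr N) hd n g hg, evA_mk v f hf hd n g hg⟩

instance : IsReduced (XX v hv) := by
  refine ⟨fun U => ⟨fun s hs => ?_⟩⟩
  apply TopCat.Presheaf.section_ext (XX v hv).sheaf U s 0
  intro x hx
  obtain ⟨_, ⟨W, hW, rfl⟩, hxW, hWU⟩ :=
    ((PP N).isBasis_affineOpens.of_isInducing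
      (XX.emb v hv).isEmbedding.isInducing).exists_subset_of_mem_open (a := x) (u := U) hx U.2
  obtain ⟨V, hV, rfl⟩ := hW
  have hinj : Function.Injective ((XX.pt v hv).app (XX.emb v hv ⁻¹ᵁ V)) :=
    (xiP v hv).toImage_app_injective ⟨_, hV⟩
  have hred : _root_.IsReduced Γ(XX v hv, XX.emb v hv ⁻¹ᵁ V) :=
    isReduced_of_injective _ hinj
  have h0 : (XX v hv).presheaf.map (homOfLE (show XX.emb v hv ⁻¹ᵁ V ≤ U from hWU)).op s = 0 :=
    (hs.map _).eq_zero
  change (XX v hv).presheaf.germ U x hx s = (XX v hv).presheaf.germ U x hx 0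
  rw [map_zero, ← (XX v hv).presheaf.germ_res (homOfLE (show XX.emb v hv ⁻¹ᵁ V ≤ U from hWU)) x hxW,
    CommRingCat.comp_apply, h0, map_zero]

instance : IsIntegral (XX v hv) := by
  have hd : DenseRange (XX.pt v hv) := (XX.pt v hv).denseRange
  have hpre : IsPreirreducible (Set.univ : Set (XX v hv)) := by
    rw [← hd.closure_range, ← Set.image_univ]
    refine IsPreirreducible.closure (IsPreirreducible.image ?_ _ (XX.pt v hv).continuous.continuousOn)
    exact (IrreducibleSpace.isIrreducible_univ (Spec (.of K))).isPreirreducible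
  have : Nonempty (XX v hv) := ⟨XX.pt v hv (IsLocalRing.closedPoint K)⟩
  have : IrreducibleSpace (XX v hv) := { isPreirreducible_univ := hpre, toNonempty := this }
  exact isIntegral_of_irreducibleSpace_of_isReduced _

end

end M21X
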