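import Pool.Agent.H.MP_21b43d_ag.X.FinX
import Pool.Agent.H.MP_21b43d_ag.E3.Q.Bi
import Pool.Agent.H.MP_21b43d_ag.E3.Q.FinG

/-!
# M6 / X-part: the bielliptic surface has a stability condition
-/

set_option autoImplicit false

open CategoryTheory AlgebraicGeometry

namespace M21X

open M21 M21.E3

noncomputable section

variable {K : Type} [Field K] [Algebra ℂ K] {q : Quad K}

/-- **Existence of a stability condition on the bielliptic surface.** -/
theorem Quad.Good.nonempty_stabilityCondition (h : q.Good) :
    Nonempty (StabilityCondition q.str) :=
  (Bi.grid h).exists_stab h.ai (Bi.split h)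

/-- There is a smooth projective surface whose Albanese morphism is not finite, which has stability
conditions, and on which all stability conditions are geometric. -/
theorem exists_surface_stab : ∃ (X : Scheme.{0}) (f : X ⟶ Spec (.of ℂ))
    (_ : IsLocallyNoetherian X), IsSmoothProjectiveSurface f ∧ AlbaneseNotFinite f ∧
      Nonempty (StabilityCondition f) ∧ ∀ σ : StabilityCondition f, σ.IsGeometric := by
  obtain ⟨K, _, _, q, h⟩ := exists_good
  have hf := h.isSmoothProjectiveSurface
  have hl := locCond_of_surface q.str hf
  have hN := hl.noeth
  exact ⟨q.XX, q.str, hN, hf, h.albaneseNotFinite', h.nonempty_stabilityCondition,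
    fun σ => theoremE q.str hl h.condY σ⟩

end

end M21X
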