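import Pool.Agent.H.MP_21b43d_ag.X.Str

/-!
# M6 / X-part, file 4: the function field of the surface and its six charts (definitions)

`Quad K` : quadruples `(B, D, Y, Z)` of elements of a field `K` over `ℂ`.
`q.Good` : `B, Z` algebraically independent over `ℂ`, `D³ + B² + B = 0`, `1 + B Y³ + Z³ = 0`.
`q.AC = ℂ[B, 1/B, D, Y, Z] ⊆ K` : the ring of the chart.
`q.rot`, `q.swap` : change of charts (cyclic permutation of `u, v, w`; exchange of `x, z`).
In terms of `E × F`, `E = {u³+v³+w³=0}`, `F = {x³+y³+z³=0}`: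
`B = (v/u)³, D = vw/u², Y = (y/x)(u/v), Z = z/x`.
The surface is `X = closure of [1:B:D:Z:BZ:DZ:DY:BY:D²Y]` in `ℙ⁸`.
-/

set_option autoImplicit false

open CategoryTheory AlgebraicGeometry TopologicalSpace

namespace M21X

/-- quadruples of elements of a field -/
structure Quad (K : Type) where
  /-- `(v/u)³` -/
  B : K
  /-- `vw/u²` -/
  D : K
  /-- `(y/x)(u/v)` -/
  Y : K
  /-- `z/x` -/
  Z : K

namespace Quad

noncomputable section

variable {K : Type} [Field K]

/-- the change of charts `(u,v,w) → (v,w,u)` -/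
def rot (q : Quad K) : Quad K where
  B := -(1 + q.B) / q.B
  D := q.D / q.B
  Y := q.Y * q.B / q.D
  Z := q.Z

/-- the change of charts `(x,z) → (z,x)` -/
def swap (q : Quad K) : Quad K where
  B := q.B
  D := q.D
  Y := q.Y / q.Z
  Z := 1 / q.Z

/-- the nine homogeneous coordinates `a x, b x, d x, a z, b z, d z, u²w y, v²u y, w²v y`
(`a = u³, b = v³, d = uvw`), divided by `a x` -/
def vec (q : Quad K) : Fin 9 → K :=
  ![1, q.B, q.D, q.Z, q.B * q.Z, q.D * q.Z, q.D * q.Y, q.B * q.Y, q.D ^ 2 * q.Y]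

variable [Algebra ℂ K]

/-- the relations between the elements of a quadruple -/
structure Good (q : Quad K) : Prop where
  ai : AlgebraicIndependent ℂ ![q.B, q.Z]
  hD : q.D ^ 3 + q.B ^ 2 + q.B = 0
  hY : 1 + q.B * q.Y ^ 3 + q.Z ^ 3 = 0

/-- the ring of the chart -/
def AC (q : Quad K) : Subalgebra ℂ K := Algebra.adjoin ℂ {q.B, q.B⁻¹, q.D, q.Y, q.Z}

end

end Quad

end M21X
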