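import Pool.Agent.H.MP_21b43d_ag.X.AA

/-!
# M6 / X-part: maximal ideals of the chart ring; the Fermat cubic is irreducible
-/

set_option autoImplicit false

open MvPolynomial

namespace M21X

noncomputable section

/-- Coordinates of a maximal ideal. PROOF. `AA ⧸ n` is a field of finite type over `ℂ`, so it is
`ℂ` (Nullstellensatz: `finite_of_finite_type_of_isJacobsonRing` or similar +
`IsAlgClosed.algebraMap_bijective_of_isIntegral`). -/
theorem AA.coords (n : Ideal AA) [n.IsMaximal] : ∃ b0 d0 y0 z0 : ℂ,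
    AA.b - algebraMap ℂ AA b0 ∈ n ∧ AA.d - algebraMap ℂ AA d0 ∈ n ∧
      AA.y - algebraMap ℂ AA y0 ∈ n ∧ AA.z - algebraMap ℂ AA z0 ∈ n := by
  let := Ideal.Quotient.field n
  have hft : Algebra.FiniteType ℂ AA :=
    Algebra.FiniteType.of_surjective (Ideal.Quotient.mkₐ ℂ II) (Ideal.Quotient.mkₐ_surjective ℂ II)
  have hft2 : Algebra.FiniteType ℂ (AA ⧸ n) :=
    Algebra.FiniteType.of_surjective (Ideal.Quotient.mkₐ ℂ n) (Ideal.Quotient.mkₐ_surjective ℂ n)
  have hfin : Module.Finite ℂ (AA ⧸ n) := finite_of_finite_type_of_isJacobsonRing ℂ (AA ⧸ n)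
  have hint : Algebra.IsIntegral ℂ (AA ⧸ n) := inferInstance
  have hbij := IsAlgClosed.algebraMap_bijective_of_isIntegral (k := ℂ) (K := AA ⧸ n)
  have key : ∀ x : AA, ∃ c : ℂ, x - algebraMap ℂ AA c ∈ n := by
    intro x
    obtain ⟨c, hc⟩ := hbij.2 (Ideal.Quotient.mk n x)
    refine ⟨c, ?_⟩
    rw [← Ideal.Quotient.eq_zero_iff_mem, map_sub, sub_eq_zero, ← hc]
    rfl
  obtain ⟨b0, hb⟩ := key AA.b
  obtain ⟨d0, hd⟩ := key AA.d
  obtain ⟨y0, hy⟩ := key AA.y
  obtain ⟨z0, hz⟩ := key AA.z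
  exact ⟨b0, d0, y0, z0, hb, hd, hy, hz⟩

/-- For `β ≠ 0` the ring `ℂ[z][y]/(y³ + (1 + z³)/β)` is a domain. PROOF. The polynomial is monic and
Eisenstein at the prime `z + 1` of `ℂ[z]` (`1 + z³ = (z+1)(z²-z+1)`, `z²-z+1 = 3` at `z = -1`), so it
is irreducible over the UFD `ℂ[z]`, so prime (`Polynomial.IsEisensteinAt.irreducible`,
`AdjoinRoot.isDomain_of_prime`). -/
theorem cubic_isDomain (β : ℂ) (hβ : β ≠ 0) : IsDomain (AdjoinRoot
    (Polynomial.X ^ 3 + Polynomial.C (Polynomial.C β⁻¹ * (1 + Polynomial.X ^ 3)) :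
      Polynomial (Polynomial ℂ))) := by
  set c : Polynomial ℂ := Polynomial.C β⁻¹ * (1 + Polynomial.X ^ 3) with hc
  set f : Polynomial (Polynomial ℂ) := Polynomial.X ^ 3 + Polynomial.C c with hf
  have hmon : f.Monic := Polynomial.monic_X_pow_add_C c (by norm_num)
  have hdeg : f.natDegree = 3 := Polynomial.natDegree_X_pow_add_C
  have hu : IsUnit (Polynomial.C β⁻¹ : Polynomial ℂ) :=
    Polynomial.isUnit_C.2 (isUnit_iff_ne_zero.2 (inv_ne_zero hβ))
  have hP : Prime (Polynomial.X - Polynomial.C (-1 : ℂ)) := Polynomial.prime_X_sub_C (-1 : ℂ)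
  have hPI : (Ideal.span {Polynomial.X - Polynomial.C (-1 : ℂ)}).IsPrime :=
    (Ideal.span_singleton_prime hP.ne_zero).2 hP
  have hE : f.IsEisensteinAt (Ideal.span {Polynomial.X - Polynomial.C (-1 : ℂ)}) := by
    refine ⟨?_, ?_, ?_⟩
    · rw [hmon.leadingCoeff]
      exact fun h => hPI.ne_top ((Ideal.eq_top_iff_one _).2 h)
    · intro k hk
      rw [hdeg] at hk
      have h0 : f.coeff k = if k = 0 then c else 0 := by
        rw [hf, Polynomial.coeff_add, Polynomial.coeff_X_pow, Polynomial.coeff_C]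
        rw [if_neg (by omega), zero_add]
      rw [h0]
      split_ifs
      · rw [Ideal.mem_span_singleton, Polynomial.dvd_iff_isRoot]
        simp [hc, Polynomial.IsRoot]
        right
        norm_num
      · exact zero_mem _
    · have h0 : f.coeff 0 = c := by
        rw [hf, Polynomial.coeff_add, Polynomial.coeff_X_pow, Polynomial.coeff_C]
        simp
      rw [h0, Ideal.span_singleton_pow, Ideal.mem_span_singleton]
      intro hdvd
      have hcf : c = (Polynomial.X - Polynomial.C (-1 : ℂ)) *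
          (Polynomial.C β⁻¹ * (Polynomial.X ^ 2 - Polynomial.X + 1)) := by
        rw [hc]
        simp only [map_neg, map_one]
        ring
      rw [hcf, pow_two] at hdvd
      have h1 := (mul_dvd_mul_iff_left hP.ne_zero).1 hdvd
      rw [Polynomial.dvd_iff_isRoot] at h1
      simp only [Polynomial.IsRoot, Polynomial.eval_mul, Polynomial.eval_C, Polynomial.eval_add,
        Polynomial.eval_sub, Polynomial.eval_pow, Polynomial.eval_X, Polynomial.eval_one] at h1
      rcases mul_eq_zero.1 h1 with h | h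
      · exact inv_ne_zero hβ h
      · norm_num at h
  have hirr := hE.irreducible hPI hmon.isPrimitive (by rw [hdeg]; norm_num)
  exact AdjoinRoot.isDomain_of_prime hirr.prime

end

end M21X
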