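import Pool.Agent.H.MP_21b43d_ag.X.Loc1

/-!
# M6 / X-part: the ideal of a fibre is prime
-/

set_option autoImplicit false

open MvPolynomial

namespace M21X

noncomputable section

/-- The polynomial of the fibre over `β`. -/
abbrev Loc2_f (β : ℂ) : Polynomial (Polynomial ℂ) :=
  Polynomial.X ^ 3 + Polynomial.C (Polynomial.C β⁻¹ * (1 + Polynomial.X ^ 3))

theorem Loc2_monic (β : ℂ) : (Loc2_f β).Monic :=
  Polynomial.monic_X_pow_add_C _ (by norm_num)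

theorem Loc2_natDegree (β : ℂ) : (Loc2_f β).natDegree = 3 :=
  Polynomial.natDegree_X_pow_add_C

theorem Loc2_mk_ne {β : ℂ} {g : Polynomial (Polynomial ℂ)} (h0 : g ≠ 0) (h1 : g.natDegree < 3) :
    AdjoinRoot.mk (Loc2_f β) g ≠ 0 := by
  intro h
  rw [AdjoinRoot.mk_eq_zero] at h
  exact (Loc2_monic β).not_dvd_of_natDegree_lt h0 (by rw [Loc2_natDegree]; exact h1) h

/-- the defining relation -/
theorem Loc2_root (β : ℂ) : (AdjoinRoot.root (Loc2_f β)) ^ 3 +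
    AdjoinRoot.of (Loc2_f β) (Polynomial.C β⁻¹ * (1 + Polynomial.X ^ 3)) = 0 := by
  have h : Polynomial.eval₂ (AdjoinRoot.of (Loc2_f β)) (AdjoinRoot.root (Loc2_f β))
    (Polynomial.X ^ 3 + Polynomial.C (Polynomial.C β⁻¹ * (1 + Polynomial.X ^ 3))) = 0 :=
    AdjoinRoot.eval₂_root (Loc2_f β)
  rw [Polynomial.eval₂_add, Polynomial.eval₂_X_pow, Polynomial.eval₂_C] at h
  exact h

/-- If `b - b0` and `d - d0` lie in a proper ideal then `b0 ≠ 0` and the relation holds. -/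
theorem Loc2_rel (n : Ideal AA) (hn : n ≠ ⊤) (b0 d0 : ℂ)
    (hb : AA.b - algebraMap ℂ AA b0 ∈ n) (hd : AA.d - algebraMap ℂ AA d0 ∈ n) :
    b0 ≠ 0 ∧ d0 ^ 3 + b0 ^ 2 + b0 = 0 := by
  have hc : ∀ c : ℂ, algebraMap ℂ AA c ∈ n → c = 0 := by
    intro c hcn
    by_contra hc0
    apply hn
    rw [Ideal.eq_top_iff_one]
    have h1 : (1 : AA) = algebraMap ℂ AA c⁻¹ * algebraMap ℂ AA c := by
      rw [← map_mul, inv_mul_cancel₀ hc0, map_one]
    rw [h1]
    exact n.mul_mem_left _ hcn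
  constructor
  · intro h0
    rw [h0, map_zero, sub_zero] at hb
    apply hn
    rw [Ideal.eq_top_iff_one, ← AA.b_mul]
    exact n.mul_mem_right _ hb
  · apply hc
    have h1 : algebraMap ℂ AA (d0 ^ 3 + b0 ^ 2 + b0) =
        - ((AA.d - algebraMap ℂ AA d0) * (AA.d ^ 2 + AA.d * algebraMap ℂ AA d0 +
          (algebraMap ℂ AA d0) ^ 2) + (AA.b - algebraMap ℂ AA b0) *
          (AA.b + algebraMap ℂ AA b0 + 1)) := by
      rw [map_add, map_add, map_pow, map_pow]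
      linear_combination (AA.rel1)
    rw [h1]
    exact n.neg_mem (n.add_mem (n.mul_mem_right _ hd) (n.mul_mem_right _ hb))

/-- Every homomorphism with `b ↦ b0`, `d ↦ d0` factors through the coordinate ring of the fibre. -/
theorem Loc2_key (b0 d0 : ℂ) (hb0 : b0 ≠ 0)
    (e0 : algebraMap ℂ (AdjoinRoot (Loc2_f b0)) b0 *
      algebraMap ℂ (AdjoinRoot (Loc2_f b0)) b0⁻¹ = 1)
    (e1 : (algebraMap ℂ (AdjoinRoot (Loc2_f b0)) d0) ^ 3 +
      (algebraMap ℂ (AdjoinRoot (Loc2_f b0)) b0) ^ 2 +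
      algebraMap ℂ (AdjoinRoot (Loc2_f b0)) b0 = 0)
    (e2 : 1 + algebraMap ℂ (AdjoinRoot (Loc2_f b0)) b0 * (AdjoinRoot.root (Loc2_f b0)) ^ 3 +
      (AdjoinRoot.of (Loc2_f b0) Polynomial.X) ^ 3 = 0)
    {Q : Type} [CommRing Q] [Algebra ℂ Q] (π : AA →ₐ[ℂ] Q)
    (πb : π AA.b = algebraMap ℂ Q b0) (πd : π AA.d = algebraMap ℂ Q d0) (x : AA)
    (hx : AA.lift (algebraMap ℂ _ b0) (algebraMap ℂ _ b0⁻¹) (algebraMap ℂ _ d0)
      (AdjoinRoot.root (Loc2_f b0)) (AdjoinRoot.of (Loc2_f b0) Polynomial.X) e0 e1 e2 x = 0) :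
    π x = 0 := by
  have q0 : algebraMap ℂ Q b0⁻¹ * algebraMap ℂ Q b0 = 1 := by
    rw [← map_mul, inv_mul_cancel₀ hb0, map_one]
  have πb' : π AA.b' = algebraMap ℂ Q b0⁻¹ := by
    have h : π AA.b * π AA.b' = 1 := by rw [← map_mul, AA.b_mul, map_one]
    rw [πb] at h
    linear_combination (algebraMap ℂ Q b0⁻¹) * h - π AA.b' * q0
  have hχ : (Loc2_f b0).eval₂ ((Polynomial.aeval (π AA.z) : Polynomial ℂ →ₐ[ℂ] Q) :
      Polynomial ℂ →+* Q) (π AA.y) = 0 := by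
    have h : π (1 + AA.b * AA.y ^ 3 + AA.z ^ 3) = 0 := by rw [AA.rel2, map_zero]
    rw [map_add, map_add, map_one, map_mul, map_pow, map_pow, πb] at h
    rw [Loc2_f, Polynomial.eval₂_add, Polynomial.eval₂_X_pow, Polynomial.eval₂_C,
      RingHom.coe_coe, map_mul, map_add, map_one, map_pow, Polynomial.aeval_X,
      Polynomial.aeval_C]
    linear_combination (algebraMap ℂ Q b0⁻¹) * h - (π AA.y) ^ 3 * q0
  let χ : AdjoinRoot (Loc2_f b0) →ₐ[ℂ] Q :=
    AdjoinRoot.liftAlgHom (Loc2_f b0) (Polynomial.aeval (π AA.z)) (π AA.y) hχ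
  have hcomp : χ.comp (AA.lift (algebraMap ℂ _ b0) (algebraMap ℂ _ b0⁻¹) (algebraMap ℂ _ d0)
      (AdjoinRoot.root (Loc2_f b0)) (AdjoinRoot.of (Loc2_f b0) Polynomial.X) e0 e1 e2) = π := by
    apply AA.hom_ext
    · rw [AlgHom.comp_apply, AA.lift_b, AlgHom.commutes, πb]
    · rw [AlgHom.comp_apply, AA.lift_b', AlgHom.commutes, πb']
    · rw [AlgHom.comp_apply, AA.lift_d, AlgHom.commutes, πd]
    · rw [AlgHom.comp_apply, AA.lift_y]
      exact AdjoinRoot.liftAlgHom_root _ _ _ _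
    · rw [AlgHom.comp_apply, AA.lift_z]
      have := AdjoinRoot.liftAlgHom_of (Loc2_f b0) (Polynomial.aeval (π AA.z)) (π AA.y) hχ
        Polynomial.X
      rw [Polynomial.aeval_X] at this
      exact this
  rw [← hcomp, AlgHom.comp_apply, hx, map_zero]

/-- The ideal `(b - b0, d - d0)` of a fibre is prime and does not contain `y - y0` or `z - z0`.
PROOF. `b0 ≠ 0` since `b` is a unit. Let `S` be the domain of `cubic_isDomain b0`, `Y = root`,
`Z = Polynomial.X`; `ψ : AA → S`, `b ↦ b0, d ↦ d0, y ↦ Y, z ↦ Z` (`AA.lift`; `d0³ + b0² + b0 = 0`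
because `d³ + b² + b = 0` in `AA` and `AA ⧸ n ≠ 0`). Its kernel is `P = (b - b0, d - d0)`:
modulo `P` every element of `AA` is of the form `p0(z) + p1(z) y + p2(z) y²` with `p_i ∈ ℂ[z]`
(the set of such elements is a subalgebra containing the generators, because
`y³ = -(1 + z³)/b0` modulo `P`; use `AA.adjoin_eq_top`), and `1, Y, Y²` are linearly independent over
`ℂ[z]` in `S` (`AdjoinRoot.powerBasis'` of a monic polynomial). So `P` is prime; `ψ (y - y0) ≠ 0`,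
`ψ (z - z0) ≠ 0` are clear. -/
theorem AA.fibre_prime (n : Ideal AA) [n.IsMaximal] (b0 d0 : ℂ)
    (hb : AA.b - algebraMap ℂ AA b0 ∈ n) (hd : AA.d - algebraMap ℂ AA d0 ∈ n) :
    (Ideal.span {AA.b - algebraMap ℂ AA b0, AA.d - algebraMap ℂ AA d0}).IsPrime ∧
      (∀ y0 : ℂ, AA.y - algebraMap ℂ AA y0 ∉
        Ideal.span {AA.b - algebraMap ℂ AA b0, AA.d - algebraMap ℂ AA d0}) ∧
      (∀ z0 : ℂ, AA.z - algebraMap ℂ AA z0 ∉
        Ideal.span {AA.b - algebraMap ℂ AA b0, AA.d - algebraMap ℂ AA d0}) := by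
  obtain ⟨hb0, hrel⟩ := Loc2_rel n (Ideal.IsMaximal.ne_top inferInstance) b0 d0 hb hd
  set P : Ideal AA := Ideal.span {AA.b - algebraMap ℂ AA b0, AA.d - algebraMap ℂ AA d0} with hP
  have hdom : IsDomain (AdjoinRoot (Loc2_f b0)) := cubic_isDomain b0 hb0
  -- the map `ψ`
  have e0 : algebraMap ℂ (AdjoinRoot (Loc2_f b0)) b0 *
      algebraMap ℂ (AdjoinRoot (Loc2_f b0)) b0⁻¹ = 1 := by
    rw [← map_mul, mul_inv_cancel₀ hb0, map_one]
  have e1 : (algebraMap ℂ (AdjoinRoot (Loc2_f b0)) d0) ^ 3 +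
      (algebraMap ℂ (AdjoinRoot (Loc2_f b0)) b0) ^ 2 +
      algebraMap ℂ (AdjoinRoot (Loc2_f b0)) b0 = 0 := by
    rw [← map_pow, ← map_pow, ← map_add, ← map_add, hrel, map_zero]
  have hal : ∀ c : ℂ, algebraMap ℂ (AdjoinRoot (Loc2_f b0)) c =
      AdjoinRoot.of (Loc2_f b0) (Polynomial.C c) := fun c => rfl
  have e2 : 1 + algebraMap ℂ (AdjoinRoot (Loc2_f b0)) b0 * (AdjoinRoot.root (Loc2_f b0)) ^ 3 +
      (AdjoinRoot.of (Loc2_f b0) Polynomial.X) ^ 3 = 0 := by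
    have h := Loc2_root b0
    rw [map_mul, map_add, map_one, map_pow, ← hal] at h
    linear_combination (algebraMap ℂ (AdjoinRoot (Loc2_f b0)) b0) * h -
      (1 + (AdjoinRoot.of (Loc2_f b0) Polynomial.X) ^ 3) * e0
  let ψ : AA →ₐ[ℂ] AdjoinRoot (Loc2_f b0) :=
    AA.lift (algebraMap ℂ _ b0) (algebraMap ℂ _ b0⁻¹) (algebraMap ℂ _ d0)
      (AdjoinRoot.root (Loc2_f b0)) (AdjoinRoot.of (Loc2_f b0) Polynomial.X) e0 e1 e2
  have ψb : ψ AA.b = algebraMap ℂ _ b0 := AA.lift_b e0 e1 e2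
  have ψb' : ψ AA.b' = algebraMap ℂ _ b0⁻¹ := AA.lift_b' e0 e1 e2
  have ψd : ψ AA.d = algebraMap ℂ _ d0 := AA.lift_d e0 e1 e2
  have ψy : ψ AA.y = AdjoinRoot.root (Loc2_f b0) := AA.lift_y e0 e1 e2
  have ψz : ψ AA.z = AdjoinRoot.of (Loc2_f b0) Polynomial.X := AA.lift_z e0 e1 e2
  have hle : P ≤ RingHom.ker (ψ : AA →+* AdjoinRoot (Loc2_f b0)) := by
    rw [hP, Ideal.span_le]
    rintro x (rfl | rfl)
    · show ψ (AA.b - algebraMap ℂ AA b0) = 0
      rw [map_sub, AlgHom.commutes, ψb, sub_self]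
    · show ψ (AA.d - algebraMap ℂ AA d0) = 0
      rw [map_sub, AlgHom.commutes, ψd, sub_self]
  have hge : RingHom.ker (ψ : AA →+* AdjoinRoot (Loc2_f b0)) ≤ P := by
    intro x hx
    have hx' : ψ x = 0 := hx
    have h : Ideal.Quotient.mkₐ ℂ P x = 0 := by
      refine Loc2_key (Q := AA ⧸ P) b0 d0 hb0 e0 e1 e2 (Ideal.Quotient.mkₐ ℂ P) ?_ ?_ x hx'
      · rw [← AlgHom.commutes (Ideal.Quotient.mkₐ ℂ P), ← sub_eq_zero, ← map_sub]
        exact Ideal.Quotient.eq_zero_iff_mem.2 (Ideal.subset_span (by simp))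
      · rw [← AlgHom.commutes (Ideal.Quotient.mkₐ ℂ P), ← sub_eq_zero, ← map_sub]
        exact Ideal.Quotient.eq_zero_iff_mem.2 (Ideal.subset_span (by simp))
    exact Ideal.Quotient.eq_zero_iff_mem.1 h
  have hker : P = RingHom.ker (ψ : AA →+* AdjoinRoot (Loc2_f b0)) := le_antisymm hle hge
  refine ⟨?_, ?_, ?_⟩
  · rw [hker]
    exact RingHom.ker_isPrime _
  · intro y0 hy
    have h : ψ (AA.y - algebraMap ℂ AA y0) = 0 := hle hy
    rw [map_sub, AlgHom.commutes, ψy, hal] at h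
    have h' : AdjoinRoot.mk (Loc2_f b0) (Polynomial.X - Polynomial.C (Polynomial.C y0)) = 0 := by
      rw [map_sub]
      exact h
    refine Loc2_mk_ne (Polynomial.X_sub_C_ne_zero _) ?_ h'
    rw [Polynomial.natDegree_X_sub_C]
    norm_num
  · intro z0 hz
    have h : ψ (AA.z - algebraMap ℂ AA z0) = 0 := hle hz
    rw [map_sub, AlgHom.commutes, ψz, hal, ← map_sub] at h
    have h' : AdjoinRoot.mk (Loc2_f b0)
        (Polynomial.C (Polynomial.X - Polynomial.C z0)) = 0 := h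
    refine Loc2_mk_ne ?_ ?_ h'
    · rw [Polynomial.C_ne_zero]
      exact Polynomial.X_sub_C_ne_zero _
    · rw [Polynomial.natDegree_C]
      norm_num

end

end M21X
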