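import Pool.Agent.H.MP_21b43d_ag.X.Loc2

/-!
# M6 / X-part: the local rings of the surface at closed points
-/

set_option autoImplicit false

open MvPolynomial

namespace M21X

noncomputable section

theorem Loc3_const {n : Ideal AA} [n.IsMaximal] {c : ℂ} (h : algebraMap ℂ AA c ∈ n) : c = 0 := by
  by_contra hc
  have hu : IsUnit (algebraMap ℂ AA c) := (IsUnit.mk0 c hc).map (algebraMap ℂ AA)
  exact Ideal.IsMaximal.ne_top inferInstance (Ideal.eq_top_of_isUnit_mem n h hu)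

section

variable (n : Ideal AA) [n.IsMaximal] {b0 d0 y0 z0 : ℂ}

theorem Loc3_b0 (hb : AA.b - algebraMap ℂ AA b0 ∈ n) : b0 ≠ 0 := by
  rintro rfl
  rw [map_zero, sub_zero] at hb
  have h1 : (1 : AA) ∈ n := by
    rw [← AA.b_mul]
    exact n.mul_mem_right _ hb
  exact Ideal.IsMaximal.ne_top inferInstance ((Ideal.eq_top_iff_one n).2 h1)

theorem Loc3_r1 (hb : AA.b - algebraMap ℂ AA b0 ∈ n) (hd : AA.d - algebraMap ℂ AA d0 ∈ n) :
    d0 ^ 3 + b0 ^ 2 + b0 = 0 := by
  apply Loc3_const (n := n)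
  have h : algebraMap ℂ AA (d0 ^ 3 + b0 ^ 2 + b0) =
      -((AA.d ^ 2 + AA.d * algebraMap ℂ AA d0 + algebraMap ℂ AA d0 ^ 2) *
          (AA.d - algebraMap ℂ AA d0) +
        (AA.b + algebraMap ℂ AA b0 + 1) * (AA.b - algebraMap ℂ AA b0)) := by
    rw [map_add, map_add, map_pow, map_pow]
    linear_combination AA.rel1
  rw [h]
  exact n.neg_mem (n.add_mem (n.mul_mem_left _ hd) (n.mul_mem_left _ hb))

theorem Loc3_r2 (hb : AA.b - algebraMap ℂ AA b0 ∈ n) (hy : AA.y - algebraMap ℂ AA y0 ∈ n)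
    (hz : AA.z - algebraMap ℂ AA z0 ∈ n) : 1 + b0 * y0 ^ 3 + z0 ^ 3 = 0 := by
  apply Loc3_const (n := n)
  have h : algebraMap ℂ AA (1 + b0 * y0 ^ 3 + z0 ^ 3) =
      -((AA.b * (AA.y ^ 2 + AA.y * algebraMap ℂ AA y0 + algebraMap ℂ AA y0 ^ 2)) *
          (AA.y - algebraMap ℂ AA y0) +
        (AA.z ^ 2 + AA.z * algebraMap ℂ AA z0 + algebraMap ℂ AA z0 ^ 2) *
          (AA.z - algebraMap ℂ AA z0) +
        algebraMap ℂ AA y0 ^ 3 * (AA.b - algebraMap ℂ AA b0)) := by
    rw [map_add, map_add, map_mul, map_pow, map_pow, map_one]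
    linear_combination AA.rel2
  rw [h]
  exact n.neg_mem (n.add_mem (n.add_mem (n.mul_mem_left _ hy) (n.mul_mem_left _ hz))
    (n.mul_mem_left _ hb))

theorem Loc3_e1 (h1 : d0 ^ 3 + b0 ^ 2 + b0 = 0) :
    (AA.d ^ 2 + AA.d * algebraMap ℂ AA d0 + algebraMap ℂ AA d0 ^ 2) *
        (AA.d - algebraMap ℂ AA d0) +
      (AA.b + algebraMap ℂ AA b0 + 1) * (AA.b - algebraMap ℂ AA b0) = 0 := by
  have h : algebraMap ℂ AA (d0 ^ 3 + b0 ^ 2 + b0) = 0 := by rw [h1, map_zero]
  rw [map_add, map_add, map_pow, map_pow] at h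
  linear_combination AA.rel1 - h

theorem Loc3_e2 (h2 : 1 + b0 * y0 ^ 3 + z0 ^ 3 = 0) :
    (AA.b * (AA.y ^ 2 + AA.y * algebraMap ℂ AA y0 + algebraMap ℂ AA y0 ^ 2)) *
          (AA.y - algebraMap ℂ AA y0) +
        (AA.z ^ 2 + AA.z * algebraMap ℂ AA z0 + algebraMap ℂ AA z0 ^ 2) *
          (AA.z - algebraMap ℂ AA z0) +
        algebraMap ℂ AA y0 ^ 3 * (AA.b - algebraMap ℂ AA b0) = 0 := by
  have h : algebraMap ℂ AA (1 + b0 * y0 ^ 3 + z0 ^ 3) = 0 := by rw [h2, map_zero]
  rw [map_add, map_add, map_mul, map_pow, map_pow, map_one] at h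
  linear_combination AA.rel2 - h

theorem Loc3_u1 (hd : AA.d - algebraMap ℂ AA d0 ∈ n) (h : d0 ≠ 0) :
    AA.d ^ 2 + AA.d * algebraMap ℂ AA d0 + algebraMap ℂ AA d0 ^ 2 ∉ n := by
  intro hu
  have h1 : algebraMap ℂ AA (3 * d0 ^ 2) ∈ n := by
    have h2 : algebraMap ℂ AA (3 * d0 ^ 2) =
        (AA.d ^ 2 + AA.d * algebraMap ℂ AA d0 + algebraMap ℂ AA d0 ^ 2) -
          (AA.d + 2 * algebraMap ℂ AA d0) * (AA.d - algebraMap ℂ AA d0) := by
      rw [map_mul, map_pow, map_ofNat]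
      ring
    rw [h2]
    exact n.sub_mem hu (n.mul_mem_left _ hd)
  have h3 := Loc3_const h1
  exact h (pow_eq_zero_iff (two_ne_zero)|>.1 ((mul_eq_zero.1 h3).resolve_left (by norm_num)))

theorem Loc3_v2 (hz : AA.z - algebraMap ℂ AA z0 ∈ n) (h : z0 ≠ 0) :
    AA.z ^ 2 + AA.z * algebraMap ℂ AA z0 + algebraMap ℂ AA z0 ^ 2 ∉ n := by
  intro hu
  have h1 : algebraMap ℂ AA (3 * z0 ^ 2) ∈ n := by
    have h2 : algebraMap ℂ AA (3 * z0 ^ 2) =
        (AA.z ^ 2 + AA.z * algebraMap ℂ AA z0 + algebraMap ℂ AA z0 ^ 2) -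
          (AA.z + 2 * algebraMap ℂ AA z0) * (AA.z - algebraMap ℂ AA z0) := by
      rw [map_mul, map_pow, map_ofNat]
      ring
    rw [h2]
    exact n.sub_mem hu (n.mul_mem_left _ hz)
  have h3 := Loc3_const h1
  exact h (pow_eq_zero_iff (two_ne_zero)|>.1 ((mul_eq_zero.1 h3).resolve_left (by norm_num)))

theorem Loc3_v1 (hb : AA.b - algebraMap ℂ AA b0 ∈ n) (hy : AA.y - algebraMap ℂ AA y0 ∈ n)
    (hb0 : b0 ≠ 0) (h : y0 ≠ 0) :
    AA.b * (AA.y ^ 2 + AA.y * algebraMap ℂ AA y0 + algebraMap ℂ AA y0 ^ 2) ∉ n := by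
  intro hu
  have h1 : algebraMap ℂ AA (3 * (b0 * y0 ^ 2)) ∈ n := by
    have h2 : algebraMap ℂ AA (3 * (b0 * y0 ^ 2)) =
        AA.b * (AA.y ^ 2 + AA.y * algebraMap ℂ AA y0 + algebraMap ℂ AA y0 ^ 2) -
          (AA.b * (AA.y + 2 * algebraMap ℂ AA y0) * (AA.y - algebraMap ℂ AA y0) +
            3 * algebraMap ℂ AA y0 ^ 2 * (AA.b - algebraMap ℂ AA b0)) := by
      rw [map_mul, map_mul, map_pow, map_ofNat]
      ring
    rw [h2]
    exact n.sub_mem hu (n.add_mem (n.mul_mem_left _ hy) (n.mul_mem_left _ hb))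
  have h3 := Loc3_const h1
  have h4 := (mul_eq_zero.1 h3).resolve_left (by norm_num)
  exact h (pow_eq_zero_iff (two_ne_zero)|>.1 ((mul_eq_zero.1 h4).resolve_left hb0))

theorem Loc3_u2 (hb : AA.b - algebraMap ℂ AA b0 ∈ n) (h : 2 * b0 + 1 ≠ 0) :
    AA.b + algebraMap ℂ AA b0 + 1 ∉ n := by
  intro hu
  apply h
  apply Loc3_const (n := n)
  have h2 : algebraMap ℂ AA (2 * b0 + 1) =
      (AA.b + algebraMap ℂ AA b0 + 1) - (AA.b - algebraMap ℂ AA b0) := by
    rw [map_add, map_mul, map_ofNat, map_one]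
    ring
  rw [h2]
  exact n.sub_mem hu hb

theorem Loc3_span (hb : AA.b - algebraMap ℂ AA b0 ∈ n) (hd : AA.d - algebraMap ℂ AA d0 ∈ n)
    (hy : AA.y - algebraMap ℂ AA y0 ∈ n) (hz : AA.z - algebraMap ℂ AA z0 ∈ n) :
    n = Ideal.span {AA.b - algebraMap ℂ AA b0, AA.d - algebraMap ℂ AA d0,
      AA.y - algebraMap ℂ AA y0, AA.z - algebraMap ℂ AA z0} := by
  set J := Ideal.span {AA.b - algebraMap ℂ AA b0, AA.d - algebraMap ℂ AA d0,
      AA.y - algebraMap ℂ AA y0, AA.z - algebraMap ℂ AA z0} with hJ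
  have hJn : J ≤ n := by
    rw [hJ, Ideal.span_le]
    rintro x (rfl | rfl | rfl | rfl)
    · exact hb
    · exact hd
    · exact hy
    · exact hz
  have hb0 := Loc3_b0 n hb
  have jb : AA.b - algebraMap ℂ AA b0 ∈ J := Ideal.subset_span (by simp)
  have jd : AA.d - algebraMap ℂ AA d0 ∈ J := Ideal.subset_span (by simp)
  have jy : AA.y - algebraMap ℂ AA y0 ∈ J := Ideal.subset_span (by simp)
  have jz : AA.z - algebraMap ℂ AA z0 ∈ J := Ideal.subset_span (by simp)
  have key : ∀ x : AA, ∃ c : ℂ, x - algebraMap ℂ AA c ∈ J := by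
    intro x
    have hx : x ∈ Algebra.adjoin ℂ {AA.b, AA.b', AA.d, AA.y, AA.z} := by
      rw [AA.adjoin_eq_top]
      exact Algebra.mem_top
    induction hx using Algebra.adjoin_induction with
    | mem x hx =>
      rcases hx with rfl | rfl | rfl | rfl | rfl
      · exact ⟨b0, jb⟩
      · refine ⟨b0⁻¹, ?_⟩
        have h1 : AA.b' - algebraMap ℂ AA b0⁻¹ =
            -(AA.b' * algebraMap ℂ AA b0⁻¹) * (AA.b - algebraMap ℂ AA b0) := by
          have h2 : algebraMap ℂ AA b0⁻¹ * algebraMap ℂ AA b0 = 1 := by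
            rw [← map_mul, inv_mul_cancel₀ hb0, map_one]
          linear_combination (-AA.b') * h2 + algebraMap ℂ AA b0⁻¹ * AA.b_mul
        rw [h1]
        exact J.mul_mem_left _ jb
      · exact ⟨d0, jd⟩
      · exact ⟨y0, jy⟩
      · exact ⟨z0, jz⟩
    | algebraMap c => exact ⟨c, by rw [sub_self]; exact J.zero_mem⟩
    | add x y _ _ hx hy =>
      obtain ⟨c, hc⟩ := hx
      obtain ⟨e, he⟩ := hy
      refine ⟨c + e, ?_⟩
      rw [map_add, add_sub_add_comm]
      exact J.add_mem hc he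
    | mul x y _ _ hx hy =>
      obtain ⟨c, hc⟩ := hx
      obtain ⟨e, he⟩ := hy
      refine ⟨c * e, ?_⟩
      have h1 : x * y - algebraMap ℂ AA (c * e) =
          x * (y - algebraMap ℂ AA e) + algebraMap ℂ AA e * (x - algebraMap ℂ AA c) := by
        rw [map_mul]
        ring
      rw [h1]
      exact J.add_mem (J.mul_mem_left _ he) (J.mul_mem_left _ hc)
  refine le_antisymm (fun x hx => ?_) hJn
  obtain ⟨c, hc⟩ := key x
  have h1 : algebraMap ℂ AA c ∈ n := by
    have h2 : algebraMap ℂ AA c = x - (x - algebraMap ℂ AA c) := by ring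
    rw [h2]
    exact n.sub_mem hx (hJn hc)
  rw [Loc3_const h1, map_zero, sub_zero] at hc
  exact hc

end

/-- there is a homomorphism to the complex numbers with a given value of `b` -/
theorem Loc3_point (B : ℂ) (hB : B ≠ 0) : ∃ (D : ℂ) (f : AA →ₐ[ℂ] ℂ), D ^ 3 + B ^ 2 + B = 0 ∧
    f AA.b = B ∧ f AA.d = D := by
  obtain ⟨D, hD⟩ := IsAlgClosed.exists_pow_nat_eq (-(B ^ 2 + B)) (n := 3) (by norm_num)
  have h1 : D ^ 3 + B ^ 2 + B = 0 := by rw [hD]; ring
  refine ⟨D, AA.lift B B⁻¹ D 0 (-1) (mul_inv_cancel₀ hB) h1 (by norm_num), h1, ?_, ?_⟩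
  · simp
  · simp

theorem Loc3_b_ne (b0 : ℂ) : AA.b - algebraMap ℂ AA b0 ≠ 0 := by
  intro h
  obtain ⟨B, hB, hne⟩ : ∃ B : ℂ, B ≠ 0 ∧ B ≠ b0 := by
    by_cases h1 : b0 = 1
    · exact ⟨2, two_ne_zero, by rw [h1]; norm_num⟩
    · exact ⟨1, one_ne_zero, fun h2 => h1 h2.symm⟩
  obtain ⟨D, f, -, h2, -⟩ := Loc3_point B hB
  apply hne
  have h3 := congrArg f h
  rw [map_sub, h2, AlgHom.commutes, map_zero, sub_eq_zero] at h3
  exact h3

theorem Loc3_d_ne (d0 : ℂ) : AA.d - algebraMap ℂ AA d0 ≠ 0 := by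
  intro h
  by_cases h0 : d0 = 0
  · obtain ⟨D, f, h1, -, h2⟩ := Loc3_point 1 one_ne_zero
    have h3 := congrArg f h
    rw [map_sub, h2, AlgHom.commutes, map_zero, sub_eq_zero] at h3
    have h4 : D = 0 := by rw [h3, h0]; rfl
    rw [h4] at h1
    norm_num at h1
  · obtain ⟨D, f, h1, -, h2⟩ := Loc3_point (-1) (by norm_num)
    have h3 := congrArg f h
    rw [map_sub, h2, AlgHom.commutes, map_zero, sub_eq_zero] at h3
    have h4 : D ^ 3 = 0 := by linear_combination h1
    apply h0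
    have h5 : D = 0 := pow_eq_zero_iff (three_ne_zero)|>.1 h4
    rw [h5] at h3
    exact h3.symm

theorem Loc3_mem_of_unit {R : Type*} [CommRing R] {u x y a : R} {I : Ideal R} (v w : R)
    (h : u * x + v * y + w * a = 0) (hu : IsUnit u) (hy : y ∈ I) (ha : a ∈ I) : x ∈ I := by
  obtain ⟨u, rfl⟩ := hu
  have h1 : x = -((↑u⁻¹ : R) * v) * y + -((↑u⁻¹ : R) * w) * a := by
    have h2 : (↑u⁻¹ : R) * ↑u = 1 := Units.inv_mul u
    linear_combination (↑u⁻¹ : R) * h - x * h2
  rw [h1]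
  exact I.add_mem (I.mul_mem_left _ hy) (I.mul_mem_left _ ha)

/-- **Local rings.** PROOF. Let `n` be maximal, `b0, d0, y0, z0` its coordinates,
`n = (b - b0, d - d0, y - y0, z - z0)`. In `AA`:
`(d - d0)(d² + d d0 + d0²) + (b - b0)(b + b0 + 1) = 0`, and modulo `n` the two cofactors are `3 d0²`
and `2 b0 + 1`, not both zero (if `d0 = 0` then `b0² + b0 = 0` and `2 b0 + 1 = ±1`). So one of
`b - b0`, `d - d0` is a multiple of the other one, `a`, in `R = AA_n`. In the same way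
`b (y³ - y0³) + (z³ - z0³) + (b - b0) y0³ = 0` shows that modulo `a` one of `y - y0`, `z - z0` is a
multiple of the other one, `c` (cofactors `3 b0 y0²`, `3 z0²`, not both zero since
`1 + b0 y0³ + z0³ = 0`). So the maximal ideal of `R` is `(a, c)`. `a` is nonzero in `R`
(domain; `b - b0 ≠ 0`, `d - d0 ≠ 0` in `AA`: otherwise `AA` would not have the homomorphisms with
other values of `b`; e.g. `a ∉` another maximal ideal), and `aR = P R` with `P` the prime ideal of
`AA.fibre_prime`, so `R/aR` is a domain in which `c ≠ 0`. -/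
theorem AA.loc [IsDomain AA] (n : Ideal AA) [n.IsMaximal] :
    ∃ a c : Localization.AtPrime n,
      IsLocalRing.maximalIdeal (Localization.AtPrime n) = Ideal.span {a, c} ∧ a ≠ 0 ∧
        ∀ r, a ∣ c * r → a ∣ r := by
  obtain ⟨b0, d0, y0, z0, hb, hd, hy, hz⟩ := AA.coords n
  have hb0 := Loc3_b0 n hb
  have hr1 := Loc3_r1 n hb hd
  have hr2 := Loc3_r2 n hb hy hz
  have he1 := Loc3_e1 hr1
  have he2 := Loc3_e2 hr2
  obtain ⟨hP, hPy, hPz⟩ := AA.fibre_prime n b0 d0 hb hd
  have hspan := Loc3_span n hb hd hy hz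
  have hβ := Loc3_b_ne b0
  have hδ := Loc3_d_ne d0
  have hPyy := hPy y0
  have hPzz := hPz z0
  generalize hβe : AA.b - algebraMap ℂ AA b0 = β at *
  generalize hδe : AA.d - algebraMap ℂ AA d0 = δ at *
  generalize hηe : AA.y - algebraMap ℂ AA y0 = η at *
  generalize hζe : AA.z - algebraMap ℂ AA z0 = ζ at *
  set f : AA →+* Localization.AtPrime n := algebraMap AA (Localization.AtPrime n) with hf
  have hinj : Function.Injective f :=
    IsLocalization.injective (Localization.AtPrime n) n.primeCompl_le_nonZeroDivisors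
  have hunit : ∀ u : AA, u ∉ n → IsUnit (f u) := fun u hu =>
    IsLocalization.map_units (Localization.AtPrime n) (⟨u, hu⟩ : n.primeCompl)
  -- the element `a`
  obtain ⟨α, hα, hαβ, hαδ⟩ : ∃ α : AA, (α = β ∨ α = δ) ∧ f β ∈ Ideal.span {f α} ∧
      f δ ∈ Ideal.span {f α} := by
    by_cases h : d0 = 0
    · -- `2 b0 + 1 ≠ 0`
      have h1 : b0 = -1 := by
        have h2 : b0 * (b0 + 1) = 0 := by
          rw [h] at hr1
          linear_combination hr1
        have h3 := (mul_eq_zero.1 h2).resolve_left hb0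
        linear_combination h3
      have h4 : AA.b + algebraMap ℂ AA b0 + 1 ∉ n := by
        apply Loc3_u2 n (b0 := b0)
        · rw [hβe]; exact hb
        · rw [h1]; norm_num
      refine ⟨δ, Or.inr rfl, ?_, Ideal.subset_span rfl⟩
      have h5 := congrArg f he1
      rw [map_add, map_mul, map_mul, map_zero] at h5
      refine Loc3_mem_of_unit (a := 0)
        (f (AA.d ^ 2 + AA.d * algebraMap ℂ AA d0 + algebraMap ℂ AA d0 ^ 2)) 0 ?_
        (hunit _ h4) (Ideal.subset_span rfl) (Ideal.zero_mem _)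
      rw [mul_zero, add_zero]
      exact (add_comm _ _).trans h5
    · have h4 : AA.d ^ 2 + AA.d * algebraMap ℂ AA d0 + algebraMap ℂ AA d0 ^ 2 ∉ n := by
        apply Loc3_u1 n _ h
        rw [hδe]; exact hd
      refine ⟨β, Or.inl rfl, Ideal.subset_span rfl, ?_⟩
      have h5 := congrArg f he1
      rw [map_add, map_mul, map_mul, map_zero] at h5
      refine Loc3_mem_of_unit (a := 0) (f (AA.b + algebraMap ℂ AA b0 + 1)) 0 ?_
        (hunit _ h4) (Ideal.subset_span rfl) (Ideal.zero_mem _)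
      rw [mul_zero, add_zero]
      exact h5
  -- the element `c`
  obtain ⟨γ, hγ, hγη, hγζ⟩ : ∃ γ : AA, (γ = η ∨ γ = ζ) ∧ f η ∈ Ideal.span {f α, f γ} ∧
      f ζ ∈ Ideal.span {f α, f γ} := by
    have h5 : f (AA.b * (AA.y ^ 2 + AA.y * algebraMap ℂ AA y0 + algebraMap ℂ AA y0 ^ 2)) * f η +
        f (AA.z ^ 2 + AA.z * algebraMap ℂ AA z0 + algebraMap ℂ AA z0 ^ 2) * f ζ +
        f (algebraMap ℂ AA y0 ^ 3) * f β = 0 := by
      rw [← map_mul f, ← map_mul f, ← map_mul f, ← map_add f, ← map_add f, he2, map_zero]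
    have hle : ∀ γ : AA, f β ∈ Ideal.span {f α, f γ} := fun γ =>
      Ideal.span_mono (Set.singleton_subset_iff.2 (Set.mem_insert _ _)) hαβ
    by_cases h : y0 = 0
    · have hz0 : z0 ≠ 0 := by
        intro h6
        rw [h, h6] at hr2
        norm_num at hr2
      have h4 : AA.z ^ 2 + AA.z * algebraMap ℂ AA z0 + algebraMap ℂ AA z0 ^ 2 ∉ n := by
        apply Loc3_v2 n _ hz0
        rw [hζe]; exact hz
      refine ⟨η, Or.inl rfl, Ideal.subset_span (by simp), ?_⟩
      have hmem : f η ∈ Ideal.span {f α, f η} := Ideal.subset_span (by simp)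
      refine Loc3_mem_of_unit
        (f (AA.b * (AA.y ^ 2 + AA.y * algebraMap ℂ AA y0 + algebraMap ℂ AA y0 ^ 2)))
        (f (algebraMap ℂ AA y0 ^ 3)) ?_ (hunit _ h4) hmem (hle η)
      exact (congrArg (· + _) (add_comm _ _)).trans h5
    · have h4 : AA.b * (AA.y ^ 2 + AA.y * algebraMap ℂ AA y0 + algebraMap ℂ AA y0 ^ 2) ∉ n := by
        apply Loc3_v1 n _ _ hb0 h
        · rw [hβe]; exact hb
        · rw [hηe]; exact hy
      refine ⟨ζ, Or.inr rfl, ?_, Ideal.subset_span (by simp)⟩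
      have hmem : f ζ ∈ Ideal.span {f α, f ζ} := Ideal.subset_span (by simp)
      refine Loc3_mem_of_unit
        (f (AA.z ^ 2 + AA.z * algebraMap ℂ AA z0 + algebraMap ℂ AA z0 ^ 2))
        (f (algebraMap ℂ AA y0 ^ 3)) ?_ (hunit _ h4) hmem (hle ζ)
      exact h5
  refine ⟨f α, f γ, ?_, ?_, ?_⟩
  · rw [← Localization.AtPrime.map_eq_maximalIdeal,
      show Ideal.map (algebraMap AA (Localization.AtPrime n)) n =
        Ideal.map f (Ideal.span {β, δ, η, ζ}) from congrArg (Ideal.map f) hspan]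
    apply le_antisymm
    · rw [Ideal.map_span, Ideal.span_le]
      rintro x ⟨w, hw, rfl⟩
      have hsub : Ideal.span {f α} ≤ Ideal.span {f α, f γ} :=
        Ideal.span_mono (Set.singleton_subset_iff.2 (Set.mem_insert _ _))
      rcases hw with rfl | rfl | rfl | rfl
      · exact hsub hαβ
      · exact hsub hαδ
      · exact hγη
      · exact hγζ
    · rw [Ideal.span_le]
      rintro x (rfl | rfl)
      · apply Ideal.mem_map_of_mem
        apply Ideal.subset_span
        rcases hα with h | h <;> simp [h]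
      · apply Ideal.mem_map_of_mem
        apply Ideal.subset_span
        rcases hγ with h | h <;> simp [h]
  · intro h
    rw [← map_zero f] at h
    have h1 := hinj h
    rcases hα with h2 | h2
    · exact hβ (h2 ▸ h1)
    · exact hδ (h2 ▸ h1)
  · intro r hr
    have hPle : Ideal.span {β, δ} ≤ n := by
      rw [Ideal.span_le]
      rintro x (rfl | rfl)
      · exact hb
      · exact hd
    have hdisj : Disjoint (n.primeCompl : Set AA) (Ideal.span {β, δ} : Ideal AA) := by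
      rw [Set.disjoint_left]
      intro x hx hx2
      exact hx (hPle hx2)
    have hPR : (Ideal.map f (Ideal.span {β, δ})).IsPrime :=
      IsLocalization.isPrime_of_isPrime_disjoint n.primeCompl (Localization.AtPrime n) _ hP hdisj
    have hcm : Ideal.comap f (Ideal.map f (Ideal.span {β, δ})) = Ideal.span {β, δ} :=
      IsLocalization.under_map_of_isPrime_disjoint n.primeCompl (Localization.AtPrime n) hP hdisj
    have heq : Ideal.map f (Ideal.span {β, δ}) = Ideal.span {f α} := by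
      apply le_antisymm
      · rw [Ideal.map_span, Ideal.span_le]
        rintro x ⟨w, hw, rfl⟩
        rcases hw with rfl | rfl
        · exact hαβ
        · exact hαδ
      · rw [Ideal.span_le]
        rintro x rfl
        apply Ideal.mem_map_of_mem
        apply Ideal.subset_span
        rcases hα with h | h <;> simp [h]
    have hγn : f γ ∉ Ideal.map f (Ideal.span {β, δ}) := by
      intro h
      have h1 : γ ∈ Ideal.comap f (Ideal.map f (Ideal.span {β, δ})) := h
      rw [hcm] at h1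
      rcases hγ with h2 | h2
      · exact hPyy (h2 ▸ h1)
      · exact hPzz (h2 ▸ h1)
    have h1 : f γ * r ∈ Ideal.map f (Ideal.span {β, δ}) := by
      rw [heq]
      exact Ideal.mem_span_singleton.2 hr
    have h2 := (hPR.mem_or_mem h1).resolve_left hγn
    rw [heq] at h2
    exact Ideal.mem_span_singleton.1 h2

end

end M21X
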