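import Pool.Agent.H.MP_21b43d_ag.X.Good

/-!
# M6 / X-part: good quadruples: nonvanishing, change of charts, existence
-/

set_option autoImplicit false

namespace M21X

noncomputable section

variable {K : Type} [Field K] [Algebra ℂ K]

/-- Two elements are algebraically independent iff the first one is transcendental and the second
one is transcendental over the ring generated by the first one. -/
theorem ai_iff (x y : K) : AlgebraicIndependent ℂ ![x, y] ↔
    Transcendental ℂ x ∧ Transcendental (Algebra.adjoin ℂ {x}) y := by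
  rw [AlgebraicIndependent.iff_transcendental_adjoin_image (1 : Fin 2)]
  have h1 : (![x, y] '' {1}ᶜ : Set K) = {x} := by
    ext z
    simp only [Set.mem_image, Set.mem_compl_iff, Set.mem_singleton_iff]
    constructor
    · rintro ⟨i, hi, rfl⟩
      fin_cases i
      · rfl
      · exact absurd rfl hi
    · rintro rfl
      exact ⟨0, by decide, rfl⟩
  rw [h1]
  have hu : Unique {j : Fin 2 // j ≠ 1} := ⟨⟨⟨0, by decide⟩⟩, by
    rintro ⟨j, hj⟩
    fin_cases j
    · rfl
    · exact absurd rfl hj⟩
  rw [algebraicIndependent_unique_type_iff]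
  have h2 : ((default : {j : Fin 2 // j ≠ 1}) : Fin 2) = 0 := by
    have := (default : {j : Fin 2 // j ≠ 1}).2
    omega
  rw [h2]
  rfl

theorem ai_comm {x y : K} (h : AlgebraicIndependent ℂ ![x, y]) : AlgebraicIndependent ℂ ![y, x] := by
  have h1 := h.comp (Equiv.swap (0 : Fin 2) 1) (Equiv.injective _)
  have h2 : (![x, y] ∘ (Equiv.swap (0 : Fin 2) 1)) = ![y, x] := by
    ext i
    fin_cases i <;> rfl
  rwa [h2] at h1

theorem alg_of_mem (R : Subalgebra ℂ K) {x x' : K} (hx : x ∈ IntermediateField.adjoin ℂ {x'})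
    (h : IsAlgebraic R x') : IsAlgebraic R x := by
  induction hx using IntermediateField.adjoin_induction with
  | mem z hz => rw [Set.mem_singleton_iff.mp hz]; exact h
  | algebraMap c => exact isAlgebraic_algebraMap (⟨algebraMap ℂ K c, R.algebraMap_mem c⟩ : R)
  | add a b _ _ ha hb => exact ha.add hb
  | inv a _ ha => exact ha.inv
  | mul a b _ _ ha hb => exact ha.mul hb

theorem ai_congr_right {x y y' : K} (hy : y ∈ IntermediateField.adjoin ℂ {y'})
    (h : AlgebraicIndependent ℂ ![x, y]) : AlgebraicIndependent ℂ ![x, y'] := by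
  rw [ai_iff] at h ⊢
  exact ⟨h.1, fun h' => h.2 (alg_of_mem _ hy h')⟩

theorem ai_congr_left {x x' y : K} (hx : x ∈ IntermediateField.adjoin ℂ {x'})
    (h : AlgebraicIndependent ℂ ![x, y]) : AlgebraicIndependent ℂ ![x', y] :=
  ai_comm (ai_congr_right hx (ai_comm h))

namespace Quad

variable {q : Quad K}

theorem Good.trB (h : q.Good) : Transcendental ℂ q.B := ((ai_iff _ _).mp h.ai).1

theorem Good.trZ (h : q.Good) : Transcendental ℂ q.Z := ((ai_iff _ _).mp (ai_comm h.ai)).1

/-- A transcendental element is not a constant. -/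
theorem ne_of_tr {x : K} (h : Transcendental ℂ x) (c : ℂ) : x ≠ algebraMap ℂ K c := by
  rintro rfl
  exact h (isAlgebraic_algebraMap c)

theorem Good.B_ne (h : q.Good) : q.B ≠ 0 := by
  simpa using ne_of_tr h.trB 0

theorem Good.B1_ne (h : q.Good) : 1 + q.B ≠ 0 := by
  intro h0
  apply ne_of_tr h.trB (-1)
  rw [map_neg, map_one]
  linear_combination h0

theorem Good.Z_ne (h : q.Good) : q.Z ≠ 0 := by
  simpa using ne_of_tr h.trZ 0

theorem Good.D_ne (h : q.Good) : q.D ≠ 0 := by
  intro h0
  have h1 := h.hD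
  rw [h0] at h1
  have h2 : q.B * (1 + q.B) = 0 := by linear_combination h1
  rcases mul_eq_zero.mp h2 with h3 | h3
  · exact h.B_ne h3
  · exact h.B1_ne h3

theorem Good.Y_ne (h : q.Good) : q.Y ≠ 0 := by
  intro h0
  have h1 := h.hY
  rw [h0] at h1
  have h2 : q.Z ^ 3 = algebraMap ℂ K (-1) := by
    rw [map_neg, map_one]
    linear_combination h1
  have h3 : Transcendental ℂ (q.Z ^ 3) := h.trZ.pow (by norm_num)
  exact ne_of_tr h3 (-1) h2

theorem Good.rot (h : q.Good) : q.rot.Good := by
  have hB := h.B_ne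
  have hB1 := h.B1_ne
  have hD := h.D_ne
  refine ⟨?_, ?_, ?_⟩
  · refine ai_congr_left ?_ h.ai
    have h1 : q.B = -(1 + q.rot.B)⁻¹ := by
      simp only [Quad.rot]
      have h2 : 1 + -(1 + q.B) / q.B = -q.B⁻¹ := by
        field_simp
        ring
      rw [h2, inv_neg, inv_inv, neg_neg]
    have h3 : q.rot.B ∈ IntermediateField.adjoin ℂ {q.rot.B} :=
      IntermediateField.subset_adjoin ℂ _ rfl
    rw [h1]
    exact neg_mem (inv_mem (add_mem (one_mem _) h3))
  · simp only [Quad.rot]
    field_simp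
    linear_combination (1) * h.hD
  · simp only [Quad.rot]
    have h1 := h.hY
    have h2 : q.D ^ 3 = - q.B * (1 + q.B) := by linear_combination h.hD
    have : -(1 + q.B) / q.B * (q.Y * q.B / q.D) ^ 3 = q.B * q.Y ^ 3 := by
      rw [div_pow, h2]
      field_simp
    rw [this]
    exact h1

theorem Good.swap (h : q.Good) : q.swap.Good := by
  have hZ := h.Z_ne
  refine ⟨?_, h.hD, ?_⟩
  · refine ai_congr_right ?_ h.ai
    have h3 : q.swap.Z ∈ IntermediateField.adjoin ℂ {q.swap.Z} :=
      IntermediateField.subset_adjoin ℂ _ rfl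
    have h1 : q.Z = (q.swap.Z)⁻¹ := by simp [Quad.swap]
    rw [h1]
    exact inv_mem h3
  · simp only [Quad.swap]
    field_simp
    linear_combination h.hY

end Quad

/-- There is a good quadruple in some field. -/
theorem exists_good : ∃ (K : Type) (_ : Field K) (_ : Algebra ℂ K) (q : Quad K), q.Good := by
  let F := FractionRing (MvPolynomial (Fin 2) ℂ)
  let K := AlgebraicClosure F
  let B : K := algebraMap F K (algebraMap (MvPolynomial (Fin 2) ℂ) F (MvPolynomial.X 0))
  let Z : K := algebraMap F K (algebraMap (MvPolynomial (Fin 2) ℂ) F (MvPolynomial.X 1))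
  obtain ⟨D, hD⟩ := IsAlgClosed.exists_pow_nat_eq (-(B ^ 2 + B)) (n := 3) (by norm_num)
  obtain ⟨Y, hY⟩ := IsAlgClosed.exists_pow_nat_eq (-(1 + Z ^ 3) / B) (n := 3) (by norm_num)
  have hai : AlgebraicIndependent ℂ ![B, Z] := by
    have h1 := (MvPolynomial.algebraicIndependent_X (Fin 2) ℂ)
    have h2 := h1.map' (f := (IsScalarTower.toAlgHom ℂ F K).comp
      (IsScalarTower.toAlgHom ℂ (MvPolynomial (Fin 2) ℂ) F)) (by
        rw [AlgHom.coe_comp]
        exact (algebraMap F K).injective.comp
          (IsFractionRing.injective (MvPolynomial (Fin 2) ℂ) F))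
    convert h2 using 1
    ext i
    fin_cases i <;> rfl
  have hB : B ≠ 0 := by
    have h := ((ai_iff _ _).mp hai).1
    simpa using Quad.ne_of_tr h 0
  refine ⟨K, inferInstance, inferInstance, ⟨B, D, Y, Z⟩, hai, ?_, ?_⟩
  · change D ^ 3 + B ^ 2 + B = 0
    rw [hD]
    ring
  · change 1 + B * Y ^ 3 + Z ^ 3 = 0
    rw [hY, mul_div_cancel₀ _ hB]
    ring

end

end M21X
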