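import Mathlib

/-!
# M6 / X-part, file 1: closure of a `K`-point of projective space

`K` is a field over `ℂ`, `v : Fin (N+1) → K` with `v 0 ≠ 0`.  `xiP v : Spec K ⟶ ℙ^N` is the point
`[v 0 : … : v N]` and `XX v` is its scheme-theoretic image: an integral closed subscheme of `ℙ^N`.
For every homogeneous `f` of positive degree with `f(v) ≠ 0` the open subscheme `X ∩ D₊(f)` is
`Spec (RR v f)`, where `RR v f ⊆ K` is the subring of all `g(v)/f(v)^k`, `g` homogeneous of
degree `k * deg f`.
-/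

set_option autoImplicit false

open CategoryTheory AlgebraicGeometry TopologicalSpace MvPolynomial

namespace M21X

noncomputable section

variable (N : ℕ)

/-- the grading of the polynomial ring -/
abbrev gr : ℕ → Submodule ℂ (MvPolynomial (Fin (N + 1)) ℂ) :=
  MvPolynomial.homogeneousSubmodule (Fin (N + 1)) ℂ

instance instGradedAlgebraGr : GradedAlgebra (gr N) := MvPolynomial.gradedAlgebra

/-- projective space over the complex numbers -/
abbrev PP : Scheme.{0} := Proj (gr N)

theorem X_mem (i : Fin (N + 1)) : (X i : MvPolynomial (Fin (N + 1)) ℂ) ∈ gr N 1 :=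
  (mem_homogeneousSubmodule 1 _).mpr (isHomogeneous_X ℂ i)

variable {N} {K : Type} [Field K] [Algebra ℂ K] (v : Fin (N + 1) → K)

/-- evaluation of degree-zero fractions at `v` -/
def evA (f : MvPolynomial (Fin (N + 1)) ℂ) (hf : aeval v f ≠ 0) :
    HomogeneousLocalization.Away (gr N) f →+* K :=
  (IsLocalization.Away.lift (S := Localization.Away f) f (g := (aeval v : _ →ₐ[ℂ] K).toRingHom)
    (by simpa using hf)).comp (algebraMap (HomogeneousLocalization.Away (gr N) f) (Localization.Away f))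

theorem evA_mk (f : MvPolynomial (Fin (N + 1)) ℂ) (hf : aeval v f ≠ 0) {d : ℕ}
    (hd : f ∈ gr N d) (n : ℕ) (g : MvPolynomial (Fin (N + 1)) ℂ) (hg : g ∈ gr N (n • d)) :
    evA v f hf (HomogeneousLocalization.Away.mk (gr N) hd n g hg) = aeval v g / (aeval v f) ^ n := by
  rw [evA, RingHom.comp_apply, HomogeneousLocalization.algebraMap_apply,
    HomogeneousLocalization.Away.val_mk, Localization.mk_eq_mk', IsLocalization.Away.lift,
    IsLocalization.lift_mk'_spec]
  simp only [AlgHom.toRingHom_eq_coe, RingHom.coe_coe, map_pow]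
  field_simp

/-- evaluation is compatible with the restriction maps -/
theorem evA_awayMap {f g x : MvPolynomial (Fin (N + 1)) ℂ} {d e : ℕ} (hd : f ∈ gr N d)
    (he : g ∈ gr N e) (hx : x = f * g) (hf : aeval v f ≠ 0) (hg : aeval v x ≠ 0) :
    (evA v x hg).comp (HomogeneousLocalization.awayMap (gr N) he hx) = evA v f hf := by
  ext a
  obtain ⟨n, a, ha, rfl⟩ := HomogeneousLocalization.Away.mk_surjective (gr N) hd a
  rw [RingHom.comp_apply, HomogeneousLocalization.awayMap_mk, evA_mk, evA_mk]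
  subst hx
  have hg0 : aeval v g ≠ 0 := by
    intro h
    apply hg
    rw [map_mul, h, mul_zero]
  have hf' : aeval v (f * g) = aeval v f * aeval v g := map_mul _ _ _
  rw [map_mul, map_pow, hf', mul_pow]
  field_simp

/-- the point `[v 0 : … : v N]` in the chart `D₊(f)` -/
def xiA (f : MvPolynomial (Fin (N + 1)) ℂ) (hf : aeval v f ≠ 0) {d : ℕ} (hd : f ∈ gr N d)
    (h0 : 0 < d) : Spec (.of K) ⟶ PP N :=
  Spec.map (CommRingCat.ofHom (evA v f hf)) ≫ Proj.awayι (gr N) f hd h0

theorem xiA_eq_mul {f g : MvPolynomial (Fin (N + 1)) ℂ} {d e : ℕ} (hd : f ∈ gr N d)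
    (he : g ∈ gr N e) (h0 : 0 < d) (hf : aeval v f ≠ 0) (hfg : aeval v (f * g) ≠ 0) :
    xiA v f hf hd h0 = xiA v (f * g) hfg (SetLike.mul_mem_graded hd he) (by positivity) := by
  rw [xiA, xiA, ← evA_awayMap v hd he rfl hf hfg, CommRingCat.ofHom_comp, Spec.map_comp,
    Category.assoc, Proj.SpecMap_awayMap_awayι (gr N) hd h0 he rfl]

theorem xiA_congr {f g : MvPolynomial (Fin (N + 1)) ℂ} {d e : ℕ} (hd : f ∈ gr N d)
    (he : g ∈ gr N e) (h0 : 0 < d) (h0' : 0 < e) (hf : aeval v f ≠ 0) (hg : aeval v g ≠ 0) :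
    xiA v f hf hd h0 = xiA v g hg he h0' := by
  have hfg : aeval v (f * g) ≠ 0 := by rw [map_mul]; exact mul_ne_zero hf hg
  have hgf : aeval v (g * f) ≠ 0 := by rw [map_mul]; exact mul_ne_zero hg hf
  rw [xiA_eq_mul v hd he h0 hf hfg, xiA_eq_mul v he hd h0' hg hgf]
  have key : ∀ (a b : MvPolynomial (Fin (N + 1)) ℂ) (m n : ℕ) (h : a = b) (h' : m = n)
      (ha : aeval v a ≠ 0) (hb : aeval v b ≠ 0) (hm : a ∈ gr N m) (hn : b ∈ gr N n)
      (h1 : 0 < m) (h2 : 0 < n), xiA v a ha hm h1 = xiA v b hb hn h2 := by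
    rintro a b m n rfl rfl _ _ _ _ _ _
    rfl
  exact key _ _ _ _ (mul_comm f g) (add_comm d e) _ _ _ _ _ _

variable (hv : v 0 ≠ 0)

/-- the point `[v 0 : … : v N]` of projective space -/
def xiP : Spec (.of K) ⟶ PP N :=
  xiA v (X 0) (by simpa using hv) (d := 1) (X_mem N 0) one_pos

theorem xiP_eq (f : MvPolynomial (Fin (N + 1)) ℂ) (hf : aeval v f ≠ 0) {d : ℕ} (hd : f ∈ gr N d)
    (h0 : 0 < d) : xiP v hv = xiA v f hf hd h0 :=
  xiA_congr v _ hd _ h0 _ hf

/-- the point lies on `D₊(f)` iff `f(v) ≠ 0` -/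
theorem xiP_mem_iff (f : MvPolynomial (Fin (N + 1)) ℂ) {d : ℕ} (hd : f ∈ gr N d) (h0 : 0 < d)
    (p : Spec (.of K)) : xiP v hv p ∈ Proj.basicOpen (gr N) f ↔ aeval v f ≠ 0 := by
  constructor
  · intro h hf
    have h1 : xiP v hv p ∈ Proj.basicOpen (gr N) f := h
    have hpre : (Proj.awayι (gr N) (X 0) (X_mem N 0) one_pos) ⁻¹ᵁ Proj.basicOpen (gr N) f =
      PrimeSpectrum.basicOpen (HomogeneousLocalization.Away.isLocalizationElem
        (X_mem N 0) hd) :=
      Proj.awayι_preimage_basicOpen (gr N) (X_mem N 0) one_pos hd h0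
    have h2 : (Spec.map (CommRingCat.ofHom (evA v (X 0) (by simpa using hv)))) p ∈
        (Proj.awayι (gr N) (X 0) (X_mem N 0) one_pos) ⁻¹ᵁ Proj.basicOpen (gr N) f := by
      simpa [xiP, xiA] using h1
    rw [hpre] at h2
    have hX : aeval v (X 0 : MvPolynomial (Fin (N + 1)) ℂ) ≠ 0 := by simpa using hv
    have h3 : evA v (X 0) hX (HomogeneousLocalization.Away.mk (gr N) (X_mem N 0) d (f ^ 1)
        (by simpa using hd)) = 0 := by
      rw [evA_mk]
      simp [hf]
    apply h2
    have h4 : evA v (X 0) hX (HomogeneousLocalization.Away.isLocalizationElem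
        (X_mem N 0) hd) = 0 := h3
    change evA v (X 0) hX (HomogeneousLocalization.Away.isLocalizationElem
        (X_mem N 0) hd) ∈ PrimeSpectrum.asIdeal p
    rw [h4]
    exact Ideal.zero_mem _
  · intro hf
    rw [xiP_eq v hv f hf hd h0, xiA]
    have : (Proj.awayι (gr N) f hd h0).opensRange = Proj.basicOpen (gr N) f :=
      Proj.opensRange_awayι (gr N) f hd h0
    rw [← this]
    exact ⟨_, (Scheme.Hom.comp_apply _ _ _).symm⟩

/-- the variety `X`: the closure of the point in projective space -/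
def XX : Scheme.{0} := (xiP v hv).image

/-- the closed immersion into projective space -/
def XX.emb : XX v hv ⟶ PP N := (xiP v hv).imageι

/-- the generic `K`-point -/
def XX.pt : Spec (.of K) ⟶ XX v hv := (xiP v hv).toImage

@[reassoc]
theorem XX.pt_emb : XX.pt v hv ≫ XX.emb v hv = xiP v hv := Scheme.Hom.toImage_imageι _

instance : IsClosedImmersion (XX.emb v hv) :=
  inferInstanceAs (IsClosedImmersion (xiP v hv).ker.subschemeι)

instance : IsDominant (XX.pt v hv) :=
  inferInstanceAs (IsDominant (xiP v hv).toImage)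

end

end M21X
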