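import Pool.Agent.H.MP_21b43d_ag.X.AA

/-!
# M6 / X-part: the chart ring is smooth over the complex numbers
-/

set_option autoImplicit false

open MvPolynomial

namespace M21X

noncomputable section

/-- PROOF. Lifting property (`Algebra.FormallySmooth.iff_comp_surjective` or
`Algebra.FormallySmooth.of_comp_surjective`). Let `C` be a `ℂ`-algebra, `I` an ideal with `I² = 0`,
`g : AA →ₐ C ⧸ I`. Choose `B, E, D, Y, Z ∈ C` over `g b, g b', g d, g y, g z`. Put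
`f1 = D³ + B² + B ∈ I`, `f2 = 1 + B Y³ + Z³ ∈ I`. Replace `B` by `B1 = B - f1 (2B+1)` and `D` by
`D1 = D - f1 (4/3) D`: then `D1³ + B1² + B1 = f1 - f1 ((2B+1)² + 4 D³) = f1 - f1 (1 + 4 f1) = 0`
(`f1² = 0`). Now `f2' = 1 + B1 Y³ + Z³ ∈ I`; replace `Y` by `Y1 = Y + (1/3) f2' Y`, `Z` by
`Z1 = Z + (1/3) f2' Z`: then `1 + B1 Y1³ + Z1³ = f2' + f2' (B1 Y³ + Z³) = f2' + f2' (f2' - 1) = 0`.
`B1 E - 1 ∈ I` is nilpotent, so `B1` is a unit; take `E1 = B1⁻¹` (it is congruent to `E` mod `I`,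
e.g. `E1 = E - E (B1 E - 1)`: `B1 E1 = 1 - (B1 E - 1)² = 1`). Use `AA.lift` and `AA.hom_ext`. -/
instance instFormallySmoothAA : Algebra.FormallySmooth ℂ AA := by
  refine Algebra.FormallySmooth.of_comp_surjective fun C _ _ I hI g => ?_
  have hmul : ∀ u ∈ I, ∀ v ∈ I, u * v = 0 := by
    intro u hu v hv
    have : u * v ∈ I ^ 2 := by
      rw [pow_two]
      exact Ideal.mul_mem_mul hu hv
    rw [hI] at this
    simpa using this
  obtain ⟨B, hB⟩ := Ideal.Quotient.mk_surjective (g AA.b)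
  obtain ⟨E, hE⟩ := Ideal.Quotient.mk_surjective (g AA.b')
  obtain ⟨D, hD⟩ := Ideal.Quotient.mk_surjective (g AA.d)
  obtain ⟨Y, hY⟩ := Ideal.Quotient.mk_surjective (g AA.y)
  obtain ⟨Z, hZ⟩ := Ideal.Quotient.mk_surjective (g AA.z)
  set c3 : C := algebraMap ℂ C (1 / 3) with hc3
  have h3 : 3 * c3 = 1 := by
    rw [hc3, ← map_ofNat (algebraMap ℂ C) 3, ← map_mul]
    norm_num
  -- first relation
  obtain ⟨f, hf⟩ : ∃ f : C, f = D ^ 3 + B ^ 2 + B := ⟨_, rfl⟩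
  have hfI : f ∈ I := by
    rw [← Ideal.Quotient.eq_zero_iff_mem, hf, map_add, map_add, map_pow, map_pow, hD, hB,
      ← map_pow, ← map_pow, ← map_add, ← map_add, AA.rel1, map_zero]
  have hff := hmul f hfI f hfI
  obtain ⟨B1, hB1⟩ : ∃ B1 : C, B1 = B - f * (2 * B + 1) := ⟨_, rfl⟩
  obtain ⟨D1, hD1⟩ : ∃ D1 : C, D1 = D - f * (4 * c3 * D) := ⟨_, rfl⟩
  have hB1I : B1 - B ∈ I := by
    rw [hB1]
    have : B - f * (2 * B + 1) - B = f * (-(2 * B + 1)) := by ring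
    rw [this]
    exact I.mul_mem_right _ hfI
  have hD1I : D1 - D ∈ I := by
    rw [hD1]
    have : D - f * (4 * c3 * D) - D = f * (-(4 * c3 * D)) := by ring
    rw [this]
    exact I.mul_mem_right _ hfI
  have hrel1 : D1 ^ 3 + B1 ^ 2 + B1 = 0 := by
    have e1 : D1 ^ 3 = D ^ 3 - 4 * f * D ^ 3 := by
      rw [hD1]
      linear_combination (48 * c3 ^ 2 * D ^ 3 - 64 * f * c3 ^ 3 * D ^ 3) * hff -
        4 * f * D ^ 3 * h3
    have e2 : B1 ^ 2 + B1 = B ^ 2 + B - f * (2 * B + 1) ^ 2 := by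
      rw [hB1]
      linear_combination (2 * B + 1) ^ 2 * hff
    linear_combination e1 + e2 - hf * (1 - 4 * f) - 4 * hff
  -- second relation
  obtain ⟨h, hh⟩ : ∃ h : C, h = 1 + B1 * Y ^ 3 + Z ^ 3 := ⟨_, rfl⟩
  have hmkB : Ideal.Quotient.mk I B1 = g AA.b := by
    rw [← hB]
    exact Ideal.Quotient.eq.mpr hB1I
  have hmkD : Ideal.Quotient.mk I D1 = g AA.d := by
    rw [← hD]
    exact Ideal.Quotient.eq.mpr hD1I
  have hhI : h ∈ I := by
    rw [← Ideal.Quotient.eq_zero_iff_mem, hh, map_add, map_add, map_mul, map_pow, map_pow,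
      map_one, hY, hZ, hmkB, ← map_pow, ← map_pow, ← map_mul, ← map_one g, ← map_add, ← map_add,
      AA.rel2, map_zero]
  have hhh := hmul h hhI h hhI
  obtain ⟨Y1, hY1⟩ : ∃ Y1 : C, Y1 = Y + h * (c3 * Y) := ⟨_, rfl⟩
  obtain ⟨Z1, hZ1⟩ : ∃ Z1 : C, Z1 = Z + h * (c3 * Z) := ⟨_, rfl⟩
  have hmkY : Ideal.Quotient.mk I Y1 = g AA.y := by
    rw [← hY, hY1, map_add, Ideal.Quotient.eq_zero_iff_mem.mpr (I.mul_mem_right _ hhI), add_zero]
  have hmkZ : Ideal.Quotient.mk I Z1 = g AA.z := by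
    rw [← hZ, hZ1, map_add, Ideal.Quotient.eq_zero_iff_mem.mpr (I.mul_mem_right _ hhI), add_zero]
  have hrel2 : 1 + B1 * Y1 ^ 3 + Z1 ^ 3 = 0 := by
    have e1 : Y1 ^ 3 = Y ^ 3 + h * Y ^ 3 := by
      rw [hY1]
      linear_combination (3 * c3 ^ 2 * Y ^ 3 + h * c3 ^ 3 * Y ^ 3) * hhh + h * Y ^ 3 * h3
    have e2 : Z1 ^ 3 = Z ^ 3 + h * Z ^ 3 := by
      rw [hZ1]
      linear_combination (3 * c3 ^ 2 * Z ^ 3 + h * c3 ^ 3 * Z ^ 3) * hhh + h * Z ^ 3 * h3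
    linear_combination B1 * e1 + e2 - (1 + h) * hh + hhh
  -- the inverse of `B1`
  obtain ⟨E1, hE1⟩ : ∃ E1 : C, E1 = E - E * (B1 * E - 1) := ⟨_, rfl⟩
  have huI : B1 * E - 1 ∈ I := by
    rw [← Ideal.Quotient.eq_zero_iff_mem, map_sub, map_mul, map_one, hmkB, hE, ← map_mul,
      AA.b_mul, map_one, sub_self]
  have huu := hmul _ huI _ huI
  have hmkE : Ideal.Quotient.mk I E1 = g AA.b' := by
    rw [← hE, hE1, map_sub, Ideal.Quotient.eq_zero_iff_mem.mpr (I.mul_mem_left _ huI), sub_zero]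
  have hrel0 : B1 * E1 = 1 := by
    rw [hE1]
    linear_combination -huu
  refine ⟨AA.lift B1 E1 D1 Y1 Z1 hrel0 hrel1 hrel2, ?_⟩
  apply AA.hom_ext
  · rw [AlgHom.comp_apply, AA.lift_b]
    exact hmkB
  · rw [AlgHom.comp_apply, AA.lift_b']
    exact hmkE
  · rw [AlgHom.comp_apply, AA.lift_d]
    exact hmkD
  · rw [AlgHom.comp_apply, AA.lift_y]
    exact hmkY
  · rw [AlgHom.comp_apply, AA.lift_z]
    exact hmkZ

/-- PROOF. `Algebra.Smooth` = formally smooth + finitely presented; `AA` is the quotient of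
`MvPolynomial (Fin 5) ℂ` by the ideal `II`, which is finitely generated
(`Algebra.FinitePresentation.quotient`). -/
instance instSmoothAA : Algebra.Smooth ℂ AA where
  formallySmooth := inferInstance
  finitePresentation := Algebra.FinitePresentation.quotient
    ⟨{X 0 * X 1 - 1, X 2 ^ 3 + X 0 ^ 2 + X 0, 1 + X 0 * X 3 ^ 3 + X 4 ^ 3}, by
      rw [II]
      simp⟩

end

end M21X
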