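import Pool.Agent.H.MP_21b43d_ag.X.AEq
import Pool.Agent.H.MP_21b43d_ag.X.Smooth

/-!
# M6 / X-part: the chart ring has relative dimension two
-/

set_option autoImplicit false

open scoped TensorProduct

namespace M21X

noncomputable section

/-- The fraction field of `AA` is algebraic over the subfield generated by `b, z`. -/
theorem RelDim_alg {F Q : Type} [Field F] [Field Q] [Algebra F Q] [Algebra AA Q]
    [IsFractionRing AA Q] (hC : ∀ c : ℂ, IsAlgebraic F (algebraMap AA Q (algebraMap ℂ AA c)))
    (hb : IsAlgebraic F (algebraMap AA Q AA.b)) (hz : IsAlgebraic F (algebraMap AA Q AA.z)) :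
    Algebra.IsAlgebraic F Q := by
  have hmem : ∀ x : Q, x ∈ algebraicClosure F Q ↔ IsAlgebraic F x := fun x =>
    mem_algebraicClosure_iff
  have hbm := (hmem _).2 hb
  have hzm := (hmem _).2 hz
  have hb0 : algebraMap AA Q AA.b * algebraMap AA Q AA.b' = 1 := by
    rw [← map_mul, AA.b_mul, map_one]
  have hb'm : algebraMap AA Q AA.b' ∈ algebraicClosure F Q := by
    rw [eq_inv_of_mul_eq_one_right hb0]
    exact inv_mem hbm
  have hdm : algebraMap AA Q AA.d ∈ algebraicClosure F Q := by
    rw [hmem]
    refine IsAlgebraic.of_pow (n := 3) (by norm_num) ?_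
    rw [← hmem]
    have h1 : algebraMap AA Q AA.d ^ 3 = -(algebraMap AA Q AA.b ^ 2 + algebraMap AA Q AA.b) := by
      have h2 := congrArg (algebraMap AA Q) AA.rel1
      simp only [map_add, map_pow, map_zero] at h2
      linear_combination h2
    rw [h1]
    exact neg_mem (add_mem (pow_mem hbm 2) hbm)
  have hym : algebraMap AA Q AA.y ∈ algebraicClosure F Q := by
    rw [hmem]
    refine IsAlgebraic.of_pow (n := 3) (by norm_num) ?_
    rw [← hmem]
    have h1 : algebraMap AA Q AA.y ^ 3 = -((1 + algebraMap AA Q AA.z ^ 3) * algebraMap AA Q AA.b') := by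
      have h2 := congrArg (algebraMap AA Q) AA.rel2
      simp only [map_add, map_pow, map_mul, map_one, map_zero] at h2
      linear_combination algebraMap AA Q AA.b' * h2 - algebraMap AA Q AA.y ^ 3 * hb0
    rw [h1]
    exact neg_mem (mul_mem (add_mem (one_mem _) (pow_mem hzm 3)) hb'm)
  have hall : ∀ x : AA, algebraMap AA Q x ∈ algebraicClosure F Q := by
    intro x
    have hx : x ∈ Algebra.adjoin ℂ ({AA.b, AA.b', AA.d, AA.y, AA.z} : Set AA) := by
      rw [AA.adjoin_eq_top]
      exact Algebra.mem_top
    induction hx using Algebra.adjoin_induction with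
    | mem x hx =>
      rcases hx with rfl | rfl | rfl | rfl | rfl
      · exact hbm
      · exact hb'm
      · exact hdm
      · exact hym
      · exact hzm
    | algebraMap r => exact (hmem _).2 (hC r)
    | add x y _ _ hx hy =>
      rw [map_add]
      exact add_mem hx hy
    | mul x y _ _ hx hy =>
      rw [map_mul]
      exact mul_mem hx hy
  refine ⟨fun x => ?_⟩
  obtain ⟨a, s, _, rfl⟩ := IsFractionRing.div_surjective (A := AA) x
  rw [← hmem]
  exact div_mem (hall a) (hall s)

/-- The fraction field of `AA` has a two-dimensional space of differentials.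
PROOF. Let `P = MvPolynomial (Fin 2) ℂ`, `P → AA`, `aeval ![b, z]`, injective by `AA.ai`;
`F = FractionRing P` (or the image field `ℂ(b, z)`), `Q = FractionRing AA`. `Q` is algebraic over `F`
(`d³ = -b² - b`, `y³ = -(1 + z³)/b`; `AA.adjoin_eq_top`), so separable, so `F → Q` is formally etale
(`Algebra.FormallyEtale.of_isSeparable`), `P → F` is formally etale (localization), so `P → Q` is
formally etale (`comp`) and `Ω[Q⁄ℂ] ≃ Q ⊗[P] Ω[P⁄ℂ]`
(`KaehlerDifferential.tensorKaehlerEquivOfFormallyEtale`), and `Ω[P⁄ℂ]` is free of rank two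
(`KaehlerDifferential.mvPolynomialBasis`). -/
theorem AA.finrank_kaehler : Module.finrank (FractionRing AA) (Ω[FractionRing AA⁄ℂ]) = 2 := by
  let Q := FractionRing AA
  let P := MvPolynomial (Fin 2) ℂ
  let f : P →ₐ[ℂ] Q := (Algebra.ofId AA Q |>.restrictScalars ℂ).comp (MvPolynomial.aeval ![AA.b, AA.z])
  let _ : Algebra P Q := f.toRingHom.toAlgebra
  have halg : ∀ p : P, algebraMap P Q p = algebraMap AA Q (MvPolynomial.aeval ![AA.b, AA.z] p) :=
    fun p => rfl
  have : IsScalarTower ℂ P Q := IsScalarTower.of_algebraMap_eq fun c => by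
    rw [halg, MvPolynomial.algebraMap_eq, MvPolynomial.aeval_C]
    rfl
  have hinj : Function.Injective (algebraMap P Q) := by
    intro p q hpq
    rw [halg, halg] at hpq
    exact AA.ai (IsFractionRing.injective AA Q hpq)
  have : FaithfulSMul P Q := (faithfulSMul_iff_algebraMap_injective P Q).2 hinj
  let _ : Algebra (FractionRing P) Q := FractionRing.liftAlgebra P Q
  have : IsScalarTower P (FractionRing P) Q := FractionRing.isScalarTower_liftAlgebra P Q
  have hP : ∀ p : P, IsAlgebraic (FractionRing P) (algebraMap P Q p) := fun p => by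
    rw [IsScalarTower.algebraMap_apply P (FractionRing P) Q]
    exact isAlgebraic_algebraMap _
  have : Algebra.IsAlgebraic (FractionRing P) Q := by
    refine RelDim_alg (fun c => ?_) ?_ ?_
    · have h := hP (MvPolynomial.C c)
      rw [halg, MvPolynomial.aeval_C] at h
      exact h
    · have h := hP (MvPolynomial.X 0)
      rw [halg, MvPolynomial.aeval_X] at h
      exact h
    · have h := hP (MvPolynomial.X 1)
      rw [halg, MvPolynomial.aeval_X] at h
      exact h
  have : Algebra.FormallyEtale (FractionRing P) Q := Algebra.FormallyEtale.of_isSeparable _ _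
  have : Algebra.FormallyEtale P (FractionRing P) :=
    Algebra.FormallyEtale.of_isLocalization (nonZeroDivisors P)
  have : Algebra.FormallyEtale P Q := Algebra.FormallyEtale.comp P (FractionRing P) Q
  have e := KaehlerDifferential.tensorKaehlerEquivOfFormallyEtale ℂ P Q
  rw [← e.finrank_eq]
  have : Module.Free P (Ω[P⁄ℂ]) :=
    Module.Free.of_basis (KaehlerDifferential.mvPolynomialBasis ℂ (Fin 2))
  rw [Module.finrank_baseChange,
    Module.finrank_eq_card_basis (KaehlerDifferential.mvPolynomialBasis ℂ (Fin 2)), Fintype.card_fin]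

/-- **Relative dimension two.** PROOF. `AA` is smooth over `ℂ`, so by
`Algebra.Smooth.exists_span_eq_top_isStandardSmooth` there are elements `f` spanning the unit ideal
such that `S = Localization.Away f` is standard smooth over `ℂ`; we may omit `f = 0`. For `f ≠ 0`,
`S` is a nontrivial domain with fraction field `Q = FractionRing AA`, `Ω[S⁄ℂ]` is free of some rank
`n` (`IsStandardSmooth` gives some relative dimension `n`), `S → Q` is formally etale (localization),
so `Ω[Q⁄ℂ] = Q ⊗[S] Ω[S⁄ℂ]` has dimension `n`, so `n = 2`
(`Algebra.IsStandardSmoothOfRelativeDimension.iff_of_isStandardSmooth`). -/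
theorem AA.relDim : RingHom.Locally (fun f => RingHom.IsStandardSmoothOfRelativeDimension 2 f)
    (algebraMap ℂ AA) := by
  obtain ⟨s, hs, h⟩ := Algebra.Smooth.exists_span_eq_top_isStandardSmooth ℂ AA
  refine ⟨s \ {0}, by rw [Ideal.span_sdiff_singleton_zero, hs], fun t ht => ?_⟩
  obtain ⟨ht1, ht2⟩ := ht
  have ht0 : t ≠ 0 := ht2
  have hle : Submonoid.powers t ≤ nonZeroDivisors AA := powers_le_nonZeroDivisors_of_noZeroDivisors ht0
  show RingHom.IsStandardSmoothOfRelativeDimension 2 _
  rw [← IsScalarTower.algebraMap_eq, RingHom.isStandardSmoothOfRelativeDimension_algebraMap]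
  have := h t ht1
  have : IsDomain (Localization.Away t) := IsLocalization.isDomain_localization hle
  let Q := FractionRing AA
  let _ : Algebra (Localization.Away t) Q :=
    IsLocalization.localizationAlgebraOfSubmonoidLe _ _ (Submonoid.powers t) (nonZeroDivisors AA) hle
  have : IsScalarTower AA (Localization.Away t) Q :=
    IsLocalization.localization_isScalarTower_of_submonoid_le (Localization.Away t) Q _ _ hle
  have : IsScalarTower ℂ (Localization.Away t) Q := IsScalarTower.of_algebraMap_eq fun c => by
    rw [IsScalarTower.algebraMap_apply ℂ AA (Localization.Away t),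
      ← IsScalarTower.algebraMap_apply AA (Localization.Away t) Q]
    rfl
  have : IsFractionRing (Localization.Away t) Q :=
    IsFractionRing.isFractionRing_of_isDomain_of_isLocalization (Submonoid.powers t) _ _
  have : Algebra.FormallyEtale (Localization.Away t) Q :=
    Algebra.FormallyEtale.of_isLocalization (nonZeroDivisors (Localization.Away t))
  have e := KaehlerDifferential.tensorKaehlerEquivOfFormallyEtale ℂ (Localization.Away t) Q
  have h1 := e.finrank_eq
  rw [Module.finrank_baseChange] at h1
  rw [Algebra.IsStandardSmoothOfRelativeDimension.iff_of_isStandardSmooth]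
  rw [← Module.finrank_eq_rank, h1]
  exact_mod_cast AA.finrank_kaehler

end

end M21X
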