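import Pool.Agent.H.MP_21b43d_ag.X.Mov

/-!
# M6 / X-part: the six charts of the surface
-/

set_option autoImplicit false

open CategoryTheory AlgebraicGeometry TopologicalSpace

namespace M21X

noncomputable section

namespace Quad

variable {K : Type} [Field K] [Algebra ℂ K]

/-- the span of the nine homogeneous coordinates -/
def VV (q : Quad K) : Submodule ℂ K := Submodule.span ℂ (Set.range q.vec)

/-- `VV q' = λ⁻¹ VV q` -/
def Rel (l : K) (q q' : Quad K) : Prop := ∀ x : K, x ∈ q'.VV ↔ l * x ∈ q.VV

theorem Rel.refl (q : Quad K) : Rel 1 q q := fun x => by rw [one_mul]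

theorem Rel.trans {l l' : K} {q q' q'' : Quad K} (h : Rel l q q') (h' : Rel l' q' q'') :
    Rel (l * l') q q'' := fun x => by rw [h' x, h (l' * x), mul_assoc]

theorem vec_mem (q : Quad K) (i : Fin 9) : q.vec i ∈ q.VV := Submodule.subset_span ⟨i, rfl⟩

/-- criterion for `Rel` -/
theorem rel_of (l : K) (hl : l ≠ 0) (q q' : Quad K) (h1 : ∀ i, l * q'.vec i ∈ q.VV)
    (h2 : ∀ i, l⁻¹ * q.vec i ∈ q'.VV) : Rel l q q' := by
  intro x
  constructor
  · intro hx
    induction hx using Submodule.span_induction with
    | mem y hy => obtain ⟨i, rfl⟩ := hy; exact h1 i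
    | zero => rw [mul_zero]; exact zero_mem _
    | add a b _ _ ha hb => rw [mul_add]; exact add_mem ha hb
    | smul c a _ ha => rw [mul_smul_comm]; exact Submodule.smul_mem _ c ha
  · intro hx
    have h3 : ∀ y ∈ q.VV, l⁻¹ * y ∈ q'.VV := by
      intro y hy
      induction hy using Submodule.span_induction with
      | mem y hy => obtain ⟨i, rfl⟩ := hy; exact h2 i
      | zero => rw [mul_zero]; exact zero_mem _
      | add a b _ _ ha hb => rw [mul_add]; exact add_mem ha hb
      | smul c a _ ha => rw [mul_smul_comm]; exact Submodule.smul_mem _ c ha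
    have h4 := h3 _ hx
    rwa [inv_mul_cancel_left₀ hl] at h4

theorem Good.rel_rot {q : Quad K} (h : q.Good) : Rel q.B q q.rot := by
  have hB := h.B_ne
  have hD := h.D_ne
  have hB1 := h.B1_ne
  have hD3 : q.D ^ 3 = -(q.B * (1 + q.B)) := by linear_combination h.hD
  have hb' : 1 + q.rot.B = -q.B⁻¹ := by
    simp only [Quad.rot]
    field_simp
    ring
  apply rel_of _ hB
  · intro i
    fin_cases i
    · have e : q.B * q.rot.vec 0 = q.vec 1 := by simp [vec]
      exact e ▸ q.vec_mem 1
    · have e : q.B * q.rot.vec 1 = -(q.vec 0 + q.vec 1) := by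
        simp [vec, Quad.rot]
        field_simp
      exact e ▸ neg_mem (add_mem (q.vec_mem 0) (q.vec_mem 1))
    · have e : q.B * q.rot.vec 2 = q.vec 2 := by
        simp [vec, Quad.rot]
        field_simp
      exact e ▸ q.vec_mem 2
    · have e : q.B * q.rot.vec 3 = q.vec 4 := by simp [vec, Quad.rot]
      exact e ▸ q.vec_mem 4
    · have e : q.B * q.rot.vec 4 = -(q.vec 3 + q.vec 4) := by
        simp [vec, Quad.rot]
        field_simp
      exact e ▸ neg_mem (add_mem (q.vec_mem 3) (q.vec_mem 4))
    · have e : q.B * q.rot.vec 5 = q.vec 5 := by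
        simp [vec, Quad.rot]
        field_simp
      exact e ▸ q.vec_mem 5
    · have e : q.B * q.rot.vec 6 = q.vec 7 := by
        simp [vec, Quad.rot]
        left
        field_simp
      exact e ▸ q.vec_mem 7
    · have e : q.B * q.rot.vec 7 = q.vec 8 := by
        simp [vec, Quad.rot]
        field_simp
        linear_combination (-q.Y) * hD3
      exact e ▸ q.vec_mem 8
    · have e : q.B * q.rot.vec 8 = q.vec 6 := by
        simp [vec, Quad.rot]
        field_simp
      exact e ▸ q.vec_mem 6
  · intro i
    have k := fun j => q.rot.vec_mem j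
    fin_cases i
    · have e : q.B⁻¹ * q.vec 0 = -(q.rot.vec 0 + q.rot.vec 1) := by
        simp [vec, hb']
      exact e ▸ neg_mem (add_mem (k 0) (k 1))
    · have e : q.B⁻¹ * q.vec 1 = q.rot.vec 0 := by simp [vec, hB]
      exact e ▸ k 0
    · have e : q.B⁻¹ * q.vec 2 = q.rot.vec 2 := by
        simp [vec, Quad.rot]
        field_simp
      exact e ▸ k 2
    · have e : q.B⁻¹ * q.vec 3 = -(q.rot.vec 3 + q.rot.vec 4) := by
        have e1 : q.rot.vec 3 + q.rot.vec 4 = (1 + q.rot.B) * q.Z := by
          simp [vec]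
          simp only [Quad.rot]
          ring
        rw [e1, hb']
        simp [vec]
      exact e ▸ neg_mem (add_mem (k 3) (k 4))
    · have e : q.B⁻¹ * q.vec 4 = q.rot.vec 3 := by simp [vec, Quad.rot, hB]
      exact e ▸ k 3
    · have e : q.B⁻¹ * q.vec 5 = q.rot.vec 5 := by
        simp [vec, Quad.rot]
        field_simp
      exact e ▸ k 5
    · have e : q.B⁻¹ * q.vec 6 = q.rot.vec 8 := by
        simp [vec, Quad.rot]
        field_simp
      exact e ▸ k 8
    · have e : q.B⁻¹ * q.vec 7 = q.rot.vec 6 := by
        simp [vec, Quad.rot]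
        field_simp
      exact e ▸ k 6
    · have e : q.B⁻¹ * q.vec 8 = q.rot.vec 7 := by
        simp [vec, Quad.rot]
        field_simp
        linear_combination (q.Y) * hD3
      exact e ▸ k 7

theorem Good.rel_swap {q : Quad K} (h : q.Good) : Rel q.Z q q.swap := by
  have hZ := h.Z_ne
  apply rel_of _ hZ
  · intro i
    have k := fun j => q.vec_mem j
    fin_cases i
    · have e : q.Z * q.swap.vec 0 = q.vec 3 := by simp [vec]
      exact e ▸ k 3
    · have e : q.Z * q.swap.vec 1 = q.vec 4 := by
        simp [vec, Quad.swap]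
        ring
      exact e ▸ k 4
    · have e : q.Z * q.swap.vec 2 = q.vec 5 := by
        simp [vec, Quad.swap]
        ring
      exact e ▸ k 5
    · have e : q.Z * q.swap.vec 3 = q.vec 0 := by simp [vec, Quad.swap, hZ]
      exact e ▸ k 0
    · have e : q.Z * q.swap.vec 4 = q.vec 1 := by
        simp [vec, Quad.swap]
        field_simp
      exact e ▸ k 1
    · have e : q.Z * q.swap.vec 5 = q.vec 2 := by
        simp [vec, Quad.swap]
        field_simp
      exact e ▸ k 2
    · have e : q.Z * q.swap.vec 6 = q.vec 6 := by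
        simp [vec, Quad.swap]
        field_simp
      exact e ▸ k 6
    · have e : q.Z * q.swap.vec 7 = q.vec 7 := by
        simp [vec, Quad.swap]
        field_simp
      exact e ▸ k 7
    · have e : q.Z * q.swap.vec 8 = q.vec 8 := by
        simp [vec, Quad.swap]
        field_simp
      exact e ▸ k 8
  · intro i
    have k := fun j => q.swap.vec_mem j
    fin_cases i
    · have e : q.Z⁻¹ * q.vec 0 = q.swap.vec 3 := by simp [vec, Quad.swap]
      exact e ▸ k 3
    · have e : q.Z⁻¹ * q.vec 1 = q.swap.vec 4 := by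
        simp [vec, Quad.swap]
        ring
      exact e ▸ k 4
    · have e : q.Z⁻¹ * q.vec 2 = q.swap.vec 5 := by
        simp [vec, Quad.swap]
        ring
      exact e ▸ k 5
    · have e : q.Z⁻¹ * q.vec 3 = q.swap.vec 0 := by simp [vec, hZ]
      exact e ▸ k 0
    · have e : q.Z⁻¹ * q.vec 4 = q.swap.vec 1 := by
        simp [vec, Quad.swap]
        field_simp
      exact e ▸ k 1
    · have e : q.Z⁻¹ * q.vec 5 = q.swap.vec 2 := by
        simp [vec, Quad.swap]
        field_simp
      exact e ▸ k 2
    · have e : q.Z⁻¹ * q.vec 6 = q.swap.vec 6 := by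
        simp [vec, Quad.swap]
        field_simp
      exact e ▸ k 6
    · have e : q.Z⁻¹ * q.vec 7 = q.swap.vec 7 := by
        simp [vec, Quad.swap]
        field_simp
      exact e ▸ k 7
    · have e : q.Z⁻¹ * q.vec 8 = q.swap.vec 8 := by
        simp [vec, Quad.swap]
        field_simp
      exact e ▸ k 8

end Quad

end

end M21X
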