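import Pool.Agent.H.MP_21b43d_ag.X.Six

/-!
# M6 / X-part: the rings of the six charts of the surface
-/

set_option autoImplicit false

open CategoryTheory AlgebraicGeometry TopologicalSpace MvPolynomial

namespace M21X

noncomputable section

variable {K : Type} [Field K] [Algebra ℂ K]

namespace Quad

theorem VV_le_AC (q : Quad K) {x : K} (hx : x ∈ q.VV) : x ∈ q.AC := by
  have hB : q.B ∈ q.AC := Algebra.subset_adjoin (by simp)
  have hD : q.D ∈ q.AC := Algebra.subset_adjoin (by simp)
  have hY : q.Y ∈ q.AC := Algebra.subset_adjoin (by simp)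
  have hZ : q.Z ∈ q.AC := Algebra.subset_adjoin (by simp)
  have h1 : q.VV ≤ Subalgebra.toSubmodule q.AC := by
    rw [VV, Submodule.span_le]
    rintro _ ⟨i, rfl⟩
    fin_cases i
    · exact one_mem q.AC
    · exact hB
    · exact hD
    · exact hZ
    · exact q.AC.mul_mem hB hZ
    · exact q.AC.mul_mem hD hZ
    · exact q.AC.mul_mem hD hY
    · exact q.AC.mul_mem hB hY
    · exact q.AC.mul_mem (q.AC.pow_mem hD 2) hY
  exact h1 hx

/-- a linear form with given value -/
theorem exists_linear {q : Quad K} {x : K} (hx : x ∈ q.VV) :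
    ∃ L : MvPolynomial (Fin 9) ℂ, L ∈ gr 8 1 ∧ aeval q.vec L = x := by
  induction hx using Submodule.span_induction with
  | mem y hy => obtain ⟨i, rfl⟩ := hy; exact ⟨X i, X_mem 8 i, aeval_X _ _⟩
  | zero => exact ⟨0, zero_mem _, map_zero _⟩
  | add a b _ _ ha hb =>
    obtain ⟨L, hL, rfl⟩ := ha
    obtain ⟨M, hM, rfl⟩ := hb
    exact ⟨L + M, add_mem hL hM, map_add _ _ _⟩
  | smul c a _ ha =>
    obtain ⟨L, hL, rfl⟩ := ha
    exact ⟨c • L, Submodule.smul_mem _ c hL, map_smul _ _ _⟩

/-- homogeneous polynomials in rescaled variables -/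
theorem aeval_rescale {N : ℕ} (v : Fin (N + 1) → K) (l : K) (g : MvPolynomial (Fin (N + 1)) ℂ)
    {n : ℕ} (hg : g ∈ gr N n) : aeval (fun i => l * v i) g = l ^ n * aeval v g := by
  rw [aeval_def, eval₂_eq', aeval_def, eval₂_eq', Finset.mul_sum]
  refine Finset.sum_congr rfl fun d hd => ?_
  have h1 := (mem_homogeneousSubmodule n g).mp hg (mem_support_iff.mp hd)
  have h2 : ∑ i, d i = n := by
    rw [← h1, Finsupp.weight_apply, Finsupp.sum_fintype]
    · simp
    · simp
  simp only [mul_pow]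
  rw [Finset.prod_mul_distrib, Finset.prod_pow_eq_pow_sum, h2]
  ring

/-- **The ring of the chart.** -/
theorem RR_eq_AC {q q' : Quad K} (hq' : q'.Good) (l : K) (hl : l ≠ 0) (hrel : Rel l q q')
    (f : MvPolynomial (Fin 9) ℂ) (hf2 : f ∈ gr 8 2) (c : ℂ) (hc : c ≠ 0)
    (hfv : aeval q.vec f = algebraMap ℂ K c * (l ^ 2 * q'.B)) (hf : aeval q.vec f ≠ 0) :
    RR (N := 8) q.vec f hf = q'.AC.toSubring := by
  have hB' := hq'.B_ne
  have hcK : algebraMap ℂ K c ≠ 0 := by simpa using hc
  ext x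
  rw [mem_RR_iff q.vec f hf hf2]
  constructor
  · rintro ⟨n, g, hg, rfl⟩
    have h1 : aeval (fun i => l⁻¹ * q.vec i) g = (l⁻¹) ^ (n * 2) * aeval q.vec g :=
      aeval_rescale (N := 8) q.vec l⁻¹ g hg
    have h2 : aeval q.vec g / (aeval q.vec f) ^ n =
        aeval (fun i => l⁻¹ * q.vec i) g * ((q'.B)⁻¹) ^ n * (algebraMap ℂ K (c⁻¹)) ^ n := by
      rw [h1, hfv, map_inv₀, mul_pow, mul_pow, ← pow_mul, mul_comm 2 n, inv_pow, inv_pow, inv_pow]
      field_simp
    rw [h2]
    have h3 : ∀ i, l⁻¹ * q.vec i ∈ q'.AC := by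
      intro i
      apply q'.VV_le_AC
      rw [hrel, mul_inv_cancel_left₀ hl]
      exact q.vec_mem i
    have h4 : aeval (fun i => l⁻¹ * q.vec i) g ∈ q'.AC := by
      have h5 : aeval (fun i => l⁻¹ * q.vec i) g =
          q'.AC.val (aeval (fun i => (⟨_, h3 i⟩ : q'.AC)) g) := by
        rw [MvPolynomial.comp_aeval_apply]
        rfl
      rw [h5]
      exact Subtype.mem _
    have h6 : (q'.B)⁻¹ ∈ q'.AC := Algebra.subset_adjoin (by simp)
    exact mul_mem (mul_mem h4 (pow_mem h6 n)) (pow_mem (q'.AC.algebraMap_mem _) n)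
  · intro hx
    have key : ∀ y ∈ q'.AC, ∃ (n : ℕ) (g : MvPolynomial (Fin 9) ℂ), g ∈ gr 8 (n * 2) ∧
        y = aeval q.vec g / (aeval q.vec f) ^ n := by
      have hprod : ∀ i j : Fin 9, q'.vec i * q'.vec j / q'.B ∈ RR (N := 8) q.vec f hf := by
        intro i j
        rw [mem_RR_iff q.vec f hf hf2]
        obtain ⟨L, hL, hLv⟩ := exists_linear ((hrel _).mp (q'.vec_mem i))
        obtain ⟨M, hM, hMv⟩ := exists_linear ((hrel _).mp (q'.vec_mem j))
        refine ⟨1, C c * (L * M), ?_, ?_⟩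
        · have h1 : L * M ∈ gr 8 (1 + 1) := SetLike.mul_mem_graded hL hM
          rw [C_mul']
          exact Submodule.smul_mem _ c h1
        · rw [map_mul, map_mul, hLv, hMv, aeval_C, hfv, pow_one]
          field_simp
      intro y hy
      rw [← mem_RR_iff q.vec f hf hf2]
      induction hy using Algebra.adjoin_induction with
      | mem z hz =>
        rcases hz with rfl | rfl | rfl | rfl | rfl
        · have h1 : q'.B = q'.vec 1 * q'.vec 1 / q'.B := by simp [vec]
          rw [h1]; exact hprod 1 1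
        · have h1 : q'.B⁻¹ = q'.vec 0 * q'.vec 0 / q'.B := by simp [vec]
          rw [h1]; exact hprod 0 0
        · have h1 : q'.D = q'.vec 1 * q'.vec 2 / q'.B := by simp [vec]; field_simp
          rw [h1]; exact hprod 1 2
        · have h1 : q'.Y = q'.vec 0 * q'.vec 7 / q'.B := by simp [vec]; field_simp
          rw [h1]; exact hprod 0 7
        · have h1 : q'.Z = q'.vec 1 * q'.vec 3 / q'.B := by simp [vec]; field_simp
          rw [h1]; exact hprod 1 3
      | algebraMap c => exact algebraMap_mem_RR q.vec f hf hf2 c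
      | add a b _ _ ha hb => exact add_mem ha hb
      | mul a b _ _ ha hb => exact mul_mem ha hb
    exact key x hx

end Quad

end

end M21X
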