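import Pool.Agent.H.MP_21b43d_ag.X.Six3
import Pool.Agent.H.MP_21b43d_ag.X.RelDim

/-!
# M6 / X-part: the surface is smooth of relative dimension two over the complex numbers
-/

set_option autoImplicit false

open CategoryTheory AlgebraicGeometry TopologicalSpace MvPolynomial

namespace M21X

noncomputable section

variable {K : Type} [Field K] [Algebra ℂ K]

namespace Quad

variable {q : Quad K} (h : q.Good)

/-- the affine open cover by the six charts -/
def Good.cover : q.XX.AffineOpenCover where
  I₀ := Fin 3 × Bool
  X s := .of (q.quad s).AC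
  f s := h.ch s
  idx x := (h.ch_cover x).choose
  covers x := (h.ch_cover x).choose_spec

theorem Good.relDim_AC (q' : Quad K) (hq' : q'.Good) :
    RingHom.Locally (fun f => RingHom.IsStandardSmoothOfRelativeDimension 2 f)
      (algebraMap ℂ q'.AC) := by
  have h1 := AA.relDim
  have h2 : algebraMap ℂ q'.AC = (hq'.equiv.toRingEquiv : AA →+* q'.AC).comp (algebraMap ℂ AA) := by
    ext c
    exact congrArg Subtype.val (hq'.equiv.commutes c).symm
  rw [h2]
  have h3 := (RingHom.locally_respectsIso
    (RingHom.isStandardSmoothOfRelativeDimension_respectsIso (n := 2)))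
  exact h3.1 (algebraMap ℂ AA) hq'.equiv.toRingEquiv h1

include h in
theorem Good.smooth : SmoothOfRelativeDimension 2 q.str := by
  have hl : IsZariskiLocalAtSource (@SmoothOfRelativeDimension.{0} 2) :=
    HasRingHomProperty.instIsZariskiLocalAtSource
  rw [IsZariskiLocalAtSource.iff_of_openCover (P := @SmoothOfRelativeDimension 2) h.cover.openCover]
  have key : ∀ s : Fin 3 × Bool, SmoothOfRelativeDimension 2 (h.ch s ≫ q.str) := by
    intro s
    rw [h.ch_str, HasRingHomProperty.Spec_iff (P := @SmoothOfRelativeDimension 2)]
    exact relDim_AC _ (h.quad s)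
  exact fun s => key s

end Quad

end

end M21X
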