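import Pool.Agent.H.MP_21b43d_ag.X.Ver2

/-!
# M6 / X-part: the surface is a smooth projective surface
-/

set_option autoImplicit false

open CategoryTheory AlgebraicGeometry TopologicalSpace MvPolynomial

namespace M21X

open M21

noncomputable section

variable {K : Type} [Field K] [Algebra ℂ K] {q : Quad K}

namespace Quad

/-- **The surface is a smooth projective surface.** -/
theorem Good.isSmoothProjectiveSurface (h : q.Good) : IsSmoothProjectiveSurface q.str where
  integral := inferInstance
  smooth := h.smooth
  projective := ⟨8, XX.emb (N := 8) q.vec q.vec0_ne, inferInstance, rfl⟩

end Quad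

end

end M21X
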