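import Mathlib

/-!
# M6 / X-part: integrality from two charts
-/

set_option autoImplicit false

open Polynomial

namespace M21X

noncomputable section

/-- A valuation subring which contains a subalgebra contains everything integral over it. -/
theorem YAlg3_mem {k : Type} [Field k] [Algebra ℂ k] (S : Subalgebra ℂ k) (V : ValuationSubring k)
    (h : ∀ x ∈ S, x ∈ V) {r : k} (hr : IsIntegral S r) : r ∈ V := by
  obtain ⟨p, hp, hp0⟩ := hr
  let f : S →+* V := (algebraMap S k).codRestrict V (fun x => h x x.2)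
  have hint : IsIntegral V r := by
    refine ⟨p.map f, hp.map f, ?_⟩
    rw [Polynomial.eval₂_map]
    have : (algebraMap V k).comp f = algebraMap S k := by
      ext x; rfl
    rw [this]; exact hp0
  obtain ⟨y, hy⟩ := (IsIntegrallyClosed.isIntegral_iff (R := V) (K := k)).1 hint
  rw [← hy]
  exact y.2

/-- PROOF. The integral closure of `ℂ[b]` in `k` is the intersection of the valuation subrings of `k`
containing `ℂ[b]` (Mathlib: `ValuationSubring`, `iInf_valuationSubring_superset` or
`LocalSubring` file). Let `O` be such a valuation subring. If `ζ ∈ O` then `ℂ[b, ζ] ⊆ O`, so `Rx ⊆ O`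
(`O` is integrally closed), so `g ∈ O`. Otherwise `ζ ≠ 0`, `ζ⁻¹ ∈ O`, and `Rz ⊆ O`, so `g ∈ O`. -/
theorem int_glue {k : Type} [Field k] [Algebra ℂ k] (b ζ : k) (Rx Rz : Subalgebra ℂ k)
    (hx : ∀ r ∈ Rx, IsIntegral (Algebra.adjoin ℂ {b, ζ}) r)
    (hz : ∀ r ∈ Rz, IsIntegral (Algebra.adjoin ℂ {b, ζ⁻¹}) r) (g : k)
    (hgx : IsIntegral Rx g) (hgz : ζ ≠ 0 → IsIntegral Rz g) :
    IsIntegral (Algebra.adjoin ℂ {b}) g := by
  classical
  set B : Subalgebra ℂ k := Algebra.adjoin ℂ {b} with hB
  have key : ∀ V : ValuationSubring k, (B : Set k) ⊆ V.toSubring → g ∈ V := by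
    intro V hV
    have hV' : ∀ x ∈ B, x ∈ V := fun x hx => hV hx
    have hb : b ∈ V := hV' b (Algebra.subset_adjoin rfl)
    have hC : ∀ c : ℂ, algebraMap ℂ k c ∈ V := fun c => hV' _ (B.algebraMap_mem c)
    have hadj : ∀ t : k, t ∈ V → ∀ x ∈ Algebra.adjoin ℂ {b, t}, x ∈ V := by
      intro t ht x hx
      induction hx using Algebra.adjoin_induction with
      | mem x hx =>
        rcases hx with rfl | rfl
        · exact hb
        · exact ht
      | algebraMap r => exact hC r
      | add x y _ _ hx hy => exact V.add_mem _ _ hx hy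
      | mul x y _ _ hx hy => exact V.mul_mem _ _ hx hy
    by_cases hζ : ζ ∈ V
    · exact YAlg3_mem Rx V (fun r hr => YAlg3_mem _ V (hadj ζ hζ) (hx r hr)) hgx
    · have h0 : ζ ≠ 0 := by
        rintro rfl; exact hζ V.zero_mem
      have hi : ζ⁻¹ ∈ V := (V.mem_or_inv_mem ζ).resolve_left hζ
      exact YAlg3_mem Rz V (fun r hr => YAlg3_mem _ V (hadj _ hi) (hz r hr)) (hgz h0)
  have hmem : g ∈ (⨅ V : {V : ValuationSubring k // (B : Set k) ⊆ V.toSubring}, V.1.toSubring) := by
    rw [Subring.mem_iInf]
    rintro ⟨V, hV⟩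
    exact key V hV
  rw [iInf_valuationSubring_superset] at hmem
  have hint : IsIntegral (Subring.closure (B : Set k)) g := hmem
  have hcl : Subring.closure (B : Set k) ≤ B.toSubring := by
    rw [Subring.closure_le]; exact fun x hx => hx
  obtain ⟨p, hp, hp0⟩ := hint
  let f : Subring.closure (B : Set k) →+* B :=
    (algebraMap (Subring.closure (B : Set k)) k).codRestrict B (fun x => hcl x.2)
  refine ⟨p.map f, hp.map f, ?_⟩
  rw [Polynomial.eval₂_map]
  have : (algebraMap B k).comp f = algebraMap (Subring.closure (B : Set k)) k := by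
    ext x; rfl
  rw [this]; exact hp0

end

end M21X
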