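import Pool.Agent.H.MP_21b43d_ag.X.Val
import Pool.Agent.H.MP_21b43d_ag.X.Cen
import Pool.Agent.H.MP_21b43d_ag.X.YAlg3
import Pool.Agent.H.MP_21b43d_ag.Z.Main

/-!
# M6 / X-part: cocycles for two open sets which do not die at a point
-/

set_option autoImplicit false

open CategoryTheory AlgebraicGeometry TopologicalSpace IsLocalRing Opposite

namespace M21X

open M21 M21.Z

noncomputable section

theorem isIntegral_of_forall_valuation {k : Type} [Field k] [Algebra ℂ k] (B : Subalgebra ℂ k) (g : k)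
    (key : ∀ V : ValuationSubring k, (B : Set k) ⊆ V.toSubring → g ∈ V) : IsIntegral B g := by
  have hmem : g ∈ (⨅ V : {V : ValuationSubring k // (B : Set k) ⊆ V.toSubring}, V.1.toSubring) := by
    rw [Subring.mem_iInf]
    rintro ⟨V, hV⟩
    exact key V hV
  rw [iInf_valuationSubring_superset] at hmem
  have hint : IsIntegral (Subring.closure (B : Set k)) g := hmem
  have hcl : Subring.closure (B : Set k) ≤ B.toSubring := by
    rw [Subring.closure_le]; exact fun x hx => hx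
  obtain ⟨p, hp, hp0⟩ := hint
  let f : Subring.closure (B : Set k) →+* B :=
    (algebraMap (Subring.closure (B : Set k)) k).codRestrict B (fun x => hcl x.2)
  refine ⟨p.map f, hp.map f, ?_⟩
  rw [Polynomial.eval₂_map]
  have : (algebraMap B k).comp f = algebraMap (Subring.closure (B : Set k)) k := by
    ext x; rfl
  rw [this]; exact hp0

/-- an element which is integral over a ring whose image is in a valuation ring -/
theorem mem_of_isIntegralElem {A k : Type} [CommRing A] [Field k] (φ : A →+* k)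
    (V : ValuationSubring k) (h : ∀ a, φ a ∈ V) {g : k} (hg : φ.IsIntegralElem g) : g ∈ V := by
  obtain ⟨p, hp, hp0⟩ := hg
  let f : A →+* V := φ.codRestrict V.toSubring h
  have hint : IsIntegral V g := by
    refine ⟨p.map f, hp.map f, ?_⟩
    rw [Polynomial.eval₂_map]
    exact hp0
  obtain ⟨y, hy⟩ := (IsIntegrallyClosed.isIntegral_iff (R := V) (K := k)).1 hint
  rw [← hy]
  exact y.2

variable {K : Type} [Field K] {X : Scheme.{0}} {ξ : Spec (.of K) ⟶ X}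

/-- constants -/
theorem Val.const [Algebra ℂ K] (f : X ⟶ Spec (.of ℂ))
    (hξ : ξ ≫ f = Spec.map (CommRingCat.ofHom (algebraMap ℂ K))) (z : X) (c : ℂ) :
    Val ξ z (algebraMap ℂ K c) (ptHom f z c) := by
  refine ⟨⊤, trivial, fun _ _ => trivial, constHom f ⊤ c, ?_, evaluation_constHom f ⊤ z trivial c⟩
  have hle : (⊤ : (Spec (.of K)).Opens) ≤ ξ ⁻¹ᵁ ⊤ := fun _ _ => trivial
  have h : ((Scheme.ΓSpecIso (.of ℂ)).inv ≫ f.appLE ⊤ ⊤ (le_preimage_top f ⊤)) ≫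
      (ξ.appLE ⊤ ⊤ hle) ≫ (Scheme.ΓSpecIso (.of K)).hom =
      CommRingCat.ofHom (algebraMap ℂ K) := by
    rw [Category.assoc, ← Category.assoc (f.appLE ⊤ ⊤ _), Scheme.Hom.appLE_comp_appLE]
    have h1 : (ξ ≫ f).appLE ⊤ ⊤ (fun _ _ => trivial) = (ξ ≫ f).appTop :=
      (ξ ≫ f).appLE_eq_app
    have h2 : (ξ ≫ f).appTop = (Spec.map (CommRingCat.ofHom (algebraMap ℂ K))).appTop := by
      rw [hξ]
    have h3 := Scheme.ΓSpecIso_inv_naturality (CommRingCat.ofHom (algebraMap ℂ K))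
    have h4 : (Scheme.ΓSpecIso (.of ℂ)).inv ≫ (ξ ≫ f).appTop ≫ (Scheme.ΓSpecIso (.of K)).hom =
        CommRingCat.ofHom (algebraMap ℂ K) := by
      rw [h2, ← Category.assoc, ← h3, Category.assoc, Iso.inv_hom_id, Category.comp_id]
    rw [← h1] at h4
    exact h4
  exact congrArg (fun g : CommRingCat.of ℂ ⟶ CommRingCat.of K => g.hom c) h

theorem int_of_center (f : X ⟶ Spec (.of ℂ)) [IsProper f] (z : X) (U : X.Opens)
    (g t : X.residueField z)
    (hg : ∀ V : X.Opens, IsAffineOpen V → V ≤ U → ∀ hz : z ∈ V,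
      (X.evaluation V z hz).hom.IsIntegralElem g)
    (hU : ∀ (y : X) (hzy : z ⤳ y), y ∉ U → ∃ (W : X.Opens) (hy : y ∈ W) (s : Γ(X, W)),
      X.evaluation W y hy s = 0 ∧ X.evaluation W z (hzy.mem_open W.2 hy) s * t = 1) :
    let := (ptHom f z).toAlgebra
    IsIntegral (Algebra.adjoin ℂ {t}) g := by
  let := (ptHom f z).toAlgebra
  apply isIntegral_of_forall_valuation
  intro V hV
  have hC : ∀ c : ℂ, ptHom f z c ∈ V := fun c =>
    hV ((Algebra.adjoin ℂ {t}).algebraMap_mem c)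
  have ht : t ∈ V := hV (Algebra.subset_adjoin rfl)
  obtain ⟨y, hzy, h⟩ := exists_center' f z V hC
  by_cases hy : y ∈ U
  · obtain ⟨_, ⟨W, hW, rfl⟩, hyW, hWU⟩ :=
      X.isBasis_affineOpens.exists_subset_of_mem_open hy U.2
    exact mem_of_isIntegralElem _ V (fun s => (h W hyW s).1)
      (hg W hW hWU (hzy.mem_open W.2 hyW))
  · exfalso
    obtain ⟨W, hyW, s, h1, h2⟩ := hU y hzy hy
    exact (h W hyW s).2 h1 t ht h2

variable [IsIntegral X] [IsDominant ξ]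

theorem int_of_val (f : X ⟶ Spec (.of ℂ)) [IsProper f] (z : X) (U : X.Opens)
    (g t : X.residueField z) (x : K) (hx : Val ξ z x t) (ht : t ≠ 0)
    (hg : ∀ V : X.Opens, IsAffineOpen V → V ≤ U → ∀ hz : z ∈ V,
      (X.evaluation V z hz).hom.IsIntegralElem g)
    (hU : ∀ y : X, z ⤳ y → y ∉ U → Val ξ y x⁻¹ 0) :
    let := (ptHom f z).toAlgebra
    IsIntegral (Algebra.adjoin ℂ {t}) g := by
  apply int_of_center f z U g t hg
  intro y hzy hy
  obtain ⟨W, hyW, hW, s, hs, h0⟩ := hU y hzy hy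
  refine ⟨W, hyW, s, h0, ?_⟩
  have hx0 : x ≠ 0 := by
    rintro rfl
    exact ht (hx.unique Val.zero)
  have h1 : Val ξ z x⁻¹ (X.evaluation W z (hzy.mem_open W.2 hyW) s) := ⟨W, _, hW, s, hs, rfl⟩
  have h2 := h1.mul hx
  rw [inv_mul_cancel₀ hx0] at h2
  exact h2.unique Val.one

/-- a cocycle which does not die -/
theorem exists_not_dies (f : X ⟶ Spec (.of ℂ)) [IsProper f] (z : X) (U₀ U₁ : X.Opens)
    (h0 : z ∈ U₀) (h1 : z ∈ U₁) (x w : K) (t a : X.residueField z)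
    (hx : Val ξ z x t) (ht : t ≠ 0)
    (hU₀ : ∀ y : X, z ⤳ y → y ∉ U₀ → Val ξ y x⁻¹ 0)
    (hU₁ : ∀ y : X, z ⤳ y → y ∉ U₁ → Val ξ y x 0)
    (hw : ∀ y ∈ U₀ ⊓ U₁, ∃ b, Val ξ y w b) (ha : Val ξ z w a)
    (key : letI := (ptHom f z).toAlgebra
      ∀ g0 g1 : X.residueField z, IsIntegral (Algebra.adjoin ℂ {t}) g0 →
      IsIntegral (Algebra.adjoin ℂ {t⁻¹}) g1 → ∀ n : ℕ, 0 < n → g0 - g1 ≠ n * a) :
    ∃ c : Cocycle (fun b : Bool => bif b then U₁ else U₀), ¬ Dies c z := by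
  have hW : ⊤ ≤ ξ ⁻¹ᵁ (U₀ ⊓ U₁) := top_le_of_nonempty ξ _ z ⟨h0, h1⟩
  obtain ⟨s, hs⟩ := exists_section (ξ := ξ) (U₀ ⊓ U₁) hW w hw
  have hsz : X.evaluation (U₀ ⊓ U₁) z ⟨h0, h1⟩ s = a :=
    Val.unique (ξ := ξ) (x := w) ⟨U₀ ⊓ U₁, ⟨h0, h1⟩, hW, s, hs, rfl⟩ ha
  refine ⟨cocycleOfTwo U₀ U₁ s, ?_⟩
  rintro ⟨d, g, hd, e1, e2⟩
  have e3 := e1 false true h0 h1
  refine key (g false) (g true) ?_ ?_ d hd (e3.trans ?_)
  · exact int_of_val (ξ := ξ) f z U₀ _ t x hx ht (fun V hV hVU hz => e2 false V hV hVU hz) hU₀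
  · refine int_of_val (ξ := ξ) f z U₁ _ t⁻¹ x⁻¹ (hx.inv ht) (inv_ne_zero ht)
      (fun V hV hVU hz => e2 true V hV hVU hz) ?_
    rw [inv_inv]
    exact hU₁
  · rw [← hsz]
    rfl

end

end M21X
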