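import Pool.Agent.H.MP_21b43d_ag.X.Hor
import Pool.Agent.H.MP_21b43d_ag.X.Sm

/-!
# M6 / X-part: vertical points
-/

set_option autoImplicit false

open CategoryTheory AlgebraicGeometry TopologicalSpace MvPolynomial

namespace M21X

open M21 M21.Z

noncomputable section

variable {K : Type} [Field K] [Algebra ℂ K] {q : Quad K}

namespace Quad

/-- values in a chart -/
theorem Good.exists_val (h : q.Good) (s : Fin 3 × Bool) {z : q.XX} (hz : z ∈ q.O (pol s)) {x : K}
    (hx : x ∈ (q.quad s).AC) : ∃ a, q.V z x a := by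
  have hx' : x ∈ RR (N := 8) q.vec (pol s) (h.pol_ne s) := by
    rw [h.RR_pol s]
    exact hx
  exact val_of_RR (N := 8) q.vec q.vec0_ne (pol s) (h.pol_ne s) (pol_mem s) two_pos z hz hx'

omit [Algebra ℂ K] in
theorem quad_false (i : Fin 3) : q.quad (i, false) = q.quad0 i := by simp [Quad.quad]

omit [Algebra ℂ K] in
theorem quad_true (i : Fin 3) : q.quad (i, true) = (q.quad0 i).swap := by simp [Quad.quad]

theorem Good.rot_rot_B (h : q.Good) : q.rot.rot.B = -(1 + q.B)⁻¹ := by
  have hB := h.B_ne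
  have hB1 := h.B1_ne
  have h1 : 1 + q.rot.B = -q.B⁻¹ := by
    simp only [Quad.rot]
    field_simp
    ring
  have h2 : q.rot.rot.B = -(1 + q.rot.B) / q.rot.B := rfl
  have h3 : q.rot.B = -(1 + q.B) / q.B := rfl
  rw [h2, h1, h3]
  field_simp

/-- the value of `B` in a chart at a vertical point is a nonzero constant -/
theorem Good.beta (h : q.Good) (s : Fin 3 × Bool) {z : q.XX} (hz : z ∈ q.O (pol s)) (hv : Vert z) :
    ∃ c : ℂ, c ≠ 0 ∧ q.V z (q.quad s).B (algebraMap ℂ _ c) := by
  have hZ := h.Z_ne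
  have hB := h.B_ne
  have hB1 := h.B1_ne
  obtain ⟨a, b, hab, hx, hz'⟩ := hv
  obtain ⟨β, hβ⟩ := h.exists_val s hz (x := (q.quad s).B) (Algebra.subset_adjoin (by simp))
  obtain ⟨β', hβ'⟩ := h.exists_val s hz (x := (q.quad s).B⁻¹) (Algebra.subset_adjoin (by simp))
  have hβ0 : β ≠ 0 := by
    rintro rfl
    have h1 := hβ.mul hβ'
    rw [mul_inv_cancel₀ (h.quad s).B_ne, zero_mul] at h1
    exact one_ne_zero (Val.one.unique h1)
  -- a linear relation for the value
  suffices hs : ∃ m n : ℂ, (m ≠ 0 ∨ n ≠ 0) ∧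
      q.V z (algebraMap ℂ K m + algebraMap ℂ K n * (q.quad s).B) 0 by
    obtain ⟨m, n, hmn, h0⟩ := hs
    have h1 : algebraMap ℂ _ m + algebraMap ℂ _ n * β = 0 :=
      ((val_const z m).add ((val_const z n).mul hβ)).unique h0
    have hn : n ≠ 0 := by
      rintro rfl
      rcases hmn with h2 | h2
      · rw [map_zero, zero_mul, add_zero] at h1
        exact h2 ((map_eq_zero _).1 h1)
      · exact h2 rfl
    have hn' : (algebraMap ℂ (q.XX.residueField z)) n ≠ 0 := by simpa using hn
    have h2 : β = algebraMap ℂ _ (-m / n) := by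
      rw [map_div₀, map_neg, eq_div_iff hn']
      linear_combination h1
    refine ⟨-m / n, ?_, h2 ▸ hβ⟩
    intro h3
    rw [h3, map_zero] at h2
    exact hβ0 h2
  rcases s with ⟨i, j⟩
  cases j <;> fin_cases i
  · -- X0 * X1
    have h0 : z ∈ q.O (X 0) := by
      rw [mem_O]
      intro h'
      exact hz (Ideal.mul_mem_right _ _ h')
    refine ⟨a, b, hab, val_zero (X_mem 8 0) (Lx_mem a b) h0 hx ?_⟩
    rw [aeval_Lx]
    simp [vec, Quad.quad, Quad.quad0]
  · -- X1 * (X0 + X1)
    have h0 : z ∈ q.O (X 1) := by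
      rw [mem_O]
      intro h'
      exact hz (Ideal.mul_mem_right _ _ h')
    refine ⟨b - a, -a, ?_, val_zero (X_mem 8 1) (Lx_mem a b) h0 hx ?_⟩
    · rcases hab with h' | h'
      · right; simpa using h'
      · by_cases ha : a = 0
        · left; rw [ha, sub_zero]; exact h'
        · right; simpa using ha
    · rw [aeval_Lx]
      simp [vec, Quad.quad, Quad.quad0, Quad.rot]
      field_simp
      ring
  · -- X0 * (X0 + X1)
    have h0 : z ∈ q.O (X 0 + X 1) := by
      rw [mem_O]
      intro h'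
      exact hz (Ideal.mul_mem_left _ _ h')
    refine ⟨b, b - a, ?_, val_zero (add_mem (X_mem 8 0) (X_mem 8 1)) (Lx_mem a b) h0 hx ?_⟩
    · rcases hab with h' | h'
      · by_cases hb : b = 0
        · right; rw [hb]; simpa using h'
        · left; exact hb
      · left; exact h'
    · rw [aeval_Lx]
      have h1 : (q.quad (2, false)).B = -(1 + q.B)⁻¹ := by
        rw [quad_false]
        exact h.rot_rot_B
      change (algebraMap ℂ K b + algebraMap ℂ K (b - a) * (q.quad (2, false)).B) * _ = _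
      rw [h1]
      simp [vec]
      field_simp
      ring
  · have h0 : z ∈ q.O (X 3) := by
      rw [mem_O]
      intro h'
      exact hz (Ideal.mul_mem_right _ _ h')
    refine ⟨a, b, hab, val_zero (X_mem 8 3) (Lz_mem a b) h0 hz' ?_⟩
    rw [aeval_Lz]
    simp [vec, Quad.quad, Quad.quad0, Quad.swap]
  · have h0 : z ∈ q.O (X 4) := by
      rw [mem_O]
      intro h'
      exact hz (Ideal.mul_mem_right _ _ h')
    refine ⟨b - a, -a, ?_, val_zero (X_mem 8 4) (Lz_mem a b) h0 hz' ?_⟩
    · rcases hab with h' | h'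
      · right; simpa using h'
      · by_cases ha : a = 0
        · left; rw [ha, sub_zero]; exact h'
        · right; simpa using ha
    · rw [aeval_Lz]
      simp [vec, Quad.quad, Quad.quad0, Quad.rot, Quad.swap]
      field_simp
      ring
  · have h0 : z ∈ q.O (X 3 + X 4) := by
      rw [mem_O]
      intro h'
      exact hz (Ideal.mul_mem_left _ _ h')
    refine ⟨b, b - a, ?_, val_zero (add_mem (X_mem 8 3) (X_mem 8 4)) (Lz_mem a b) h0 hz' ?_⟩
    · rcases hab with h' | h'
      · by_cases hb : b = 0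
        · right; rw [hb]; simpa using h'
        · left; exact hb
      · left; exact h'
    · rw [aeval_Lz]
      have h1 : (q.quad (2, true)).B = -(1 + q.B)⁻¹ := by
        rw [quad_true]
        exact h.rot_rot_B
      change (algebraMap ℂ K b + algebraMap ℂ K (b - a) * (q.quad (2, true)).B) * _ = _
      rw [h1]
      simp [vec]
      field_simp
      ring

/-- If all values of the generators of a chart are algebraic, the point is closed. -/
theorem Good.closed_of_algebraic (h : q.Good) (s : Fin 3 × Bool) {z : q.XX}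
    (hz : z ∈ q.O (pol s)) (hal : ∀ x ∈ (q.quad s).AC, ∃ c : ℂ, q.V z x (algebraMap ℂ _ c)) :
    IsClosed ({z} : Set q.XX) := by
  by_contra hzc
  have hA : IsAffineOpen (q.O (pol s)) :=
    UU_affine (N := 8) q.vec q.vec0_ne (pol s) (pol_mem s) two_pos
  have := h.smooth
  refine not_isMaximal_ker q.str hA hz hzc ?_
  have hr : ∀ s' : Γ(q.XX, q.O (pol s)), ∃ c : ℂ,
      q.XX.evaluation (q.O (pol s)) z hz s' = algebraMap ℂ _ c := by
    intro s'
    have hU := pt_mem_UU (N := 8) q.vec q.vec0_ne (pol s) (h.pol_ne s) (pol_mem s) two_pos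
    have h1 : rho q.pt (q.O (pol s)) hU s' ∈ (q.quad s).AC := by
      have h2 : rho q.pt (q.O (pol s)) hU s' ∈ RR (N := 8) q.vec (pol s) (h.pol_ne s) := by
        rw [← rho_range (N := 8) q.vec q.vec0_ne (pol s) (h.pol_ne s) (pol_mem s) two_pos]
        exact ⟨s', rfl⟩
      rw [h.RR_pol s] at h2
      exact h2
    obtain ⟨c, hc⟩ := hal _ h1
    exact ⟨c, (Val.eval hz hU s').unique hc⟩
  have hc : ∀ c : ℂ, ∃ s' : Γ(q.XX, q.O (pol s)),
      q.XX.evaluation (q.O (pol s)) z hz s' = algebraMap ℂ _ c :=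
    fun c => ⟨constHom q.str _ c, evaluation_constHom q.str _ z hz c⟩
  rw [Ideal.isMaximal_iff]
  refine ⟨fun h1 => ?_, fun J x hJ hx hxJ => ?_⟩
  · have h2 : q.XX.evaluation (q.O (pol s)) z hz 1 = 0 := h1
    rw [map_one] at h2
    exact one_ne_zero h2
  · obtain ⟨c, hc1⟩ := hr x
    obtain ⟨y, hy⟩ := hc c⁻¹
    have hc0 : algebraMap ℂ (q.XX.residueField z) c ≠ 0 := by
      intro h0
      apply hx
      rw [h0] at hc1
      exact hc1
    have h3 : x * y - 1 ∈ RingHom.ker (q.XX.evaluation (q.O (pol s)) z hz).hom := by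
      rw [RingHom.mem_ker, map_sub, map_mul, map_one]
      change q.XX.evaluation (q.O (pol s)) z hz x * q.XX.evaluation (q.O (pol s)) z hz y - 1 = 0
      rw [hc1, hy, map_inv₀, mul_inv_cancel₀ hc0, sub_self]
    have h4 := J.sub_mem (J.mul_mem_right y hxJ) (hJ h3)
    rwa [sub_sub_cancel] at h4

/-- **The value of `Z` at a vertical point which is not closed is transcendental.** -/
theorem Good.trans_zeta (h : q.Good) (s : Fin 3 × Bool) {z : q.XX} (hz : z ∈ q.O (pol s))
    (hv : Vert z) (hzc : ¬ IsClosed ({z} : Set q.XX)) {ζ : q.XX.residueField z}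
    (hζ : q.V z (q.quad s).Z ζ) : Transcendental ℂ ζ := by
  intro hal
  apply hzc
  obtain ⟨c, rfl⟩ := exists_const_alg hal
  obtain ⟨β, hβ0, hβ⟩ := h.beta s hz hv
  have hβ0' : algebraMap ℂ (q.XX.residueField z) β ≠ 0 := by simpa using hβ0
  have hD : ∃ c : ℂ, q.V z (q.quad s).D (algebraMap ℂ _ c) := by
    obtain ⟨d, hd⟩ := h.exists_val s hz (x := (q.quad s).D) (Algebra.subset_adjoin (by simp))
    have h1 := ((hd.pow 3).add (hβ.pow 2)).add hβ
    rw [(h.quad s).hD] at h1
    have h2 := h1.unique Val.zero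
    have h3 : d ^ 3 = algebraMap ℂ _ (-(β ^ 2 + β)) := by
      rw [map_neg, map_add, map_pow]
      linear_combination h2
    have h4 : IsAlgebraic ℂ (d ^ 3) := by
      rw [h3]
      exact isAlgebraic_algebraMap _
    obtain ⟨c', hc'⟩ := exists_const_alg (IsAlgebraic.of_pow (by norm_num) h4)
    exact ⟨c', hc' ▸ hd⟩
  have hY : ∃ c : ℂ, q.V z (q.quad s).Y (algebraMap ℂ _ c) := by
    obtain ⟨d, hd⟩ := h.exists_val s hz (x := (q.quad s).Y) (Algebra.subset_adjoin (by simp))
    have h1 := ((val_const z 1).add (hβ.mul (hd.pow 3))).add (hζ.pow 3)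
    rw [map_one, (h.quad s).hY] at h1
    have h2 := h1.unique Val.zero
    have h3 : d ^ 3 = algebraMap ℂ _ (-(1 + c ^ 3) / β) := by
      rw [map_div₀, map_neg, map_add, map_pow, eq_div_iff hβ0', map_one]
      rw [map_one] at h2
      linear_combination h2
    have h4 : IsAlgebraic ℂ (d ^ 3) := by
      rw [h3]
      exact isAlgebraic_algebraMap _
    obtain ⟨c', hc'⟩ := exists_const_alg (IsAlgebraic.of_pow (by norm_num) h4)
    exact ⟨c', hc' ▸ hd⟩
  refine h.closed_of_algebraic s hz fun x hx => ?_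
  induction hx using Algebra.adjoin_induction with
  | mem x hx =>
    rcases hx with rfl | rfl | rfl | rfl | rfl
    · exact ⟨β, hβ⟩
    · refine ⟨β⁻¹, ?_⟩
      rw [map_inv₀]
      exact hβ.inv hβ0'
    · exact hD
    · exact hY
    · exact ⟨c, hζ⟩
  | algebraMap r => exact ⟨r, val_const z r⟩
  | add x y _ _ hx hy =>
    obtain ⟨c1, h1⟩ := hx
    obtain ⟨c2, h2⟩ := hy
    refine ⟨c1 + c2, ?_⟩
    rw [map_add]
    exact h1.add h2
  | mul x y _ _ hx hy =>
    obtain ⟨c1, h1⟩ := hx
    obtain ⟨c2, h2⟩ := hy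
    refine ⟨c1 * c2, ?_⟩
    rw [map_mul]
    exact h1.mul h2

end Quad

end

end M21X
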