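import Pool.Agent.H.MP_21b43d_ag.X.Ver

/-!
# M6 / X-part: vertical closed subsets; the surface satisfies condition (Y)
-/

set_option autoImplicit false

open CategoryTheory AlgebraicGeometry TopologicalSpace MvPolynomial

namespace M21X

open M21 M21.Z

noncomputable section

variable {K : Type} [Field K] [Algebra ℂ K] {q : Quad K}

namespace Quad

/-- two of the linear forms do not both vanish -/
theorem Good.exists_mu (h : q.Good) [NoetherianSpace q.XX] {T : Set q.XX} (hT : IsClosed T)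
    (hv : ∀ z ∈ T, Vert z) :
    ∃ μ : ℂ, ∀ y ∈ T, y ∈ q.O (Lx 1 μ) ∨ y ∈ q.O (Lz 1 μ) := by
  obtain ⟨S, hSf, hSc, hSi, hST⟩ := NoetherianSpace.exists_finite_set_isClosed_irreducible hT
  have h1 : ∀ t ∈ S, ∃ a b : ℂ, (a ≠ 0 ∨ b ≠ 0) ∧ ∀ y ∈ t, Lx a b ∈ q.PI y ∧ Lz a b ∈ q.PI y := by
    intro t ht
    have hg := (hSi t ht).isGenericPoint_genericPoint (hSc t ht)
    have hgT : (hSi t ht).genericPoint ∈ T := by
      rw [hST]
      exact ⟨t, ht, hg.mem⟩
    obtain ⟨a, b, hab, h2, h3⟩ := hv _ hgT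
    exact ⟨a, b, hab, fun y hy => ⟨PI_le (hg.specializes hy) h2, PI_le (hg.specializes hy) h3⟩⟩
  choose! a b hab hP using h1
  have hfin : (⋃ t ∈ S, {μ : ℂ | b t - a t * μ = 0}).Finite := by
    refine Set.Finite.biUnion hSf fun t ht => ?_
    refine Set.Finite.subset (Set.finite_singleton (b t / a t)) ?_
    intro μ hμ
    have hμ' : b t - a t * μ = 0 := hμ
    have ha : a t ≠ 0 := by
      intro h0
      rw [h0, zero_mul, sub_zero] at hμ'
      rcases hab t ht with h4 | h4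
      · exact h4 h0
      · exact h4 hμ'
    rw [Set.mem_singleton_iff, eq_div_iff ha]
    linear_combination -hμ'
  obtain ⟨μ, hμ⟩ := hfin.infinite_compl.nonempty
  refine ⟨μ, fun y hy => ?_⟩
  by_contra hcon
  push Not at hcon
  rw [notMem_O, notMem_O] at hcon
  obtain ⟨t, ht, hyt⟩ : ∃ t ∈ S, y ∈ t := by
    rw [hST] at hy
    exact hy
  have hne : b t - a t * μ ≠ 0 := fun h0 => hμ (Set.mem_biUnion ht h0)
  obtain ⟨p1, p2⟩ := hP t ht y hyt
  have aux : ∀ r s : MvPolynomial (Fin 9) ℂ, C (a t) * r + C (b t) * s ∈ q.PI y →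
      C 1 * r + C μ * s ∈ q.PI y → r ∈ q.PI y ∧ s ∈ q.PI y := by
    intro r s hr hs
    have e1 : C (b t - a t * μ) * s ∈ q.PI y := by
      have e2 := (q.PI y).sub_mem hr ((q.PI y).mul_mem_left (C (a t)) hs)
      have e3 : C (a t) * r + C (b t) * s - C (a t) * (C 1 * r + C μ * s) =
          C (b t - a t * μ) * s := by
        rw [C_sub, C_mul, C_1]
        ring
      rwa [e3] at e2
    have e4 : s ∈ q.PI y := by
      have e5 := (q.PI y).mul_mem_left (C (b t - a t * μ)⁻¹) e1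
      rwa [← mul_assoc, ← C_mul, inv_mul_cancel₀ hne, C_1, one_mul] at e5
    refine ⟨?_, e4⟩
    have e6 := (q.PI y).sub_mem hs ((q.PI y).mul_mem_left (C μ) e4)
    rwa [C_1, one_mul, add_sub_cancel_right] at e6
  obtain ⟨m0, m1⟩ := aux _ _ p1 hcon.1
  obtain ⟨m3, m4⟩ := aux _ _ p2 hcon.2
  exact h.cover4 y ⟨m0, m1, m3, m4⟩

theorem Good.exists_zeta (h : q.Good) {z : q.XX} (hv : Vert z)
    (hzc : ¬ IsClosed ({z} : Set q.XX)) : ∃ ζ, q.V z q.Z ζ ∧ Transcendental ℂ ζ := by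
  obtain ⟨s, hs⟩ := h.ch_cover z
  rw [h.ch_opensRange] at hs
  obtain ⟨ζ, hζ⟩ := h.exists_val s hs (x := (q.quad s).Z) (Algebra.subset_adjoin (by simp))
  have ht := h.trans_zeta s hs hv hzc hζ
  rcases s with ⟨i, j⟩
  cases j
  · rw [quad_false, quad0_Z] at hζ
    exact ⟨ζ, hζ, ht⟩
  · have h1 : (q.quad (i, true)).Z = q.Z⁻¹ := by
      rw [quad_true]
      change 1 / (q.quad0 i).Z = _
      rw [quad0_Z, one_div]
    rw [h1] at hζ
    have h0 : ζ ≠ 0 := by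
      rintro rfl
      exact ht isAlgebraic_zero
    refine ⟨ζ⁻¹, ?_, ?_⟩
    · have h2 := hζ.inv h0
      rwa [inv_inv] at h2
    · intro h2
      apply ht
      have h3 := h2.inv
      rwa [inv_inv] at h3

theorem two_mem {P : Ideal (MvPolynomial (Fin 9) ℂ)} (hPp : P.IsPrime)
    {a b : MvPolynomial (Fin 9) ℂ} (h1 : a * b ∈ P) (h2 : b * (a + b) ∈ P)
    (h3 : a * (a + b) ∈ P) : a ∈ P ∧ b ∈ P := by
  rcases hPp.mem_or_mem h1 with h4 | h4
  · refine ⟨h4, ?_⟩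
    rcases hPp.mem_or_mem h2 with h5 | h5
    · exact h5
    · exact (P.add_mem_iff_right h4).mp h5
  · refine ⟨?_, h4⟩
    rcases hPp.mem_or_mem h3 with h5 | h5
    · exact h5
    · exact (P.add_mem_iff_left h4).mp h5

/-- coefficients of the linear form in a chart -/
def lc (μ : ℂ) : Fin 3 → ℂ := ![1, μ - 1, -μ]

/-- coefficients of the linear form in a chart -/
def mc (μ : ℂ) : Fin 3 → ℂ := ![μ, -1, 1 - μ]

theorem Good.lc_mc (h : q.Good) (μ : ℂ) (i : Fin 3) : 1 + algebraMap ℂ K μ * q.B =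
    q.lam0 i * (algebraMap ℂ K (lc μ i) + algebraMap ℂ K (mc μ i) * (q.quad0 i).B) := by
  have hB := h.B_ne
  have hB1 := h.B1_ne
  fin_cases i
  · simp [lam0, lc, mc, Quad.quad0]
  · simp [lam0, lc, mc, Quad.quad0, Quad.rot]
    field_simp
    ring
  · have h1 := h.rot_rot_B
    change _ = q.B * q.rot.B * (algebraMap ℂ K (-μ) + algebraMap ℂ K (1 - μ) * q.rot.rot.B)
    rw [h1]
    simp only [Quad.rot, map_neg, map_sub, map_one]
    field_simp
    ring

/-- linear form `f` with `f(v) = ± lam0 i`, nonzero on the chart -/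
theorem Good.exists_den (h : q.Good) (i : Fin 3) {z : q.XX} (hz : z ∈ q.O (pol (i, false))) :
    ∃ f ∈ gr 8 1, z ∈ q.O f ∧ (aeval q.vec f = q.lam0 i ∨ aeval q.vec f = -q.lam0 i) := by
  have hB := h.B_ne
  fin_cases i
  · refine ⟨X 0, X_mem 8 0, ?_, Or.inl ?_⟩
    · rw [mem_O]
      intro h'
      exact hz (Ideal.mul_mem_right _ _ h')
    · simp [vec, lam0]
  · refine ⟨X 1, X_mem 8 1, ?_, Or.inl ?_⟩
    · rw [mem_O]
      intro h'
      exact hz (Ideal.mul_mem_right _ _ h')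
    · simp [vec, lam0]
  · refine ⟨X 0 + X 1, add_mem (X_mem 8 0) (X_mem 8 1), ?_, Or.inr ?_⟩
    · rw [mem_O]
      intro h'
      exact hz (Ideal.mul_mem_left _ _ h')
    · simp [vec, lam0, Quad.rot]
      field_simp
      ring

/-- **A cocycle which does not die at a vertical point which is not closed.** -/
theorem Good.exists_ver (h : q.Good) [IsProper q.str] {T : Set q.XX} (hT : IsClosed T)
    {μ : ℂ} (hμ : ∀ y ∈ T, y ∈ q.O (Lx 1 μ) ∨ y ∈ q.O (Lz 1 μ)) {z : q.XX} (hzT : z ∈ T)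
    (hv : Vert z) (hzc : ¬ IsClosed ({z} : Set q.XX)) :
    ∃ c : Cocycle (fun b : Bool => bif b then q.O (Lz 1 μ) else q.O (Lx 1 μ)), ¬ Dies c z := by
  have hZ := h.Z_ne
  obtain ⟨ζ, hζ, hζt⟩ := h.exists_zeta hv hzc
  have hζ0 : ζ ≠ 0 := by
    rintro rfl
    exact hζt isAlgebraic_zero
  -- values of `Z` outside of the two open sets
  have out0 : ∀ y ∈ T, y ∉ q.O (Lx 1 μ) → q.V y q.Z⁻¹ 0 := by
    intro y hy hy'
    refine val_zero (Lz_mem 1 μ) (Lx_mem 1 μ) ((hμ y hy).resolve_left hy') ((notMem_O y _).1 hy') ?_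
    rw [aeval_Lx, aeval_Lz]
    field_simp
  have out1 : ∀ y ∈ T, y ∉ q.O (Lz 1 μ) → q.V y q.Z 0 := by
    intro y hy hy'
    refine val_zero (Lx_mem 1 μ) (Lz_mem 1 μ) ((hμ y hy).resolve_right hy') ((notMem_O y _).1 hy') ?_
    rw [aeval_Lx, aeval_Lz]
    ring
  have hz0 : z ∈ q.O (Lx 1 μ) := by
    by_contra hcon
    exact inv_ne_zero hζ0 ((hζ.inv hζ0).unique (out0 z hzT hcon))
  have hz1 : z ∈ q.O (Lz 1 μ) := by
    by_contra hcon
    exact hζ0 (hζ.unique (out1 z hzT hcon))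
  -- the chart
  obtain ⟨i, hi⟩ : ∃ i : Fin 3, z ∈ q.O (pol (i, false)) := by
    by_contra hcon
    push Not at hcon
    have p0 : X 0 * X 1 ∈ q.PI z := (notMem_O z _).1 (hcon 0)
    have p1 : X 1 * (X 0 + X 1) ∈ q.PI z := (notMem_O z _).1 (hcon 1)
    have p2 : X 0 * (X 0 + X 1) ∈ q.PI z := (notMem_O z _).1 (hcon 2)
    obtain ⟨m0, m1⟩ := two_mem inferInstance p0 p1 p2
    apply hz0
    exact add_mem (Ideal.mul_mem_left _ _ m0) (Ideal.mul_mem_left _ _ m1)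
  obtain ⟨β, hβ0, hβ⟩ := h.beta (i, false) hi hv
  obtain ⟨η, hη⟩ := h.exists_val (i, false) hi (x := (q.quad (i, false)).Y)
    (Algebra.subset_adjoin (by simp))
  rw [quad_false] at hβ hη
  have hβ0' : algebraMap ℂ (q.XX.residueField z) β ≠ 0 := by simpa using hβ0
  have hrel : 1 + algebraMap ℂ (q.XX.residueField z) β * η ^ 3 + ζ ^ 3 = 0 := by
    have h1 := ((val_const z 1).add (hβ.mul (hη.pow 3))).add (hζ.pow 3)
    have h2 := (h.quad0 i).hY
    rw [quad0_Z] at h2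
    rw [map_one, map_one, h2] at h1
    exact h1.unique Val.zero
  -- the linear form in the chart
  set l : K := algebraMap ℂ K (lc μ i) + algebraMap ℂ K (mc μ i) * (q.quad0 i).B with hl
  have hlm : 1 + algebraMap ℂ K μ * q.B = q.lam0 i * l := h.lc_mc μ i
  have hL0 : 1 + algebraMap ℂ K μ * q.B ≠ 0 := by
    have h1 := aeval_ne_of_mem (N := 8) q.vec q.vec0_ne (Lx_mem 1 μ) one_pos hz0
    rw [aeval_Lx, map_one] at h1
    exact h1
  have hlam := h.lam0_ne i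
  have hl0 : l ≠ 0 := by
    intro h1
    rw [h1, mul_zero] at hlm
    exact hL0 hlm
  have hlv : q.V z l (algebraMap ℂ _ (lc μ i + mc μ i * β)) := by
    rw [map_add, map_mul]
    exact (val_const z _).add ((val_const z _).mul hβ)
  have hlc : lc μ i + mc μ i * β ≠ 0 := by
    obtain ⟨f, hf, hzf, hfv⟩ := h.exists_den i hi
    rcases hfv with hfv | hfv
    · obtain ⟨a, ha, ha'⟩ := val2 (x := l) hf (Lx_mem 1 μ) hzf (by
        rw [hfv, aeval_Lx, map_one, hlm]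
        ring)
      intro h1
      rw [h1, map_zero] at hlv
      exact hz0 (ha'.1 (ha.unique hlv))
    · obtain ⟨a, ha, ha'⟩ := val2 (x := -l) hf (Lx_mem 1 μ) hzf (by
        rw [hfv, aeval_Lx, map_one, hlm]
        ring)
      intro h1
      rw [h1, map_zero] at hlv
      have h2 := hlv.neg
      rw [neg_zero] at h2
      exact hz0 (ha'.1 (ha.unique h2))
  have hlc' : algebraMap ℂ (q.XX.residueField z) (lc μ i + mc μ i * β) ≠ 0 :=
    (map_ne_zero _).2 hlc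
  -- regularity
  have hreg : ∀ y ∈ q.O (Lx 1 μ) ⊓ q.O (Lz 1 μ),
      ∃ b, q.V y ((q.quad0 i).B * (q.quad0 i).Y ^ 2 * l⁻¹ * q.Z⁻¹) b := by
    rintro y ⟨hy0, hy1⟩
    have hP : ∀ j : Fin 9, ∃ b, q.V y ((q.quad0 i).vec j / l) b := by
      intro j
      obtain ⟨M, hM, hMv⟩ := exists_linear ((h.rel0 i _).mp ((q.quad0 i).vec_mem j))
      obtain ⟨b, hb, -⟩ := val2 (x := (q.quad0 i).vec j / l) (Lx_mem 1 μ) hM hy0 (by
        rw [hMv, aeval_Lx, map_one, hlm]
        field_simp)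
      exact ⟨b, hb⟩
    have hQ : ∀ j : Fin 9, ∃ b, q.V y ((q.quad0 i).vec j / (l * q.Z)) b := by
      intro j
      obtain ⟨M, hM, hMv⟩ := exists_linear ((h.rel0 i _).mp ((q.quad0 i).vec_mem j))
      obtain ⟨b, hb, -⟩ := val2 (x := (q.quad0 i).vec j / (l * q.Z)) (Lz_mem 1 μ) hM hy1 (by
        rw [hMv, aeval_Lz, map_one, hlm]
        field_simp)
      exact ⟨b, hb⟩
    obtain ⟨p6, hp6⟩ := hP 6
    obtain ⟨p7, hp7⟩ := hP 7
    obtain ⟨q7, hq7⟩ := hQ 7
    obtain ⟨q8, hq8⟩ := hQ 8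
    have e := ((val_const y (mc μ i)).mul (hp7.mul hq7)).sub
      ((val_const y (lc μ i)).mul ((hp6.mul hq8).add (hp7.mul hq7)))
    have e2 : algebraMap ℂ K (mc μ i) * ((q.quad0 i).vec 7 / l * ((q.quad0 i).vec 7 / (l * q.Z))) -
        algebraMap ℂ K (lc μ i) * ((q.quad0 i).vec 6 / l * ((q.quad0 i).vec 8 / (l * q.Z)) +
          (q.quad0 i).vec 7 / l * ((q.quad0 i).vec 7 / (l * q.Z))) =
        (q.quad0 i).B * (q.quad0 i).Y ^ 2 * l⁻¹ * q.Z⁻¹ := by
      have hD := (h.quad0 i).hD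
      have v6 : (q.quad0 i).vec 6 = (q.quad0 i).D * (q.quad0 i).Y := rfl
      have v7 : (q.quad0 i).vec 7 = (q.quad0 i).B * (q.quad0 i).Y := rfl
      have v8 : (q.quad0 i).vec 8 = (q.quad0 i).D ^ 2 * (q.quad0 i).Y := rfl
      rw [v6, v7, v8]
      field_simp
      rw [hl]
      linear_combination (-algebraMap ℂ K (lc μ i) * (q.quad0 i).Y ^ 2) * hD
    rw [e2] at e
    exact ⟨_, e⟩
  -- the value at `z`
  have hval : q.V z ((q.quad0 i).B * (q.quad0 i).Y ^ 2 * l⁻¹ * q.Z⁻¹)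
      (algebraMap ℂ _ (β / (lc μ i + mc μ i * β)) * (η ^ 2 / ζ)) := by
    have h1 := ((hβ.mul (hη.pow 2)).mul (hlv.inv hlc')).mul (hζ.inv hζ0)
    have h2 : algebraMap ℂ (q.XX.residueField z) β * η ^ 2 *
        (algebraMap ℂ _ (lc μ i + mc μ i * β))⁻¹ * ζ⁻¹ =
        algebraMap ℂ _ (β / (lc μ i + mc μ i * β)) * (η ^ 2 / ζ) := by
      rw [map_div₀]
      field_simp
    rw [h2] at h1
    exact h1
  refine exists_not_dies (ξ := q.pt) q.str z _ _ hz0 hz1 q.Z _ ζ _ hζ hζ0 ?_ ?_ hreg hval ?_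
  · intro y hzy hy
    exact out0 y (hzy.mem_closed hT hzT) hy
  · intro y hzy hy
    exact out1 y (hzy.mem_closed hT hzT) hy
  · intro g0 g1 h0 h1 n hn
    exact y_alg_ver ζ η hζt β _ hβ0 (div_ne_zero hβ0 hlc) hrel g0 g1 h0 h1 n hn

/-- **The surface satisfies condition (Y).** -/
theorem Good.condY (h : q.Good) : CondY q.XX := by
  have hp : IsProper q.str := inferInstance
  have hN : IsNoetherian q.XX := isNoetherian_of_isProper q.str
  have hNS : NoetherianSpace q.XX := inferInstance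
  intro T hT hTn
  by_cases hv : ∀ z ∈ T, Vert z
  · obtain ⟨μ, hμ⟩ := h.exists_mu hT hv
    obtain ⟨z, hzT, hzc⟩ : ∃ z ∈ T, ¬ IsClosed ({z} : Set q.XX) := by
      by_contra hne
      push Not at hne
      exact hTn ⟨finite_of_isClosed hT hne, hne⟩
    obtain ⟨c, hc⟩ := h.exists_ver hT hμ hzT (hv z hzT) hzc
    refine ⟨Bool, _, c, fun x hx => ?_, z, hzT, hc⟩
    rcases hμ x hx with h' | h'
    · exact Set.mem_iUnion.2 ⟨false, h'⟩
    · exact Set.mem_iUnion.2 ⟨true, h'⟩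
  · push Not at hv
    obtain ⟨z, hzT, hz⟩ := hv
    obtain ⟨c, hc⟩ := h.exists_hor hz
    refine ⟨Bool, _, c, fun x _ => ?_, z, hzT, hc⟩
    by_cases h0 : x ∈ q.O (X 0) ⊔ q.O (X 3)
    · exact Set.mem_iUnion.2 ⟨false, h0⟩
    · refine Set.mem_iUnion.2 ⟨true, ?_⟩
      by_contra h1
      have h1' : x ∉ q.O (X 1) ⊔ q.O (X 4) := h1
      apply h.cover4 x
      refine ⟨?_, ?_, ?_, ?_⟩
      · exact (notMem_O x _).1 fun h' => h0 (Or.inl h')
      · exact (notMem_O x _).1 fun h' => h1' (Or.inl h')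
      · exact (notMem_O x _).1 fun h' => h0 (Or.inr h')
      · exact (notMem_O x _).1 fun h' => h1' (Or.inr h')

end Quad

end

end M21X
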