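import Mathlib

/-!
# M6 / X-part: divisibility of traces
-/

set_option autoImplicit false

open Polynomial

namespace M21X

noncomputable section

/-- The common form of both statements: `p` is radical and nonzero. The conjugates of `x` lie in
the radical of the ideal generated by `p` in the integral closure of `A`, so the trace does too. -/
theorem YAlg1_trace_dvd_of_isRadical {A F L : Type*} [CommRing A] [IsDomain A]
    [IsPrincipalIdealRing A] [Field F]
    [Algebra A F] [IsFractionRing A F] [CharZero F] [Field L] [Algebra F L] [Algebra A L]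
    [IsScalarTower A F L] [FiniteDimensional F L] (p : A) (hp0 : p ≠ 0) (hp : IsRadical p)
    (x w : L)
    (hx : IsIntegral A x) (hw : IsIntegral A w) (h : x ^ 3 = algebraMap A L p * w) :
    ∃ a : A, Algebra.trace F L x = algebraMap A F (p * a) := by
  classical
  let E := AlgebraicClosure F
  have hst : IsScalarTower A F E := inferInstance
  -- the trace is integral, so in `A`
  have hti : IsIntegral A (Algebra.trace F L x) := Algebra.isIntegral_trace hx
  obtain ⟨a0, ha0⟩ := IsIntegrallyClosed.isIntegral_iff.mp hti
  let O := integralClosure A E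
  let I : Ideal O := Ideal.span {algebraMap A O p}
  -- conjugates
  have hσx : ∀ σ : L →ₐ[F] E, IsIntegral A (σ x) := fun σ =>
    hx.map (σ.restrictScalars A)
  have hσw : ∀ σ : L →ₐ[F] E, IsIntegral A (σ w) := fun σ =>
    hw.map (σ.restrictScalars A)
  let X : (L →ₐ[F] E) → O := fun σ => ⟨σ x, hσx σ⟩
  let W : (L →ₐ[F] E) → O := fun σ => ⟨σ w, hσw σ⟩
  have hXW : ∀ σ, X σ ^ 3 = algebraMap A O p * W σ := by
    intro σ
    apply Subtype.ext
    have h1 : (σ x) ^ 3 = σ (algebraMap A L p) * σ w := by
      rw [← map_pow, h, map_mul]
    have h2 : σ (algebraMap A L p) = algebraMap A E p := by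
      rw [IsScalarTower.algebraMap_apply A F L, AlgHom.commutes,
        ← IsScalarTower.algebraMap_apply A F E]
    rw [h2] at h1
    exact h1
  have hXrad : ∀ σ, X σ ∈ I.radical := by
    intro σ
    refine ⟨3, ?_⟩
    rw [hXW σ]
    exact Ideal.mul_mem_right _ _ (Ideal.mem_span_singleton_self _)
  have hsum : (∑ σ : L →ₐ[F] E, X σ) ∈ I.radical := Ideal.sum_mem _ (fun σ _ => hXrad σ)
  have hsumE : ((∑ σ : L →ₐ[F] E, X σ : O) : E) = algebraMap A E a0 := by
    rw [IsScalarTower.algebraMap_apply A F E, ha0, trace_eq_sum_embeddings (K := F) (L := L) E,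
      AddSubmonoidClass.coe_finsetSum]
  have hsumO : (∑ σ : L →ₐ[F] E, X σ) = algebraMap A O a0 := by
    apply Subtype.ext
    rw [hsumE]
    rfl
  rw [hsumO] at hsum
  obtain ⟨n, hn⟩ := hsum
  obtain ⟨u, hu⟩ := Ideal.mem_span_singleton'.mp hn
  -- `u * p = a0 ^ n` in `O`
  have huE : (u : E) * algebraMap A E p = algebraMap A E a0 ^ n := by
    have := congrArg (fun z : O => (z : E)) hu
    simpa using this
  have hpF : algebraMap A F p ≠ 0 := by
    intro h0
    exact hp0 ((IsFractionRing.injective A F) (by rw [h0, map_zero]))
  have hpE : algebraMap A E p ≠ 0 := by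
    rw [IsScalarTower.algebraMap_apply A F E]
    exact fun h0 => hpF ((algebraMap F E).injective (by rw [h0, map_zero]))
  have hint : IsIntegral A (algebraMap A F a0 ^ n / algebraMap A F p) := by
    have hu' : algebraMap F E (algebraMap A F a0 ^ n / algebraMap A F p) = (u : E) := by
      rw [map_div₀, map_pow, ← IsScalarTower.algebraMap_apply A F E,
        ← IsScalarTower.algebraMap_apply A F E, div_eq_iff hpE, huE]
    have hui : IsIntegral A (u : E) := u.2
    rw [← hu'] at hui
    exact (isIntegral_algebraMap_iff (algebraMap F E).injective).mp hui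
  obtain ⟨b, hb⟩ := IsIntegrallyClosed.isIntegral_iff.mp hint
  have hab : a0 ^ n = p * b := by
    apply IsFractionRing.injective A F
    rw [map_pow, map_mul, hb, mul_div_cancel₀ _ hpF]
  obtain ⟨a, ha⟩ := hp n a0 ⟨b, hab⟩
  exact ⟨a, by rw [← ha0, ha]⟩

/-- PROOF. Let `O = integralClosure ℂ[t] L` (a Dedekind domain, finite free over the principal ideal
domain `ℂ[t]`). The trace of `x` modulo `p` is the trace of multiplication by `x` on `O/pO`
(`Algebra.trace_quotient_eq_of_isDedekindDomain`, `Algebra.intTrace`), and `x` is nilpotent there.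
Or directly: the conjugates `x_i` of `x` in an algebraic closure satisfy `x_i³ = p w_i` with `w_i`
integral; every monomial of degree `2 m + 1` in the `m` conjugates contains some `x_i³`, so
`(trace x)^(2m+1) = p w` with `w` integral, `w` in the fraction field, so `w ∈ ℂ[t]`, and `p` is
prime. Here `A = ℂ[t]` is any integrally closed noetherian domain, `p` a prime element. -/
theorem trace_dvd {A F L : Type*} [CommRing A] [IsDomain A] [IsPrincipalIdealRing A] [Field F]
    [Algebra A F] [IsFractionRing A F] [CharZero F] [Field L] [Algebra F L] [Algebra A L]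
    [IsScalarTower A F L] [FiniteDimensional F L] (p : A) (hp : Prime p) (x w : L)
    (hx : IsIntegral A x) (hw : IsIntegral A w) (h : x ^ 3 = algebraMap A L p * w) :
    ∃ a : A, Algebra.trace F L x = algebraMap A F (p * a) :=
  YAlg1_trace_dvd_of_isRadical p hp.ne_zero hp.isRadical x w hx hw h

/-- The same for a squarefree element. PROOF. Every prime divisor of `p` divides the trace (an element
of `A` since `A` is integrally closed), and `p` is squarefree (`UniqueFactorizationMonoid`,
`Squarefree`, induction on the factorization). -/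
theorem trace_dvd_squarefree {A F L : Type*} [CommRing A] [IsDomain A] [IsPrincipalIdealRing A]
    [Field F] [Algebra A F] [IsFractionRing A F] [CharZero F] [Field L] [Algebra F L] [Algebra A L]
    [IsScalarTower A F L] [FiniteDimensional F L] (p : A) (hp : Squarefree p) (x w : L)
    (hx : IsIntegral A x) (hw : IsIntegral A w) (h : x ^ 3 = algebraMap A L p * w) :
    ∃ a : A, Algebra.trace F L x = algebraMap A F (p * a) :=
  YAlg1_trace_dvd_of_isRadical p hp.ne_zero hp.isRadical x w hx hw h

end

end M21X
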